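import Pool.Agent.Work.MP_a98e4e_ag.Fu.E.Theta

/-!
# The complex `G`: inclusions `iW : W → G`, `iP : X''^∨ → G`, classes modulo `F¹`

`Gq` = vectors of `G` a nonzero multiple of which is, modulo the image of `iP`, a boundary of degree
zero.  On cocycles `Gq` is the same as `BT`.
-/

set_option autoImplicit false
set_option linter.unusedSectionVars false

open Matrix Kronecker RingTheory.Sequence IsLocalRing

namespace LicciCore

open LicciCx Cx Pool.Agent.Licci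

universe u

/-! ## vectors and matrices -/

section gen

variable {R : Type u} [CommRing R] {J J' J'' : Type*} [Fintype J] [Fintype J'] [Fintype J'']
  [DecidableEq J] [DecidableEq J'] [DecidableEq J'']

theorem mem_Z0_iff (K : Cx R J) (z : J → R) : z ∈ K.Z0 ↔ Vh K 0 z ∧ K.d *ᵥ z = 0 := Iff.rfl

theorem mem_B0_iff (K : Cx R J) (z : J → R) : z ∈ K.B0 ↔ ∃ w, Vh K (-1) w ∧ K.d *ᵥ w = z :=
  Iff.rfl

/-- a boundary of some vector which is of degree zero is in `B0` -/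
theorem mem_B0_of (K : Cx R J) {z w : J → R} (hz : Vh K 0 z) (h : K.d *ᵥ w = z) : z ∈ K.B0 := by
  obtain ⟨w', hw1, hw2⟩ := exists_supp (n := 0) (deg := K.deg) (d := K.d)
    (fun i j hij => by by_contra h0; exact hij (K.hmg i j h0))
    (v := z) (vh_iff_supp.1 hz) (w := w) h.symm
  rw [zero_sub] at hw1
  exact ⟨w', vh_iff_supp.2 hw1, hw2.symm⟩

theorem b0_le_z0 (K : Cx R J) : K.B0 ≤ K.Z0 := by
  rintro z ⟨w, hw, rfl⟩
  refine ⟨?_, by rw [Matrix.mulVec_mulVec, K.sq, Matrix.zero_mulVec]⟩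
  have := Vh.mulVec K.hmg (show Vh K (-1) w from hw)
  exact this

/-- closed maps of degree zero preserve `Z0` -/
theorem Cl.mem_Z0 {K : Cx R J} {L : Cx R J'} {f : Matrix J' J R} (hf : Cl K L 0 f) {z : J → R}
    (hz : z ∈ K.Z0) : f *ᵥ z ∈ L.Z0 := by
  obtain ⟨h1, h2⟩ := hz
  refine ⟨?_, ?_⟩
  · have := Vh.mulVec hf.hmg (show Vh K 0 z from h1)
    exact this
  · rw [Matrix.mulVec_mulVec, hf.comm0, ← Matrix.mulVec_mulVec, h2, Matrix.mulVec_zero]

theorem Cl.mem_B0 {K : Cx R J} {L : Cx R J'} {f : Matrix J' J R} (hf : Cl K L 0 f) {z : J → R}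
    (hz : z ∈ K.B0) : f *ᵥ z ∈ L.B0 := by
  obtain ⟨w, hw, rfl⟩ := hz
  refine ⟨f *ᵥ w, ?_, ?_⟩
  · have := Vh.mulVec hf.hmg (show Vh K (-1) w from hw)
    exact this
  · rw [Matrix.mulVec_mulVec, hf.comm0, ← Matrix.mulVec_mulVec]

theorem bt_of_b0 [IsDomain R] {K : Cx R J} {z : J → R} (hz : z ∈ K.B0) : z ∈ K.BT :=
  ⟨1, one_ne_zero, by rwa [one_smul]⟩

/-- the pairing of cocycles of the dual with boundaries -/
theorem dual_dot_B0 {K : Cx R J} {l z : J → R} (hl : l ∈ K.dual.Z0) (hz : z ∈ K.B0) :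
    l ⬝ᵥ z = 0 := by
  obtain ⟨w, hw, rfl⟩ := hz
  have h1 : K.dual.d *ᵥ l = 0 := hl.2
  rw [dual_d, Matrix.neg_mulVec, neg_eq_zero, Matrix.mulVec_transpose] at h1
  have h2 : K.e *ᵥ (K.d *ᵥ w) = K.d *ᵥ w := by
    have h3 : Vh K 0 (K.d *ᵥ w) := (b0_le_z0 K ⟨w, hw, rfl⟩).1
    funext i
    show ((Matrix.diagonal fun j => ((sg (K.deg j) : ℤ) : R)) *ᵥ (K.d *ᵥ w)) i = _
    rw [Matrix.mulVec_diagonal]
    by_cases hi : K.deg i = 0
    · rw [hi, sg_zero]; simp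
    · rw [h3 i hi, mul_zero]
  rw [← h2, Matrix.mulVec_mulVec, Matrix.dotProduct_mulVec, h1, zero_dotProduct]

/-- the pairing of boundaries of the dual with cocycles -/
theorem dual_B0_dot {K : Cx R J} {l z : J → R} (hl : l ∈ K.dual.B0) (hz : z ∈ K.Z0) :
    l ⬝ᵥ z = 0 := by
  obtain ⟨w, hw, rfl⟩ := hl
  rw [dual_d, Matrix.neg_mulVec, neg_dotProduct, neg_eq_zero, Matrix.mulVec_transpose,
    ← Matrix.dotProduct_mulVec, ← Matrix.mulVec_mulVec, hz.2, Matrix.mulVec_zero,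
    dotProduct_zero]

/-- the contraction of a vector of the bottom degree -/
theorem IsCon.bot {K : Cx R J} {c : R} {h : Matrix J J R} (hh : IsCon K c h) {n : ℤ}
    (hn : n ≠ 0) (hb : ∀ j, n ≤ K.deg j) {v : J → R} (hv : Vh K n v) :
    h *ᵥ (K.d *ᵥ v) = c • v := by
  have h1 : (c • (1 : Matrix J J R) - (K.d * h + h * K.d)) *ᵥ v = 0 := by
    funext i
    rw [Matrix.mulVec, dotProduct]
    refine Finset.sum_eq_zero fun j _ => ?_
    by_cases h0 : K.deg j = n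
    · rw [hh.sup i j (by rintro ⟨-, h2⟩; exact hn (h0.symm.trans h2)), zero_mul]
    · rw [hv j h0, mul_zero]
  have h2 : h *ᵥ v = 0 := by
    funext i
    rw [Matrix.mulVec, dotProduct]
    refine Finset.sum_eq_zero fun j _ => ?_
    by_cases h0 : K.deg j = n
    · rw [hh.hmg i j (by rw [h0]; have := hb i; omega), zero_mul]
    · rw [hv j h0, mul_zero]
  rw [Matrix.sub_mulVec, Matrix.smul_mulVec, Matrix.one_mulVec, Matrix.add_mulVec,
    sub_eq_zero, ← Matrix.mulVec_mulVec, h2, Matrix.mulVec_zero, zero_add] at h1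
  rw [h1, Matrix.mulVec_mulVec]

/-- the differential is injective in the bottom degree `-1` -/
theorem d_inj_of_bot [IsDomain R] {K : Cx R J} {c : R} (hc : c ≠ 0) (hK : Con K c)
    (hb : ∀ j, -1 ≤ K.deg j) {v : J → R} (hv : Vh K (-1) v) (hd : K.d *ᵥ v = 0) : v = 0 := by
  obtain ⟨h, hh⟩ := hK
  have h1 := IsCon.bot hh (by norm_num) hb hv
  rw [hd, Matrix.mulVec_zero] at h1
  funext i
  have h2 := congrFun h1 i
  have h3 : c * v i = 0 := h2.symm
  exact (mul_eq_zero.1 h3).resolve_left hc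

/-- a torsion boundary, contracted -/
theorem IsCon.d_h_of_BT [IsDomain R] {K : Cx R J} {c : R} {h : Matrix J J R} (hh : IsCon K c h)
    (hb : ∀ j, -1 ≤ K.deg j) {y : J → R} (hy : y ∈ K.BT) : K.d *ᵥ (h *ᵥ y) = c • y := by
  obtain ⟨s, hs, v, hv, hvy⟩ := hy
  have h1 := IsCon.bot hh (by norm_num) hb (show Vh K (-1) v from hv)
  rw [hvy, Matrix.mulVec_smul] at h1
  have h2 : s • (K.d *ᵥ (h *ᵥ y)) = s • (c • y) := by
    rw [← Matrix.mulVec_smul, h1, Matrix.mulVec_smul, hvy, smul_comm]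
  funext i
  exact mul_left_cancel₀ hs (congrFun h2 i)

/-- the bracket as a matrix -/
def brM (R : Type*) [CommRing R] : Matrix (Fin 248) (Fin 248 × Fin 248) R :=
  Matrix.of fun k ij => (sc ij.1 ij.2 k : R)

theorem brM_vk (x y : Fin 248 → R) : brM R *ᵥ vk x y = br x y := by
  funext k
  simp only [Matrix.mulVec, dotProduct, Fintype.sum_prod_type, brM, Matrix.of_apply, vk]
  rfl

theorem kf_add_left (x y z : Fin 248 → R) : kf (x + y) z = kf x z + kf y z := by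
  simp only [kf_eq, add_dotProduct]

theorem kf_smul_left (c : R) (x y : Fin 248 → R) : kf (c • x) y = c * kf x y := by
  simp only [kf_eq, smul_dotProduct, smul_eq_mul]

theorem kf_sub_left (x y z : Fin 248 → R) : kf (x - y) z = kf x z - kf y z := by
  simp only [kf_eq, sub_dotProduct]

theorem vk_eq_tv (x : J → R) (y : J' → R) : vk x y = tv x y := rfl

theorem kron_mulVec_vk {A B : Type*} [Fintype A] [Fintype B] (f : Matrix A J R)
    (g : Matrix B J' R) (x : J → R) (y : J' → R) :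
    (f ⊗ₖ g) *ᵥ vk x y = vk (f *ᵥ x) (g *ᵥ y) := kron_mulVec_tv f g x y

end gen

namespace CoreData

variable {R : Type u} [CommRing R] [IsDomain R] [IsLocalRing R] {p : Fin 248 → R}
  {a : Fin 6 → R} {J : Type} [Fintype J] [DecidableEq J] (D : CoreData R p a J)

/-- `W → G` -/
def iW (R : Type*) [CommRing R] (J : Type*) [DecidableEq J] :
    Matrix ((Fin 248 ⊕ (Unit ⊕ J)) ⊕ (Unit ⊕ J)) (Fin 248) R :=
  Matrix.fromRows (Matrix.fromRows 1 0) 0

/-- `X''^∨ → G`, of degree `1` -/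
def iP (R : Type*) [CommRing R] (J : Type*) [DecidableEq J] :
    Matrix ((Fin 248 ⊕ (Unit ⊕ J)) ⊕ (Unit ⊕ J)) (Unit ⊕ J) R :=
  Matrix.fromRows 0 1

/-- `X'' → G`, of degree `-1` -/
def iX (R : Type*) [CommRing R] (J : Type*) [DecidableEq J] :
    Matrix ((Fin 248 ⊕ (Unit ⊕ J)) ⊕ (Unit ⊕ J)) (Unit ⊕ J) R :=
  Matrix.fromRows (Matrix.fromRows 0 1) 0

theorem G_deg (S : Setup R p a) : (D.G S).deg =
    Sum.elim (Sum.elim (fun _ => (0 : ℤ)) (fun j => D.X2.deg j + (-1)))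
      (fun j => D.X2.dual.deg j + 1) := rfl

theorem X2_deg : D.X2.deg = Sum.elim (fun _ => (0 : ℤ)) D.X.deg := rfl

theorem X2_le (j : Unit ⊕ J) : D.X2.deg j ≤ 1 := by
  rcases j with j | j
  · show (0 : ℤ) ≤ 1
    norm_num
  · exact D.deg_le j

theorem le_X2 (j : Unit ⊕ J) : -1 ≤ D.X2.deg j := by
  rcases j with j | j
  · show (-1 : ℤ) ≤ 0
    norm_num
  · exact D.le_deg j

theorem le_X2d (j : Unit ⊕ J) : -1 ≤ D.X2.dual.deg j := by
  rw [dual_deg]
  have := D.X2_le j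
  omega

theorem le_G (S : Setup R p a) (j) : -2 ≤ (D.G S).deg j := by
  rw [D.G_deg S]
  rcases j with (j | j) | j
  · show (-2 : ℤ) ≤ 0
    norm_num
  · show -2 ≤ D.X2.deg j + (-1)
    have := D.le_X2 j
    omega
  · show -2 ≤ D.X2.dual.deg j + 1
    have := D.le_X2d j
    omega

theorem iW_hmg (S : Setup R p a) : IsHmg (free R (Fin 248) 0) (D.G S) 0 (iW R J) := by
  rintro ((i | i) | i) j h
  · exact absurd rfl h
  · rfl
  · rfl

theorem iP_cl (S : Setup R p a) : Cl D.X2.dual (D.G S) 1 (iP R J) := fib_inr (D.cl_jj S)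

theorem iP_inj (v : Unit ⊕ J → R) (h : iP R J *ᵥ v = 0) : v = 0 := by
  have h1 : (Matrix.fromCols (0 : Matrix (Unit ⊕ J) (Fin 248 ⊕ (Unit ⊕ J)) R)
      (1 : Matrix (Unit ⊕ J) (Unit ⊕ J) R)) * iP R J = 1 := by
    rw [iP, Matrix.fromCols_mul_fromRows]; simp
  have h2 := congrArg (fun v => (Matrix.fromCols
    (0 : Matrix (Unit ⊕ J) (Fin 248 ⊕ (Unit ⊕ J)) R) (1 : Matrix (Unit ⊕ J) (Unit ⊕ J) R)) *ᵥ v) h
  simp only [Matrix.mulVec_mulVec, h1, Matrix.one_mulVec, Matrix.mulVec_zero] at h2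
  exact h2

theorem G_d_iW (S : Setup R p a) : (D.G S).d * iW R J = iP R J * (D.uᵀ * kM R) := by
  show Matrix.fromBlocks D.JJ.d 0 (D.jj S) (-D.X2.dual.d) * Matrix.fromRows (Matrix.fromRows 1 0) 0
    = Matrix.fromRows 0 1 * (D.uᵀ * kM R)
  rw [Matrix.fromBlocks_mul_fromRows, Matrix.fromRows_mul]
  congr 1
  · show Matrix.fromBlocks 0 D.u 0 (-D.X2.d) * Matrix.fromRows 1 0 + _ = _
    rw [Matrix.fromBlocks_mul_fromRows]
    ext (i | i) j <;> simp
  · rw [CoreData.jj, Matrix.fromCols_mul_fromRows]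
    simp

theorem G_d_iX (S : Setup R p a) : (D.G S).d * iX R J =
    iW R J * D.u + iP R J * D.kap S - iX R J * D.X2.d := by
  show Matrix.fromBlocks D.JJ.d 0 (D.jj S) (-D.X2.dual.d) * Matrix.fromRows (Matrix.fromRows 0 1) 0
    = Matrix.fromRows (Matrix.fromRows 1 0) 0 * D.u + Matrix.fromRows 0 1 * D.kap S -
      Matrix.fromRows (Matrix.fromRows 0 1) 0 * D.X2.d
  rw [Matrix.fromBlocks_mul_fromRows, CoreData.jj]
  show Matrix.fromRows (Matrix.fromBlocks 0 D.u 0 (-D.X2.d) * Matrix.fromRows 0 1 + _) _ = _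
  rw [Matrix.fromBlocks_mul_fromRows, Matrix.fromCols_mul_fromRows]
  simp only [Matrix.fromRows_mul]
  ext ((i | i) | i) j <;> simp

theorem G_d_iP (S : Setup R p a) : (D.G S).d * iP R J = -(iP R J * D.X2.dual.d) :=
  (D.iP_cl S).comm1

/-- vectors which are, up to a scalar and modulo the image of `iP`, boundaries -/
def Gq (S : Setup R p a) : Submodule R (((Fin 248 ⊕ (Unit ⊕ J)) ⊕ (Unit ⊕ J)) → R) where
  carrier := {g | ∃ s : R, s ≠ 0 ∧ ∃ x, s • g - iP R J *ᵥ x ∈ (D.G S).B0}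
  add_mem' := by
    rintro g g' ⟨s, hs, x, h⟩ ⟨s', hs', x', h'⟩
    refine ⟨s' * s, mul_ne_zero hs' hs, s' • x + s • x', ?_⟩
    have h1 := add_mem ((D.G S).B0.smul_mem s' h) ((D.G S).B0.smul_mem s h')
    have h2 : (s' * s) • (g + g') - iP R J *ᵥ (s' • x + s • x') =
        s' • (s • g - iP R J *ᵥ x) + s • (s' • g' - iP R J *ᵥ x') := by
      rw [Matrix.mulVec_add, Matrix.mulVec_smul, Matrix.mulVec_smul]
      module
    rw [h2]
    exact h1
  zero_mem' := ⟨1, one_ne_zero, 0, by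
    rw [smul_zero, Matrix.mulVec_zero, sub_zero]; exact zero_mem _⟩
  smul_mem' := by
    rintro c g ⟨s, hs, x, h⟩
    refine ⟨s, hs, c • x, ?_⟩
    have h2 : s • c • g - iP R J *ᵥ (c • x) = c • (s • g - iP R J *ᵥ x) := by
      rw [Matrix.mulVec_smul]; module
    rw [h2]
    exact (D.G S).B0.smul_mem c h

variable {D} in
theorem Gq.of_smul {S : Setup R p a} {c : R} (hc : c ≠ 0) {g} (h : c • g ∈ D.Gq S) :
    g ∈ D.Gq S := by
  obtain ⟨s, hs, x, hx⟩ := h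
  exact ⟨s * c, mul_ne_zero hs hc, x, by rwa [mul_smul]⟩

variable {D} in
theorem Gq.of_BT {S : Setup R p a} {g} (h : g ∈ (D.G S).BT) : g ∈ D.Gq S := by
  obtain ⟨s, hs, h⟩ := h
  exact ⟨s, hs, 0, by rwa [Matrix.mulVec_zero, sub_zero]⟩

theorem iP_mem_Gq (S : Setup R p a) (x : Unit ⊕ J → R) : iP R J *ᵥ x ∈ D.Gq S :=
  ⟨1, one_ne_zero, x, by rw [one_smul, sub_self]; exact zero_mem _⟩

theorem iX_hmg (S : Setup R p a) : IsHmg D.X2 (D.G S) (-1) (iX R J) := by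
  rintro ((i | i) | i) j h
  · rfl
  · show (1 : Matrix (Unit ⊕ J) (Unit ⊕ J) R) i j = 0
    refine Matrix.one_apply_ne ?_
    rintro rfl
    exact h rfl
  · rfl

/-- `iW` maps `F¹` into `Gq` -/
theorem iW_u_mem (S : Setup R p a) {z : Unit ⊕ J → R} (hz : z ∈ D.X2.Z0) :
    iW R J *ᵥ (D.u *ᵥ z) ∈ D.Gq S := by
  refine ⟨1, one_ne_zero, -(D.kap S *ᵥ z), iX R J *ᵥ z, ?_, ?_⟩
  · have := Vh.mulVec (D.iX_hmg S) (show Vh D.X2 0 z from hz.1)
    exact this
  · rw [Matrix.mulVec_mulVec, D.G_d_iX S, Matrix.sub_mulVec, Matrix.add_mulVec,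
      ← Matrix.mulVec_mulVec, ← Matrix.mulVec_mulVec, ← Matrix.mulVec_mulVec, hz.2,
      Matrix.mulVec_zero, sub_zero, Matrix.mulVec_neg, one_smul, sub_neg_eq_add]

theorem iW_mem_Gq (S : Setup R p a) {x : Fin 248 → R} (hx : x ∈ F1 p) :
    iW R J *ᵥ x ∈ D.Gq S := by
  obtain ⟨y, hy, rfl⟩ := D.u_surj hx
  exact D.iW_u_mem S hy

theorem ue_X2d (i : Fin 6) : UE D.X2.dual (a i) := (D.ue_X2 i).dual

/-- a cocycle in `Gq` is a torsion boundary -/
theorem Gq.mem_BT {S : Setup R p a} {g} (hg : g ∈ (D.G S).Z0) (h : g ∈ D.Gq S) :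
    g ∈ (D.G S).BT := by
  obtain ⟨s, hs, x, hx⟩ := h
  refine ⟨s, hs, ?_⟩
  -- replace `x` by its part of degree `-1`
  set x' : Unit ⊕ J → R := fun j => if D.X2.dual.deg j = -1 then x j else 0 with hx'
  have hv : Vh D.X2.dual (-1) x' := fun j hj => by simp only [hx', if_neg hj]
  have h1 : iP R J *ᵥ x = iP R J *ᵥ x' := by
    have h2 : Vh (D.G S) 0 (iP R J *ᵥ x) := by
      have h3 : iP R J *ᵥ x = s • g - (s • g - iP R J *ᵥ x) := by abel
      rw [h3]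
      intro j hj
      rw [Pi.sub_apply, Pi.smul_apply, hg.1 j hj, (b0_le_z0 _ hx).1 j hj, smul_zero, sub_zero]
    have e0 : ∀ y : Unit ⊕ J → R, iP R J *ᵥ y =
        Sum.elim (0 : (Fin 248 ⊕ (Unit ⊕ J)) → R) y := by
      intro y
      rw [iP, Matrix.fromRows_mulVec, Matrix.zero_mulVec, Matrix.one_mulVec]
    funext i
    rcases i with i | i
    · rw [e0, e0]; rfl
    · have e1 : ∀ y : Unit ⊕ J → R, (iP R J *ᵥ y) (Sum.inr i) = y i := by
        intro y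
        rw [e0]; rfl
      rw [e1, e1]
      by_cases hi : D.X2.dual.deg i = -1
      · simp only [hx', if_pos hi]
      · have h4 := h2 (Sum.inr i) (by
          show D.X2.dual.deg i + 1 ≠ 0
          omega)
        rw [e1] at h4
        simp only [hx', if_neg hi, h4]
  have h2 : D.X2.dual.d *ᵥ x' = 0 := by
    apply iP_inj
    have h3 : (D.G S).d *ᵥ (iP R J *ᵥ x') = 0 := by
      rw [← h1]
      have h4 : iP R J *ᵥ x = s • g - (s • g - iP R J *ᵥ x) := by abel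
      rw [h4, Matrix.mulVec_sub, Matrix.mulVec_smul, hg.2, (b0_le_z0 _ hx).2, smul_zero, sub_zero]
    rw [Matrix.mulVec_mulVec, D.G_d_iP S, Matrix.neg_mulVec, neg_eq_zero,
      ← Matrix.mulVec_mulVec] at h3
    exact h3
  obtain ⟨N, hN⟩ := D.ue_X2d 0
  have ha0 : a 0 ^ N ≠ 0 := pow_ne_zero _ (S.ne 0)
  have h3 := d_inj_of_bot ha0 hN D.le_X2d hv h2
  rw [h1, h3, Matrix.mulVec_zero, sub_zero] at hx
  exact hx

/-- the class of `w ∈ F⁰`: there is a cocycle of `G` congruent to `c • iW w` modulo `iP` -/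
theorem iW_closed (S : Setup R p a) {c : R} {h : Matrix (Unit ⊕ J) (Unit ⊕ J) R}
    (hh : IsCon D.X2.dual c h) {w : Fin 248 → R} (hw : (D.uᵀ * kM R) *ᵥ w ∈ D.X2.dual.BT) :
    (c • iW R J + iP R J * h * (D.uᵀ * kM R)) *ᵥ w ∈ (D.G S).Z0 := by
  refine ⟨?_, ?_⟩
  · have h1 : IsHmg (free R (Fin 248) 0) (D.G S) 0
        (c • iW R J + iP R J * h * (D.uᵀ * kM R)) :=
      Hmg.add (Hmg.smul c (D.iW_hmg S))
        (Hmg.cast (Hmg.mul (Hmg.mul (D.iP_cl S).hmg hh.hmg) D.cl_ut.hmg) (by norm_num))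
    have h2 : Vh (free R (Fin 248) 0) 0 w := fun j hj => absurd rfl hj
    have := Vh.mulVec h1 h2
    exact this
  · have h1 := IsCon.d_h_of_BT hh D.le_X2d hw
    rw [Matrix.add_mulVec, Matrix.smul_mulVec, Matrix.mulVec_add, Matrix.mulVec_smul,
      Matrix.mulVec_mulVec w (D.G S).d, D.G_d_iW S, Matrix.mul_assoc (iP R J) h,
      ← Matrix.mulVec_mulVec w (iP R J) (h * _), Matrix.mulVec_mulVec _ (D.G S).d, D.G_d_iP S,
      Matrix.neg_mulVec, ← Matrix.mulVec_mulVec _ (iP R J) D.X2.dual.d,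
      ← Matrix.mulVec_mulVec w h, h1, ← Matrix.mulVec_mulVec w (iP R J), Matrix.mulVec_smul]
    abel

end CoreData

end LicciCore
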