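import Mathlib

section

/-!
# LICCI, codimension 6: the filtration defined by an extremal element

`b` an antisymmetric bracket with the Jacobi identity on a module `W` over a commutative ring `A`,
`k` an invariant symmetric nondegenerate form, `2` a nonzerodivisor, `p` an extremal element
(`[p, [p, y]] = - 2 (p, y) p`) and `w` ANY element such that `g = (p, w)` is a nonzerodivisor on `W`
and `p` is saturated: `g y = r p` implies that `y` is a multiple of `p`. (Both conditions are empty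
if `g = 1`.)

* `F0 = {z | [z, p] ∈ A p}`, `F1 = F0 ^ ⊥`, `Fm = p ^ ⊥`;
* `A p ⊆ F1 ⊆ F0 ⊆ Fm`, `[F0, F0] ⊆ F0`, `[F0, F1] ⊆ F1`, `[Fm, F1] ⊆ F0`, `[F1, F1] ⊆ A p`,
  `[p, Fm] ⊆ F1`, `[p, F1] = 0`, `F1 ^ ⊥ = F0`;
* `g [x, y] = om x y • p` on `F1`;
* the relations between `om` and `[[x', y], z]`, `x'` a lift of `x` (`[p, x'] = g x` modulo `p`),
  and the total symmetry of the quartic form.
-/

set_option autoImplicit false
set_option linter.unusedSectionVars false
set_option linter.unusedVariables false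

namespace Pool.Agent.Licci.KF

variable {A W : Type*} [CommRing A] [AddCommGroup W] [Module A W]

/-- a bracket with an invariant nondegenerate form -/
structure LieForm (A W : Type*) [CommRing A] [AddCommGroup W] [Module A W] where
  /-- the bracket -/
  b : W →ₗ[A] W →ₗ[A] W
  /-- the form -/
  k : W →ₗ[A] W →ₗ[A] A
  skew : ∀ x y, b x y = - b y x
  jac : ∀ x y z, b x (b y z) = b (b x y) z + b y (b x z)
  symm : ∀ x y, k x y = k y x
  inv : ∀ x y z, k (b x y) z = k x (b y z)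
  nd : ∀ x, (∀ y, k x y = 0) → x = 0
  two : ∀ x : W, (2 : A) • x = 0 → x = 0

namespace LieForm

variable (L : LieForm A W)

theorem self (x : W) : L.b x x = 0 := by
  apply L.two
  rw [two_smul]
  nth_rewrite 1 [L.skew x x]
  exact neg_add_cancel _

/-- Jacobi identity, second form -/
theorem jac' (x y z : W) : L.b (L.b x y) z = L.b x (L.b y z) - L.b y (L.b x z) := by
  rw [L.jac x y z, add_sub_cancel_right]

/-- invariance, second form -/
theorem inv' (x y z : W) : L.k (L.b x y) z = - L.k y (L.b x z) := by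
  rw [L.skew x y, map_neg, LinearMap.neg_apply, L.inv]

/-- extremal elements -/
def Cone (p : W) : Prop := ∀ y, L.b p (L.b p y) = (-(2 * L.k p y)) • p

/-- the stabilizer of the line of `p` -/
def F0 (p : W) : Submodule A W where
  carrier := {z | ∃ c : A, L.b z p = c • p}
  zero_mem' := ⟨0, by rw [map_zero, LinearMap.zero_apply, zero_smul]⟩
  add_mem' := by
    rintro x y ⟨c, hc⟩ ⟨d, hd⟩
    exact ⟨c + d, by rw [map_add, LinearMap.add_apply, hc, hd, add_smul]⟩
  smul_mem' := by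
    rintro a x ⟨c, hc⟩
    exact ⟨a * c, by rw [map_smul, LinearMap.smul_apply, hc, smul_smul]⟩

/-- the orthogonal complement of `F0` -/
def F1 (p : W) : Submodule A W where
  carrier := {x | ∀ z ∈ L.F0 p, L.k x z = 0}
  zero_mem' := fun z _ => by rw [map_zero, LinearMap.zero_apply]
  add_mem' := by
    intro x y hx hy z hz
    rw [map_add, LinearMap.add_apply, hx z hz, hy z hz, add_zero]
  smul_mem' := by
    intro a x hx z hz
    rw [map_smul, LinearMap.smul_apply, hx z hz, smul_zero]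

/-- the orthogonal complement of `p` -/
def Fm (p : W) : Submodule A W := LinearMap.ker (L.k p)

variable {L} {p : W}

theorem mem_F0 {z : W} : z ∈ L.F0 p ↔ ∃ c : A, L.b z p = c • p := Iff.rfl

theorem mem_F1 {x : W} : x ∈ L.F1 p ↔ ∀ z ∈ L.F0 p, L.k x z = 0 := Iff.rfl

theorem mem_Fm {y : W} : y ∈ L.Fm p ↔ L.k p y = 0 := LinearMap.mem_ker

theorem F0_mul {z z' : W} (hz : z ∈ L.F0 p) (hz' : z' ∈ L.F0 p) : L.b z z' ∈ L.F0 p := by
  obtain ⟨c, hc⟩ := hz
  obtain ⟨c', hc'⟩ := hz'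
  refine ⟨0, ?_⟩
  rw [L.jac', hc, hc', map_smul, map_smul, hc, hc', smul_smul, smul_smul, mul_comm, sub_self,
    zero_smul]

theorem F0_F1 {z x : W} (hz : z ∈ L.F0 p) (hx : x ∈ L.F1 p) : L.b z x ∈ L.F1 p := by
  intro z' hz'
  rw [L.inv', hx _ (F0_mul hz hz'), neg_zero]

end LieForm

open LieForm

/-- a saturated extremal element `p` and any element `w` such that `(p, w)` is a
nonzerodivisor -/
structure Pt (L : LieForm A W) (p w : W) : Prop where
  cone : L.Cone p
  reg : ∀ y : W, (L.k p w) • y = 0 → y = 0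
  regA : ∀ c : A, (L.k p w) * c = 0 → c = 0
  sat : ∀ (y : W) (r : A), (L.k p w) • y = r • p → ∃ r' : A, y = r' • p

namespace Pt

variable {L : LieForm A W} {p w : W} (P : Pt L p w)

include P

theorem smul_zero' {c : A} (h : c • p = 0) : c = 0 := by
  have h1 := congrArg (fun v => L.k v w) h
  simp only [map_smul, LinearMap.smul_apply, map_zero, LinearMap.zero_apply, smul_eq_mul] at h1
  exact P.regA c (by rw [mul_comm]; exact h1)

theorem smul_eq {c d : A} (h : c • p = d • p) : c = d := by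
  rw [← sub_eq_zero]
  exact P.smul_zero' (by rw [sub_smul, h, sub_self])

theorem cancel {x y : W} (h : (L.k p w) • x = (L.k p w) • y) : x = y := by
  rw [← sub_eq_zero]
  exact P.reg _ (by rw [smul_sub, h, sub_self])

theorem cancelA {x y : A} (h : (L.k p w) * x = (L.k p w) * y) : x = y := by
  rw [← sub_eq_zero]
  exact P.regA _ (by rw [mul_sub, h, sub_self])

theorem adp_p (u : W) : L.b (L.b p u) p = (2 * L.k p u) • p := by
  rw [L.skew, P.cone, neg_smul, neg_neg]

theorem br_mem_F0 (u : W) : L.b p u ∈ L.F0 p := ⟨_, P.adp_p u⟩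

theorem F0_le_Fm {z : W} (hz : z ∈ L.F0 p) : L.k p z = 0 := by
  obtain ⟨c, hc⟩ := hz
  have h1 := P.cone z
  rw [L.skew p z, hc, map_neg, map_smul, L.self, smul_zero, neg_zero] at h1
  apply P.smul_zero'
  apply L.two
  rw [neg_smul, eq_comm, neg_eq_zero] at h1
  rw [smul_smul, h1]

theorem p_mem_F1 : p ∈ L.F1 p := fun _ hz => P.F0_le_Fm hz

theorem p_mem_F0 : p ∈ L.F0 p := ⟨0, by rw [L.self, zero_smul]⟩

theorem k_self : L.k p p = 0 := P.F0_le_Fm P.p_mem_F0

/-- `[p, Fm] ⊆ F1` -/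
theorem br_mem_F1 {y : W} (hy : L.k p y = 0) : L.b p y ∈ L.F1 p := by
  rintro z ⟨c, hc⟩
  rw [L.inv', L.skew, hc, map_neg, map_smul, L.symm y p, hy, smul_zero, neg_zero, neg_zero]

/-- an element orthogonal to `Fm` is a multiple of `p` -/
theorem eq_smul' {v : W} (hv : ∀ y, L.k p y = 0 → L.k v y = 0) :
    (L.k p w) • v = (L.k v w) • p := by
  rw [← sub_eq_zero]
  apply L.nd
  intro y
  have h1 : L.k v ((L.k p w) • y - (L.k p y) • w) = 0 := by
    apply hv
    rw [map_sub, map_smul, map_smul, smul_eq_mul, smul_eq_mul, mul_comm, sub_self]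
  rw [map_sub, map_smul, map_smul, smul_eq_mul, smul_eq_mul] at h1
  rw [map_sub, LinearMap.sub_apply, map_smul, map_smul, LinearMap.smul_apply,
    LinearMap.smul_apply, smul_eq_mul, smul_eq_mul, ← h1]
  ring

theorem eq_smul {v : W} (hv : ∀ y, L.k p y = 0 → L.k v y = 0) : ∃ c : A, v = c • p :=
  P.sat _ _ (P.eq_smul' hv)

/-- `[p, F1] = 0` -/
theorem p_F1 {x : W} (hx : x ∈ L.F1 p) : L.b p x = 0 := by
  apply L.nd
  intro u
  rw [L.inv', hx _ (P.br_mem_F0 u), neg_zero]

theorem F1_p {x : W} (hx : x ∈ L.F1 p) : L.b x p = 0 := by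
  rw [L.skew, P.p_F1 hx, neg_zero]

theorem F1_le_F0 {x : W} (hx : x ∈ L.F1 p) : x ∈ L.F0 p := ⟨0, by rw [P.F1_p hx, zero_smul]⟩

/-- `[[p, u], [p, u']]` for `u, u' ∈ Fm` -/
theorem br_br {u u' : W} (hu : L.k p u = 0) (hu' : L.k p u' = 0) :
    L.b (L.b p u) (L.b p u') = (-(L.k p (L.b u u'))) • p := by
  have h1 : L.b p (L.b p (L.b u u')) =
      L.b (L.b p (L.b p u)) u' + (2 : A) • L.b (L.b p u) (L.b p u') +
        L.b u (L.b p (L.b p u')) := by
    rw [L.jac p u u', map_add, L.jac p (L.b p u) u', L.jac p u (L.b p u'), two_smul]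
    abel
  rw [P.cone, P.cone, P.cone, hu, hu', mul_zero, neg_zero, zero_smul, map_zero, map_zero,
    LinearMap.zero_apply, zero_add, add_zero] at h1
  have h2 : (2 : A) • (L.b (L.b p u) (L.b p u') - (-(L.k p (L.b u u'))) • p) = 0 := by
    rw [smul_sub, ← h1, smul_smul, ← sub_smul]
    ring_nf
    rw [zero_smul]
  exact sub_eq_zero.1 (L.two _ h2)

/-- `[h, [p, y]] = g [p, y]` modulo `p`, `h = [p, e]`, `y ∈ Fm` -/
theorem h_br (e : W) {y : W} (hy : L.k p y = 0) :
    L.b (L.b p e) (L.b p y) = (L.k p e) • L.b p y - (L.k p (L.b e y)) • p := by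
  have h1 : L.b p (L.b p (L.b e y)) =
      L.b (L.b p (L.b p e)) y + (2 : A) • L.b (L.b p e) (L.b p y) +
        L.b e (L.b p (L.b p y)) := by
    rw [L.jac p e y, map_add, L.jac p (L.b p e) y, L.jac p e (L.b p y), two_smul]
    abel
  rw [P.cone, P.cone, P.cone, hy, mul_zero, neg_zero, zero_smul, map_zero, add_zero,
    map_smul, LinearMap.smul_apply] at h1
  have h2 : (2 : A) • (L.b (L.b p e) (L.b p y) -
      ((L.k p e) • L.b p y - (L.k p (L.b e y)) • p)) = 0 := by
    have h3 : (2 : A) • L.b (L.b p e) (L.b p y) =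
        (-(2 * L.k p (L.b e y))) • p + (2 * L.k p e) • L.b p y := by
      rw [h1, neg_smul (2 * L.k p e)]
      abel
    rw [smul_sub, h3, smul_sub, smul_smul, smul_smul, neg_smul]
    abel
  exact sub_eq_zero.1 (L.two _ h2)

/-- `[[p, y], e] = - g y` modulo `F0`, `g = (p, e)`, `y ∈ Fm` -/
theorem lift_br (e : W) {y : W} (hy : L.k p y = 0) :
    L.b (L.b p y) e + (L.k p e) • y ∈ L.F0 p := by
  have hyy : L.b (L.b p y) p = 0 := by
    rw [P.adp_p, hy, mul_zero, zero_smul]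
  refine ⟨-(L.k p (L.b e y)), ?_⟩
  rw [map_add, LinearMap.add_apply, L.jac', hyy, map_zero, sub_zero, L.skew e p, map_neg,
    L.skew (L.b p y) (L.b p e), neg_neg, P.h_br e hy, map_smul, LinearMap.smul_apply, L.skew y p,
    neg_smul, smul_neg]
  abel

/-- `[e, [p, y]] = g y` modulo `F0`, `g = (p, e)`, `y ∈ Fm` -/
theorem lift_br' (e : W) {y : W} (hy : L.k p y = 0) :
    ∃ v ∈ L.F0 p, L.b e (L.b p y) = (L.k p e) • y + v := by
  refine ⟨_, (L.F0 p).neg_mem (P.lift_br e hy), ?_⟩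
  rw [L.skew e]
  abel

/-- `[x, [p, y]] = - (x, y) p` for `x ∈ F1`, `y ∈ Fm` -/
theorem mix {x y : W} (hx : x ∈ L.F1 p) (hy : L.k p y = 0) :
    L.b x (L.b p y) = (-(L.k x y)) • p := by
  have hyy : L.b (L.b p y) p = 0 := by
    rw [P.adp_p, hy, mul_zero, zero_smul]
  have h1 : ∀ y', L.k p y' = 0 → L.k (L.b x (L.b p y)) y' = 0 := by
    intro y' hy'
    rw [L.inv]
    apply hx
    refine ⟨L.k p (L.b y y'), ?_⟩
    rw [L.jac', hyy, map_zero, sub_zero, L.skew y' p, map_neg, P.br_br hy hy', neg_smul, neg_neg]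
  have h3 : L.k (L.b x (L.b p y)) w = (L.k p w) * (- L.k x y) := by
    rw [L.inv]
    have h4 := hx _ (P.lift_br w hy)
    rw [map_add, map_smul, smul_eq_mul] at h4
    rw [eq_neg_of_add_eq_zero_left h4]
    ring
  apply P.cancel
  rw [P.eq_smul' h1, h3, smul_smul]

/-- `[p, [e, x]] = g x` modulo `p`, for `x ∈ F1`, `g = (p, e)` -/
theorem lift_eq {x : W} (hx : x ∈ L.F1 p) (e : W) :
    ∃ c : A, L.b p (L.b e x) = (L.k p e) • x + c • p := by
  obtain ⟨c, hc⟩ := P.eq_smul (v := L.b p (L.b e x) - (L.k p e) • x) (by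
    intro y' hy'
    rw [map_sub, LinearMap.sub_apply, map_smul, LinearMap.smul_apply, L.inv', L.inv,
      P.mix hx hy', map_smul, L.symm e p, smul_eq_mul, smul_eq_mul]
    ring)
  exact ⟨c, by rw [← hc]; abel⟩

/-- sharp form: `[p, [e, x]] = (p, e) x + (x, e) p` for `x ∈ F1` -/
theorem lift_eq_sharp {x : W} (hx : x ∈ L.F1 p) (e : W) :
    L.b p (L.b e x) = (L.k p e) • x + (L.k x e) • p := by
  -- for `[p, y]`
  have h1 : ∀ y, L.k p y = 0 → L.b p (L.b e (L.b p y)) =
      (L.k p e) • L.b p y + (L.k (L.b p y) e) • p := by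
    intro y hy
    rw [L.jac p e, P.cone, hy, mul_zero, neg_zero, zero_smul, map_zero, add_zero, P.h_br e hy,
      L.inv p y e, L.skew y e, map_neg, neg_smul]
    abel
  have h2 : L.b p (L.b e p) = (L.k p e) • p + (L.k p e) • p := by
    rw [L.skew e p, map_neg, P.cone, neg_smul, neg_neg, two_mul, add_smul]
  obtain ⟨c, hc⟩ := P.lift_eq hx w
  have h3 := h1 (L.b w x) (by rw [L.symm, L.inv, P.F1_p hx, map_zero])
  rw [hc] at h3
  simp only [map_add, map_smul, LinearMap.add_apply, LinearMap.smul_apply, smul_eq_mul, h2] at h3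
  apply P.cancel
  have h4 : (L.k p w) • L.b p (L.b e x) = ((L.k p e) • ((L.k p w) • x + c • p) +
      ((L.k p w) * (L.k x e) + c * (L.k p e)) • p) - c • ((L.k p e) • p + (L.k p e) • p) := by
    rw [← h3]
    abel
  rw [h4]
  module

/-- `[e, x] ∈ Fm` for `x ∈ F1` and all `e` -/
theorem lift_mem {x : W} (hx : x ∈ L.F1 p) (e : W) : L.k p (L.b e x) = 0 := by
  rw [L.symm, L.inv, P.F1_p hx, map_zero]

/-- `[F1, F1] ⊆ A p` -/
theorem F1_F1 {x y : W} (hx : x ∈ L.F1 p) (hy : y ∈ L.F1 p) : ∃ c : A, L.b x y = c • p := by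
  obtain ⟨c, hc⟩ := P.lift_eq hy w
  refine P.sat _ (-(L.k x (L.b w y))) ?_
  have h1 := P.mix hx (P.lift_mem hy w)
  rw [hc, map_add, map_smul, map_smul, P.F1_p hx, smul_zero, add_zero] at h1
  exact h1

/-- `F1` is isotropic -/
theorem k_F1 {x y : W} (hx : x ∈ L.F1 p) (hy : y ∈ L.F1 p) : L.k x y = 0 := hx _ (P.F1_le_F0 hy)

/-- lifts: `x' ∈ Fm`, `[p, x'] = g x` modulo `p` -/
def IsLift (_P : Pt L p w) (x' x : W) : Prop :=
  L.k p x' = 0 ∧ ∃ c : A, L.b p x' = (L.k p w) • x + c • p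

theorem isLift {x : W} (hx : x ∈ L.F1 p) : P.IsLift (L.b w x) x := by
  obtain ⟨c, hc⟩ := P.lift_eq hx w
  exact ⟨P.lift_mem hx w, c, hc⟩

end Pt

variable (L : LieForm A W) (w : W) in
/-- the alternating form (`g` times the form with `[x, y] = om x y • p`) -/
def om : W →ₗ[A] W →ₗ[A] A := L.b.compr₂ (L.k.flip w)

namespace Pt

variable {L : LieForm A W} {p w : W} (P : Pt L p w)

theorem om_apply (x y : W) : om L w x y = L.k (L.b x y) w := rfl

theorem om_skew (x y : W) : om L w x y = - om L w y x := by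
  rw [om_apply, om_apply, L.skew, map_neg, LinearMap.neg_apply]

theorem om_self (x : W) : om L w x x = 0 := by
  rw [om_apply, L.self, map_zero, LinearMap.zero_apply]

/-- if `[x, y] = c p` then `om x y = g c` -/
theorem om_of {x y : W} {c : A} (h : L.b x y = c • p) : om L w x y = (L.k p w) * c := by
  rw [om_apply, h, map_smul, LinearMap.smul_apply, smul_eq_mul, mul_comm]

include P

/-- `g [x, y] = om x y • p` on `F1` -/
theorem br_F1 {x y : W} (hx : x ∈ L.F1 p) (hy : y ∈ L.F1 p) :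
    (L.k p w) • L.b x y = (om L w x y) • p := by
  obtain ⟨c, hc⟩ := P.F1_F1 hx hy
  rw [om_of hc, hc, smul_smul]

theorem om_p_left {x : W} (hx : x ∈ L.F1 p) : om L w p x = 0 := by
  rw [om_apply, P.p_F1 hx, map_zero, LinearMap.zero_apply]

theorem om_p_right {x : W} (hx : x ∈ L.F1 p) : om L w x p = 0 := by
  rw [om_skew, P.om_p_left hx, neg_zero]

/-- `[[p, y], x] = (y, x) p` for `y ∈ Fm`, `x ∈ F1` -/
theorem mix' {x y : W} (hx : x ∈ L.F1 p) (hy : L.k p y = 0) :
    L.b (L.b p y) x = (L.k y x) • p := by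
  rw [L.skew, P.mix hx hy, neg_smul, neg_neg, L.symm]

/-- `(x', y) = om x y` for a lift `x'` of `x` -/
theorem k_lift {x x' y : W} (h : P.IsLift x' x) (hy : y ∈ L.F1 p) :
    L.k x' y = om L w x y := by
  obtain ⟨h1, c, hc⟩ := h
  have h2 := P.mix' hy h1
  rw [hc, map_add, map_smul, map_smul, LinearMap.add_apply, LinearMap.smul_apply,
    LinearMap.smul_apply, P.p_F1 hy, smul_zero, add_zero] at h2
  have h3 := congrArg (fun v => L.k v w) h2
  simp only [map_smul, LinearMap.smul_apply, smul_eq_mul] at h3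
  apply P.cancelA
  rw [om_apply, h3, mul_comm]

/-- the form is nondegenerate on `F1 / A p` -/
theorem om_nondeg {x : W} (hx : x ∈ L.F1 p) (h : ∀ y ∈ L.F1 p, L.b x y = 0) :
    ∃ c : A, x = c • p := by
  refine P.eq_smul fun y hy => ?_
  have h1 := h _ (P.br_mem_F1 hy)
  rw [P.mix hx hy] at h1
  exact neg_eq_zero.1 (P.smul_zero' h1)

/-- an element orthogonal to `F1` is in `F0` -/
theorem mem_F0_of_orth {y : W} (h : ∀ x ∈ L.F1 p, L.k y x = 0) : y ∈ L.F0 p := by
  refine P.eq_smul fun u hu => ?_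
  rw [L.inv, h _ (P.br_mem_F1 hu)]

/-- `[[y, x], p] = - (y, x) p` for `y ∈ Fm`, `x ∈ F1` -/
theorem Fm_F1_p {x y : W} (hy : L.k p y = 0) (hx : x ∈ L.F1 p) :
    L.b (L.b y x) p = (-(L.k y x)) • p := by
  rw [L.jac', P.F1_p hx, map_zero, zero_sub, L.skew y p, map_neg, neg_neg, P.mix hx hy, L.symm]

/-- `[Fm, F1] ⊆ F0` -/
theorem Fm_F1 {x y : W} (hy : L.k p y = 0) (hx : x ∈ L.F1 p) : L.b y x ∈ L.F0 p :=
  ⟨_, P.Fm_F1_p hy hx⟩

/-- relation (1) -/
theorem lift_p {x x' y : W} (h : P.IsLift x' x) (hy : y ∈ L.F1 p) :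
    L.b (L.b x' y) p = (-(om L w x y)) • p := by
  rw [P.Fm_F1_p h.1 hy, P.k_lift h hy]

theorem lift_F0 {x x' y : W} (h : P.IsLift x' x) (hy : y ∈ L.F1 p) : L.b x' y ∈ L.F0 p :=
  P.Fm_F1 h.1 hy

/-- two lifts differ by an element of `F0` -/
theorem lift_sub {x x' x'' : W} (h : P.IsLift x' x) (h' : P.IsLift x'' x) :
    x' - x'' ∈ L.F0 p := by
  obtain ⟨-, c, hc⟩ := h
  obtain ⟨-, d, hd⟩ := h'
  refine ⟨d - c, ?_⟩
  rw [L.skew, map_sub, hc, hd, sub_smul]
  abel

/-- the class of `[x', y]` modulo `F1` does not depend on the lift -/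
theorem lift_sub_F1 {x x' x'' y : W} (h : P.IsLift x' x) (h' : P.IsLift x'' x)
    (hy : y ∈ L.F1 p) : L.b x' y - L.b x'' y ∈ L.F1 p := by
  rw [← LinearMap.sub_apply, ← map_sub]
  exact F0_F1 (P.lift_sub h h') hy

/-- an element `z` of `F0` with `[z, p] = c p` -/
theorem om_F0 {z x y : W} {c : A} (hz : L.b z p = c • p) (hx : x ∈ L.F1 p) (hy : y ∈ L.F1 p) :
    om L w (L.b z x) y + om L w x (L.b z y) = c * om L w x y := by
  obtain ⟨d, hd⟩ := P.F1_F1 hx hy
  have h1 := L.jac z x y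
  rw [hd, map_smul, hz, smul_smul] at h1
  have h2 : L.b (L.b z x) y + L.b x (L.b z y) = (d * c) • p := h1.symm
  have h3 := congrArg (fun v => L.k v w) h2
  simp only [map_add, LinearMap.add_apply, map_smul, LinearMap.smul_apply, smul_eq_mul] at h3
  rw [om_apply, om_apply, h3, om_of hd]
  ring

/-- `[[p, v], z] = (p, v) z` modulo `p` for `z ∈ F1`: the elements `[p, v]` act by scalars -/
theorem br_act (v : W) {z : W} (hz : z ∈ L.F1 p) :
    ∃ c : A, L.b (L.b p v) z = (L.k p v) • z + c • p := by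
  obtain ⟨c, hc⟩ := P.lift_eq hz v
  refine ⟨c, ?_⟩
  rw [L.jac', P.p_F1 hz, map_zero, sub_zero, hc]

/-- `g ([x', y] - [y', x]) = [p, v]` modulo `g F1`, where `v = [x', y']` has
`(p, v) = - g om x y` -/
theorem swap_eq {x x' y y' : W} (hx : P.IsLift x' x) (hy : P.IsLift y' y) (hx1 : x ∈ L.F1 p)
    (hy1 : y ∈ L.F1 p) :
    ∃ c d : A, (L.k p w) • (L.b x' y - L.b y' x) =
        L.b p (L.b x' y') + (L.k p w) • (c • x + d • y) ∧
      L.k p (L.b x' y') = - ((L.k p w) * om L w x y) := by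
  have hx0 := hx
  have hy0 := hy
  obtain ⟨hxm, c, hc⟩ := hx
  obtain ⟨hym, d, hd⟩ := hy
  refine ⟨d, -c, ?_, ?_⟩
  · rw [L.jac p x' y']
    simp only [hc, hd, map_add, LinearMap.add_apply, map_smul, LinearMap.smul_apply, L.skew x' p,
      L.skew x y']
    module
  · rw [← L.inv, hc, map_add, map_smul, map_smul, LinearMap.add_apply, LinearMap.smul_apply,
      LinearMap.smul_apply, hym, smul_zero, add_zero, L.symm x, P.k_lift hy0 hx1, om_skew,
      smul_eq_mul, mul_neg]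

/-- relation (2), first exchange -/
theorem rel_swap {x x' y y' z : W} (hx : P.IsLift x' x) (hy : P.IsLift y' y) (hx1 : x ∈ L.F1 p)
    (hy1 : y ∈ L.F1 p) (hz : z ∈ L.F1 p) :
    ∃ c : A, L.b (L.b x' y) z - L.b (L.b y' x) z = (-(om L w x y)) • z + c • p := by
  obtain ⟨c, d, h1, h2⟩ := P.swap_eq hx hy hx1 hy1
  obtain ⟨e, he⟩ := P.br_act (L.b x' y') hz
  obtain ⟨r, hr⟩ := P.F1_F1 hx1 hz
  obtain ⟨s, hs⟩ := P.F1_F1 hy1 hz
  have h3 := congrArg (fun v => L.b v z) h1
  simp only [map_add, LinearMap.add_apply, map_smul, LinearMap.smul_apply, he, h2, hr, hs,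
    map_sub, LinearMap.sub_apply] at h3
  obtain ⟨t, ht⟩ := P.sat (L.b (L.b x' y) z - L.b (L.b y' x) z - (-(om L w x y)) • z)
    (e + (L.k p w) * (c * r + d * s)) (by
      rw [smul_sub, h3]
      module)
  exact ⟨t, by rw [← ht]; abel⟩

/-- relation (2), second exchange -/
theorem rel_jac {x x' y z : W} (hx : P.IsLift x' x) (hy1 : y ∈ L.F1 p) (hz : z ∈ L.F1 p) :
    ∃ c : A, L.b (L.b x' y) z - L.b (L.b x' z) y = (-(om L w y z)) • x + c • p := by
  obtain ⟨hxm, c, hc⟩ := hx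
  obtain ⟨d, hd⟩ := P.F1_F1 hy1 hz
  refine ⟨-(d * c), ?_⟩
  rw [L.jac' x' y z, L.skew (L.b x' z) y, sub_neg_eq_add, sub_add_cancel, hd, map_smul,
    L.skew x' p, hc, smul_neg, smul_add, smul_smul, smul_smul, om_of hd, neg_smul, neg_smul,
    neg_add, mul_comm d]

/-- relation (2), third exchange -/
theorem rel_om {x x' y z u : W} (hx : P.IsLift x' x) (hy1 : y ∈ L.F1 p)
    (hz : z ∈ L.F1 p) (hu : u ∈ L.F1 p) :
    om L w (L.b (L.b x' y) z) u + om L w z (L.b (L.b x' y) u) = -(om L w x y * om L w z u) := by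
  rw [P.om_F0 (P.lift_p hx hy1) hz hu, neg_mul]

/-- `Q (x, y, z, u) = om ([[x', y], z], u)` does not depend on the lift -/
theorem Q_lift {x x' x'' y z u : W} (h : P.IsLift x' x) (h' : P.IsLift x'' x)
    (hy : y ∈ L.F1 p) (hz : z ∈ L.F1 p) (hu : u ∈ L.F1 p) :
    om L w (L.b (L.b x' y) z) u = om L w (L.b (L.b x'' y) z) u := by
  obtain ⟨c, hc⟩ := P.F1_F1 (P.lift_sub_F1 h h' hy) hz
  rw [← sub_eq_zero, ← LinearMap.sub_apply, ← map_sub, ← LinearMap.sub_apply, ← map_sub,
    hc, map_smul, LinearMap.smul_apply, P.om_p_left hu, smul_zero]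

end Pt

/-- the quartic form of note 5972 (times `g ^ 2`) -/
def quart (L : LieForm A W) (w x y z u : W) : A :=
  -(2 * om L w (L.b (L.b (L.b w x) y) z) u) - om L w x y * om L w z u -
    om L w x z * om L w y u - om L w y z * om L w x u

namespace Pt

variable {L : LieForm A W} {p w : W} (P : Pt L p w)

include P

/-- (3) exchange of the last two arguments -/
theorem quart_34 {x y z u : W} (hx : x ∈ L.F1 p) (hy : y ∈ L.F1 p) (hz : z ∈ L.F1 p)
    (hu : u ∈ L.F1 p) : quart L w x y z u = quart L w x y u z := by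
  have h1 := P.rel_om (P.isLift hx) hy hz hu
  have h2 : om L w z (L.b (L.b (L.b w x) y) u) = - om L w (L.b (L.b (L.b w x) y) u) z :=
    om_skew _ _
  have h3 : om L w u z = - om L w z u := om_skew _ _
  unfold quart
  rw [h2] at h1
  rw [h3]
  linear_combination (-2) * h1

/-- (3) exchange of the middle arguments -/
theorem quart_23 {x y z u : W} (hx : x ∈ L.F1 p) (hy : y ∈ L.F1 p) (hz : z ∈ L.F1 p)
    (hu : u ∈ L.F1 p) : quart L w x y z u = quart L w x z y u := by
  obtain ⟨c, hc⟩ := P.rel_jac (P.isLift hx) hy hz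
  have h1 := congrArg (fun v => om L w v u) hc
  simp only [map_sub, map_add, map_smul, LinearMap.sub_apply, LinearMap.add_apply,
    LinearMap.smul_apply, smul_eq_mul, P.om_p_left hu, mul_zero, add_zero] at h1
  have h3 : om L w z y = - om L w y z := om_skew _ _
  unfold quart
  rw [h3]
  linear_combination (-2) * h1

/-- (3) exchange of the first two arguments -/
theorem quart_12 {x y z u : W} (hx : x ∈ L.F1 p) (hy : y ∈ L.F1 p) (hz : z ∈ L.F1 p)
    (hu : u ∈ L.F1 p) : quart L w x y z u = quart L w y x z u := by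
  obtain ⟨c, hc⟩ := P.rel_swap (P.isLift hx) (P.isLift hy) hx hy hz
  have h1 := congrArg (fun v => om L w v u) hc
  simp only [map_sub, map_add, map_smul, LinearMap.sub_apply, LinearMap.add_apply,
    LinearMap.smul_apply, smul_eq_mul, P.om_p_left hu, mul_zero, add_zero] at h1
  have h3 : om L w y x = - om L w x y := om_skew _ _
  unfold quart
  rw [h3]
  linear_combination (-2) * h1

/-- representability: a form on `F1` which vanishes at `p` is `(y, .)` with `y ∈ Fm` -/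
theorem exists_rep (perf : ∀ l : W →ₗ[A] A, ∃ y, ∀ x, L.k y x = l x) (c : A) (π : W →ₗ[A] W)
    (hπ1 : ∀ v, π v ∈ L.F1 p) (hπ : ∀ x ∈ L.F1 p, π x = c • x) (l : L.F1 p →ₗ[A] A)
    (hl : l ⟨p, P.p_mem_F1⟩ = 0) :
    ∃ y, L.k p y = 0 ∧ ∀ x : L.F1 p, L.k y x = c * l x := by
  obtain ⟨y, hy⟩ := perf (l ∘ₗ (π.codRestrict (L.F1 p) hπ1))
  have h1 : ∀ x : L.F1 p, L.k y x = c * l x := by
    intro x
    rw [hy]
    change l _ = c * l x
    rw [← smul_eq_mul, ← map_smul]
    congr 1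
    exact Subtype.ext (hπ _ x.2)
  refine ⟨y, ?_, h1⟩
  rw [L.symm]
  exact (h1 ⟨p, P.p_mem_F1⟩).trans (by rw [hl, mul_zero])

end Pt

/-- representability over a field -/
theorem exists_rep_field {K V : Type*} [Field K] [AddCommGroup V] [Module K V]
    [FiniteDimensional K V] {L : LieForm K V} {p w : V} (P : Pt L p w) (l : L.F1 p →ₗ[K] K)
    (hl : l ⟨p, P.p_mem_F1⟩ = 0) :
    ∃ y, L.k p y = 0 ∧ ∀ x : L.F1 p, L.k y x = l x := by
  have perf : ∀ l : V →ₗ[K] K, ∃ y, ∀ x, L.k y x = l x := by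
    have hinj : Function.Injective L.k := by
      rw [injective_iff_map_eq_zero]
      intro x hx
      exact L.nd x fun y => by rw [hx, LinearMap.zero_apply]
    have hdim : Module.finrank K V = Module.finrank K (V →ₗ[K] K) :=
      (Subspace.dual_finrank_eq (K := K) (V := V)).symm
    have hsurj : Function.Surjective L.k :=
      (LinearMap.injective_iff_surjective_of_finrank_eq_finrank hdim).1 hinj
    intro l
    obtain ⟨y, hy⟩ := hsurj l
    exact ⟨y, fun x => by rw [hy]⟩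
  obtain ⟨π', hπ'⟩ := (L.F1 p).subtype.exists_leftInverse_of_injective
    (LinearMap.ker_eq_bot.2 Subtype.val_injective)
  obtain ⟨y, h1, h2⟩ := P.exists_rep perf 1 ((L.F1 p).subtype ∘ₗ π') (fun v => (π' v).2)
    (fun x hx => by
      have h1 := LinearMap.congr_fun hπ' ⟨x, hx⟩
      change ((π' x : L.F1 p) : V) = (1 : K) • x
      have h2 : π' x = ⟨x, hx⟩ := h1
      rw [h2, one_smul]) l hl
  exact ⟨y, h1, fun x => by rw [h2, one_mul]⟩

end Pool.Agent.Licci.KF

end

section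

/-!
# Finite free complexes as matrices

A complex is a finite index type `J` with a degree function `deg : J → ℤ` and a square zero
matrix `d` which is homogeneous of degree one.  Maps are matrices, chain maps of degree `n` are
the matrices `f` homogeneous of degree `n` with `d f = (-1) ^ n f d`, homotopies are matrices of
degree `n - 1`.  The Hom complex `Hom K L` is `L ⊗ K^∨`, and `Matrix` and vectors of `Hom K L` are
identified by currying.
-/

set_option autoImplicit false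
set_option linter.unusedSectionVars false

open Matrix Kronecker

namespace LicciCx

variable {R : Type*} [CommRing R]

/-- the sign `(-1) ^ n` as an integer -/
def sg (n : ℤ) : ℤ := (n.negOnePow : ℤ)

theorem sg_zero : sg 0 = 1 := by simp [sg]

theorem sg_add (m n : ℤ) : sg (m + n) = sg m * sg n := by
  simp [sg, Int.negOnePow_add]

theorem sg_neg (n : ℤ) : sg (-n) = sg n := by
  simp [sg, Int.negOnePow_neg]

theorem sg_mul_self (n : ℤ) : sg n * sg n = 1 := by
  rw [← sg_add, ← two_mul]; simp [sg]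

theorem sg_one : sg 1 = -1 := by simp [sg]

theorem sg_sub (m n : ℤ) : sg (m - n) = sg m * sg n := by
  rw [sub_eq_add_neg, sg_add, sg_neg]

theorem sg_eq (n : ℤ) : sg n = 1 ∨ sg n = -1 := by
  rcases Int.units_eq_one_or n.negOnePow with h | h <;> simp [sg, h]

theorem sg_even {n : ℤ} (h : Even n) : sg n = 1 := by simp [sg, Int.negOnePow_even n h]

theorem sg_odd {n : ℤ} (h : Odd n) : sg n = -1 := by simp [sg, Int.negOnePow_odd n h]

/-! ## Homogeneous matrices -/

section Hmg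

variable {J J' J'' J₁ J₁' : Type*}

/-- A matrix `f : J' × J` is homogeneous of degree `n` if its entries vanish unless
`deg i = deg j + n`. -/
def Hmg (p' : J' → ℤ) (p : J → ℤ) (n : ℤ) (f : Matrix J' J R) : Prop :=
  ∀ i j, p' i ≠ p j + n → f i j = 0

variable {p : J → ℤ} {p' : J' → ℤ} {p'' : J'' → ℤ} {p₁ : J₁ → ℤ} {p₁' : J₁' → ℤ} {n m : ℤ}

theorem Hmg.zero : Hmg p' p n (0 : Matrix J' J R) := fun _ _ _ => rfl

theorem Hmg.one [DecidableEq J] : Hmg p p 0 (1 : Matrix J J R) := by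
  intro i j h
  refine Matrix.one_apply_ne ?_
  rintro rfl; simp at h

theorem Hmg.add {f g : Matrix J' J R} (hf : Hmg p' p n f) (hg : Hmg p' p n g) :
    Hmg p' p n (f + g) := by
  intro i j h; simp [hf i j h, hg i j h]

theorem Hmg.sub {f g : Matrix J' J R} (hf : Hmg p' p n f) (hg : Hmg p' p n g) :
    Hmg p' p n (f - g) := by
  intro i j h; simp [hf i j h, hg i j h]

theorem Hmg.neg {f : Matrix J' J R} (hf : Hmg p' p n f) : Hmg p' p n (-f) := by
  intro i j h; simp [hf i j h]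

theorem Hmg.smul {S : Type*} [SMulZeroClass S R] (c : S) {f : Matrix J' J R}
    (hf : Hmg p' p n f) : Hmg p' p n (c • f) := by
  intro i j h; simp [hf i j h]

theorem Hmg.sum {ι : Type*} (s : Finset ι) {f : ι → Matrix J' J R}
    (hf : ∀ i ∈ s, Hmg p' p n (f i)) : Hmg p' p n (∑ i ∈ s, f i) := by
  intro i j h
  rw [Matrix.sum_apply]
  exact Finset.sum_eq_zero fun k hk => hf k hk i j h

theorem Hmg.mul [Fintype J'] {f : Matrix J'' J' R} {g : Matrix J' J R}
    (hf : Hmg p'' p' n f) (hg : Hmg p' p m g) : Hmg p'' p (n + m) (f * g) := by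
  intro i j h
  rw [Matrix.mul_apply]
  refine Finset.sum_eq_zero fun k _ => ?_
  by_cases h1 : p' k = p j + m
  · rw [hf i k (by intro h2; apply h; rw [h2, h1]; ring), zero_mul]
  · rw [hg k j h1, mul_zero]

theorem Hmg.mul' [Fintype J'] {f : Matrix J'' J' R} {g : Matrix J' J R} {k : ℤ}
    (hf : Hmg p'' p' n f) (hg : Hmg p' p m g) (hk : n + m = k) : Hmg p'' p k (f * g) :=
  hk ▸ hf.mul hg

theorem Hmg.cast {f : Matrix J' J R} {k : ℤ} (hf : Hmg p' p n f) (hk : n = k) :
    Hmg p' p k f := hk ▸ hf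

theorem Hmg.transpose {f : Matrix J' J R} (hf : Hmg p' p n f) :
    Hmg (fun j => -p j) (fun i => -p' i) n fᵀ := by
  intro j i h
  exact hf i j (by intro h2; apply h; simp only; omega)

theorem Hmg.kron {f : Matrix J' J R} {g : Matrix J₁' J₁ R} (hf : Hmg p' p n f)
    (hg : Hmg p₁' p₁ m g) :
    Hmg (fun x : J' × J₁' => p' x.1 + p₁' x.2) (fun x : J × J₁ => p x.1 + p₁ x.2) (n + m)
      (f ⊗ₖ g) := by
  rintro ⟨i, i'⟩ ⟨j, j'⟩ h
  rw [Matrix.kroneckerMap_apply]
  by_cases h1 : p' i = p j + n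
  · have h2 : p₁' i' ≠ p₁ j' + m := by intro h2; apply h; simp only; omega
    simp only [hg i' j' h2, mul_zero]
  · simp only [hf i j h1, zero_mul]

theorem Hmg.map {S : Type*} [CommRing S] (φ : R →+* S) {f : Matrix J' J R}
    (hf : Hmg p' p n f) : Hmg p' p n (f.map φ) := by
  intro i j h; simp [hf i j h]

/-- the parity operator -/
def ep (R : Type*) [CommRing R] [DecidableEq J] (p : J → ℤ) : Matrix J J R :=
  Matrix.diagonal fun j => ((sg (p j) : ℤ) : R)

variable [DecidableEq J] [DecidableEq J'] [DecidableEq J₁]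

theorem ep_hmg : Hmg p p 0 (ep R p) := by
  intro i j h
  refine Matrix.diagonal_apply_ne _ ?_
  rintro rfl; simp at h

theorem ep_mul_self [Fintype J] : ep R p * ep R p = 1 := by
  rw [ep, Matrix.diagonal_mul_diagonal, ← Matrix.diagonal_one]
  congr 1; ext j
  rw [← Int.cast_mul, sg_mul_self, Int.cast_one]

theorem ep_mul [Fintype J] [Fintype J'] {f : Matrix J' J R} (hf : Hmg p' p n f) :
    ep R p' * f = ((sg n : ℤ) : R) • (f * ep R p) := by
  ext i j
  simp only [ep, Matrix.diagonal_mul, Matrix.mul_diagonal, Matrix.smul_apply, smul_eq_mul]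
  by_cases h : p' i = p j + n
  · rw [h, sg_add]; push_cast; ring
  · rw [hf i j h]; simp

theorem ep_mul_even [Fintype J] [Fintype J'] {f : Matrix J' J R} (hf : Hmg p' p 0 f) :
    ep R p' * f = f * ep R p := by
  rw [ep_mul hf, sg_zero]; simp

theorem ep_mul_odd [Fintype J] [Fintype J'] {f : Matrix J' J R} (hf : Hmg p' p 1 f) :
    ep R p' * f = -(f * ep R p) := by
  rw [ep_mul hf, sg_one]; simp

theorem ep_mul_odd' [Fintype J] [Fintype J'] {f : Matrix J' J R} (hf : Hmg p' p (-1) f) :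
    ep R p' * f = -(f * ep R p) := by
  rw [ep_mul hf, sg_neg, sg_one]; simp

theorem ep_transpose : (ep R p)ᵀ = ep R p := by
  simp [ep]

theorem ep_neg : ep R (fun j => -p j) = ep R p := by
  simp [ep, sg_neg]

theorem ep_kron : ep R (fun x : J × J₁ => p x.1 + p₁ x.2) = ep R p ⊗ₖ ep R p₁ := by
  rw [ep, ep, ep, Matrix.diagonal_kronecker_diagonal]
  congr 1; ext x; rw [sg_add, Int.cast_mul]

theorem ep_map {S : Type*} [CommRing S] (φ : R →+* S) : (ep R p).map φ = ep S p := by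
  rw [ep, ep, Matrix.diagonal_map (map_zero φ)]
  congr 1; ext j; simp

end Hmg

/-! ## Complexes -/

/-- A bounded complex of finite free modules over `R` with basis indexed by `J`. -/
structure Cx (R : Type*) [CommRing R] (J : Type*) [Fintype J] where
  /-- the degrees of the basis elements -/
  deg : J → ℤ
  /-- the differential -/
  d : Matrix J J R
  hmg : Hmg deg deg 1 d
  sq : d * d = 0

namespace Cx

variable {S : Type*} [CommRing S] {J J' J'' : Type*} [Fintype J] [Fintype J'] [Fintype J'']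
  [DecidableEq J] [DecidableEq J'] [DecidableEq J'']

/-- the parity operator of a complex -/
abbrev e (K : Cx R J) : Matrix J J R := ep R K.deg

theorem e_mul_self (K : Cx R J) : K.e * K.e = 1 := ep_mul_self

theorem e_mul_d (K : Cx R J) : K.e * K.d = -(K.d * K.e) := ep_mul_odd K.hmg

theorem d_mul_e (K : Cx R J) : K.d * K.e = -(K.e * K.d) := by rw [e_mul_d, neg_neg]

theorem e_hmg (K : Cx R J) : Hmg K.deg K.deg 0 K.e := ep_hmg

/-- `f : K → L` is homogeneous of degree `n` -/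
abbrev IsHmg (K : Cx R J) (L : Cx R J') (n : ℤ) (f : Matrix J' J R) : Prop := Hmg L.deg K.deg n f

/-- closed maps of degree `n` -/
structure Cl (K : Cx R J) (L : Cx R J') (n : ℤ) (f : Matrix J' J R) : Prop where
  hmg : IsHmg K L n f
  comm : L.d * f = ((sg n : ℤ) : R) • (f * K.d)

/-- `f` is a boundary of degree `n` in the Hom complex. -/
def Bd (K : Cx R J) (L : Cx R J') (n : ℤ) (f : Matrix J' J R) : Prop :=
  ∃ s : Matrix J' J R, IsHmg K L (n - 1) s ∧ f = L.d * s + ((sg n : ℤ) : R) • (s * K.d)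

variable {K : Cx R J} {L : Cx R J'} {M : Cx R J''} {n m : ℤ}

theorem Cl.zero : Cl K L n 0 := ⟨Hmg.zero, by simp⟩

theorem Cl.one : Cl K K 0 1 := ⟨Hmg.one, by simp [sg_zero]⟩

theorem Cl.add {f g : Matrix J' J R} (hf : Cl K L n f) (hg : Cl K L n g) : Cl K L n (f + g) :=
  ⟨hf.hmg.add hg.hmg, by rw [Matrix.mul_add, hf.comm, hg.comm, Matrix.add_mul, smul_add]⟩

theorem Cl.sub {f g : Matrix J' J R} (hf : Cl K L n f) (hg : Cl K L n g) : Cl K L n (f - g) :=
  ⟨hf.hmg.sub hg.hmg, by rw [Matrix.mul_sub, hf.comm, hg.comm, Matrix.sub_mul, smul_sub]⟩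

theorem Cl.neg {f : Matrix J' J R} (hf : Cl K L n f) : Cl K L n (-f) :=
  ⟨hf.hmg.neg, by rw [Matrix.mul_neg, hf.comm, Matrix.neg_mul, smul_neg]⟩

theorem Cl.smul (c : R) {f : Matrix J' J R} (hf : Cl K L n f) : Cl K L n (c • f) :=
  ⟨hf.hmg.smul c, by rw [Matrix.mul_smul, hf.comm, Matrix.smul_mul, smul_comm]⟩

theorem Cl.mul {f : Matrix J'' J' R} {g : Matrix J' J R} (hf : Cl L M n f) (hg : Cl K L m g) :
    Cl K M (n + m) (f * g) :=
  ⟨hf.hmg.mul hg.hmg, by
    rw [← Matrix.mul_assoc, hf.comm, Matrix.smul_mul, Matrix.mul_assoc, hg.comm,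
      Matrix.mul_smul, smul_smul, Matrix.mul_assoc, sg_add, Int.cast_mul]⟩

theorem Cl.cast {f : Matrix J' J R} (hf : Cl K L n f) (h : n = m) : Cl K L m f := h ▸ hf

theorem Cl.comm0 {f : Matrix J' J R} (hf : Cl K L 0 f) : L.d * f = f * K.d := by
  rw [hf.comm, sg_zero]; simp

theorem Cl.mk0 {f : Matrix J' J R} (h : IsHmg K L 0 f) (hc : L.d * f = f * K.d) : Cl K L 0 f :=
  ⟨h, by rw [hc, sg_zero]; simp⟩

theorem Cl.comm1 {f : Matrix J' J R} (hf : Cl K L 1 f) : L.d * f = -(f * K.d) := by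
  rw [hf.comm, sg_one]; simp

theorem Cl.mk1 {f : Matrix J' J R} (h : IsHmg K L 1 f) (hc : L.d * f = -(f * K.d)) : Cl K L 1 f :=
  ⟨h, by rw [hc, sg_one]; simp⟩

theorem Bd.zero : Bd K L n 0 := ⟨0, Hmg.zero, by simp⟩

theorem Bd.add {f g : Matrix J' J R} (hf : Bd K L n f) (hg : Bd K L n g) : Bd K L n (f + g) := by
  obtain ⟨s, hs, rfl⟩ := hf
  obtain ⟨t, ht, rfl⟩ := hg
  refine ⟨s + t, hs.add ht, ?_⟩
  rw [Matrix.mul_add, Matrix.add_mul, smul_add]; abel

theorem Bd.neg {f : Matrix J' J R} (hf : Bd K L n f) : Bd K L n (-f) := by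
  obtain ⟨s, hs, rfl⟩ := hf
  refine ⟨-s, hs.neg, ?_⟩
  rw [Matrix.mul_neg, Matrix.neg_mul, smul_neg]; abel

theorem Bd.sub {f g : Matrix J' J R} (hf : Bd K L n f) (hg : Bd K L n g) : Bd K L n (f - g) := by
  rw [sub_eq_add_neg]; exact hf.add hg.neg

theorem Bd.smul (c : R) {f : Matrix J' J R} (hf : Bd K L n f) : Bd K L n (c • f) := by
  obtain ⟨s, hs, rfl⟩ := hf
  refine ⟨c • s, hs.smul c, ?_⟩
  rw [smul_add, Matrix.mul_smul, Matrix.smul_mul, smul_comm c]

theorem Bd.hmg {f : Matrix J' J R} (hf : Bd K L n f) : IsHmg K L n f := by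
  obtain ⟨s, hs, rfl⟩ := hf
  exact (L.hmg.mul' hs (by ring)).add ((hs.mul' K.hmg (by ring)).smul _)

theorem Bd.cl {f : Matrix J' J R} (hf : Bd K L n f) : Cl K L n f := by
  refine ⟨hf.hmg, ?_⟩
  obtain ⟨s, hs, rfl⟩ := hf
  rw [Matrix.mul_add, ← Matrix.mul_assoc, L.sq, Matrix.zero_mul, zero_add, Matrix.mul_smul, Matrix.add_mul,
    Matrix.smul_mul, Matrix.mul_assoc s, K.sq, Matrix.mul_zero, smul_zero, add_zero, Matrix.mul_assoc]

theorem Bd.mul_cl {f : Matrix J'' J' R} {g : Matrix J' J R} (hf : Bd L M n f) (hg : Cl K L m g) :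
    Bd K M (n + m) (f * g) := by
  obtain ⟨s, hs, rfl⟩ := hf
  refine ⟨s * g, hs.mul' hg.hmg (by ring), ?_⟩
  rw [Matrix.add_mul, Matrix.smul_mul, Matrix.mul_assoc s, hg.comm, Matrix.mul_smul, smul_smul,
    Matrix.mul_assoc, Matrix.mul_assoc, sg_add, Int.cast_mul]

theorem Cl.mul_bd {f : Matrix J'' J' R} {g : Matrix J' J R} (hf : Cl L M n f) (hg : Bd K L m g) :
    Bd K M (n + m) (f * g) := by
  obtain ⟨s, hs, rfl⟩ := hg
  refine ⟨((sg n : ℤ) : R) • (f * s), (hf.hmg.mul' hs (by ring)).smul _, ?_⟩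
  have h1 : ((sg n : ℤ) : R) * ((sg n : ℤ) : R) = 1 := by
    rw [← Int.cast_mul, sg_mul_self, Int.cast_one]
  rw [Matrix.mul_smul, ← Matrix.mul_assoc, hf.comm, Matrix.smul_mul, smul_smul, h1, one_smul,
    Matrix.mul_add, Matrix.mul_smul, Matrix.smul_mul, smul_smul, Matrix.mul_assoc, Matrix.mul_assoc]
  congr 2
  rw [sg_add, Int.cast_mul, mul_comm (((sg n : ℤ) : R)) (((sg m : ℤ) : R)), mul_assoc, h1,
    mul_one]

end Cx

end LicciCx

end

section

/-!
# Tensor products, duals and Hom complexes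
-/

set_option autoImplicit false
set_option linter.unusedSectionVars false

open Matrix Kronecker

namespace LicciCx

variable {R : Type*} [CommRing R]

section kron

variable {A A' B B' : Type*}

theorem smul_kron (c : R) (f : Matrix A A' R) (g : Matrix B B' R) :
    (c • f) ⊗ₖ g = c • (f ⊗ₖ g) := by
  ext i j; simp [Matrix.kroneckerMap_apply, mul_assoc]

theorem kron_smul (c : R) (f : Matrix A A' R) (g : Matrix B B' R) :
    f ⊗ₖ (c • g) = c • (f ⊗ₖ g) := by
  ext i j; simp [Matrix.kroneckerMap_apply, mul_left_comm]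

theorem neg_kron (f : Matrix A A' R) (g : Matrix B B' R) :
    (-f) ⊗ₖ g = -(f ⊗ₖ g) := by
  ext i j; simp [Matrix.kroneckerMap_apply]

theorem kron_neg (f : Matrix A A' R) (g : Matrix B B' R) :
    f ⊗ₖ (-g) = -(f ⊗ₖ g) := by
  ext i j; simp [Matrix.kroneckerMap_apply]

theorem sub_kron (f f' : Matrix A A' R) (g : Matrix B B' R) :
    (f - f') ⊗ₖ g = f ⊗ₖ g - f' ⊗ₖ g := by
  ext i j; simp [Matrix.kroneckerMap_apply, sub_mul]

theorem kron_sub (f : Matrix A A' R) (g g' : Matrix B B' R) :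
    f ⊗ₖ (g - g') = f ⊗ₖ g - f ⊗ₖ g' := by
  ext i j; simp [Matrix.kroneckerMap_apply, mul_sub]

theorem add_kron (f f' : Matrix A A' R) (g : Matrix B B' R) :
    (f + f') ⊗ₖ g = f ⊗ₖ g + f' ⊗ₖ g := by
  ext i j; simp [Matrix.kroneckerMap_apply, add_mul]

theorem kron_add (f : Matrix A A' R) (g g' : Matrix B B' R) :
    f ⊗ₖ (g + g') = f ⊗ₖ g + f ⊗ₖ g' := by
  ext i j; simp [Matrix.kroneckerMap_apply, mul_add]

theorem zero_kron (g : Matrix B B' R) : (0 : Matrix A A' R) ⊗ₖ g = 0 := by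
  ext i j; simp [Matrix.kroneckerMap_apply]

theorem kron_zero (f : Matrix A A' R) : f ⊗ₖ (0 : Matrix B B' R) = 0 := by
  ext i j; simp [Matrix.kroneckerMap_apply]

end kron

namespace Cx

variable {J J' J'' J₁ J₁' : Type*} [Fintype J] [Fintype J'] [Fintype J''] [Fintype J₁]
  [Fintype J₁'] [DecidableEq J] [DecidableEq J'] [DecidableEq J''] [DecidableEq J₁]
  [DecidableEq J₁']

/-! ## tensor product -/

/-- the tensor product -/
def tensor (K : Cx R J) (L : Cx R J') : Cx R (J × J') where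
  deg x := K.deg x.1 + L.deg x.2
  d := K.d ⊗ₖ 1 + K.e ⊗ₖ L.d
  hmg := ((K.hmg.kron Hmg.one).cast (by ring)).add ((K.e_hmg.kron L.hmg).cast (by ring))
  sq := by
    rw [Matrix.mul_add, Matrix.add_mul, Matrix.add_mul, ← Matrix.mul_kronecker_mul,
      ← Matrix.mul_kronecker_mul, ← Matrix.mul_kronecker_mul, ← Matrix.mul_kronecker_mul,
      K.sq, L.sq, zero_kron, kron_zero, K.e_mul_d, Matrix.one_mul, Matrix.mul_one, neg_kron]
    abel

variable {K : Cx R J} {L : Cx R J'} {M : Cx R J''} {K' : Cx R J₁} {L' : Cx R J₁'} {n m : ℤ}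

theorem tensor_e : (K.tensor L).e = K.e ⊗ₖ L.e := ep_kron

theorem tensor_d : (K.tensor L).d = K.d ⊗ₖ 1 + K.e ⊗ₖ L.d := rfl

theorem tensor_deg (x : J × J') : (K.tensor L).deg x = K.deg x.1 + L.deg x.2 := rfl

theorem e_mul_hmg0 {f : Matrix J' J R} (hf : IsHmg K L 0 f) : L.e * f = f * K.e :=
  ep_mul_even hf

theorem e_mul_hmg {f : Matrix J' J R} (hf : IsHmg K L n f) :
    L.e * f = ((sg n : ℤ) : R) • (f * K.e) := ep_mul hf

theorem IsHmg.kron {f : Matrix J₁ J R} {g : Matrix J₁' J' R} (hf : IsHmg K K' n f)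
    (hg : IsHmg L L' m g) :
    IsHmg (K.tensor L) (K'.tensor L') (n + m) (f ⊗ₖ g) := Hmg.kron hf hg

/-- the tensor product of a closed map of degree `n` with a closed map of degree `0` -/
theorem Cl.kron {f : Matrix J₁ J R} {g : Matrix J₁' J' R} (hf : Cl K K' n f)
    (hg : Cl L L' 0 g) : Cl (K.tensor L) (K'.tensor L') n (f ⊗ₖ g) :=
  ⟨(IsHmg.kron hf.hmg hg.hmg).cast (add_zero n), by
    rw [tensor_d, tensor_d, Matrix.add_mul, Matrix.mul_add, ← Matrix.mul_kronecker_mul,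
      ← Matrix.mul_kronecker_mul, ← Matrix.mul_kronecker_mul, ← Matrix.mul_kronecker_mul,
      hf.comm, hg.comm0, e_mul_hmg hf.hmg, Matrix.one_mul, Matrix.mul_one, smul_add, smul_kron,
      smul_kron]⟩

/-- the tensor product of a closed map of degree `0` with a closed map of odd degree -/
theorem Cl.kron_odd {f : Matrix J₁ J R} {g : Matrix J₁' J' R} (hf : Cl K K' 0 f)
    (hg : Cl L L' n g) (hn : Odd n) :
    Cl (K.tensor L) (K'.tensor L') n ((f * K.e) ⊗ₖ g) :=
  ⟨(IsHmg.kron (hf.hmg.mul K.e_hmg) hg.hmg).cast (by ring), by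
    have h1 : K'.d * (f * K.e) = f * K.d * K.e := by rw [← Matrix.mul_assoc, hf.comm0]
    have h2 : K'.e * (f * K.e) = f := by
      rw [← Matrix.mul_assoc, e_mul_hmg0 hf.hmg, Matrix.mul_assoc, K.e_mul_self,
        Matrix.mul_one]
    have h3 : f * K.e * K.d = -(f * K.d * K.e) := by
      rw [Matrix.mul_assoc, K.e_mul_d, Matrix.mul_neg, Matrix.mul_assoc]
    have h4 : f * K.e * K.e = f := by rw [Matrix.mul_assoc, K.e_mul_self, Matrix.mul_one]
    rw [tensor_d, tensor_d, Matrix.add_mul, Matrix.mul_add, ← Matrix.mul_kronecker_mul,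
      ← Matrix.mul_kronecker_mul, ← Matrix.mul_kronecker_mul, ← Matrix.mul_kronecker_mul,
      h1, h2, h3, h4, hg.comm, Matrix.one_mul, Matrix.mul_one, smul_add, kron_smul, neg_kron,
      sg_odd hn]
    simp⟩

theorem Bd.kron {f : Matrix J₁ J R} {g : Matrix J₁' J' R} (hf : Bd K K' n f)
    (hg : Cl L L' 0 g) : Bd (K.tensor L) (K'.tensor L') n (f ⊗ₖ g) := by
  obtain ⟨s, hs, rfl⟩ := hf
  refine ⟨s ⊗ₖ g, (IsHmg.kron hs hg.hmg).cast (by ring), ?_⟩
  rw [tensor_d, tensor_d, Matrix.add_mul, Matrix.mul_add, ← Matrix.mul_kronecker_mul,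
      ← Matrix.mul_kronecker_mul, ← Matrix.mul_kronecker_mul, ← Matrix.mul_kronecker_mul,
      hg.comm0, e_mul_hmg hs, Matrix.one_mul, Matrix.mul_one, smul_add, smul_kron, add_kron,
      smul_kron, sg_sub, sg_one]
  push_cast
  rw [mul_neg_one, neg_smul]
  abel

theorem Cl.kron_bd {f : Matrix J₁ J R} {g : Matrix J₁' J' R} (hf : Cl K K' 0 f)
    (hg : Bd L L' 0 g) : Bd (K.tensor L) (K'.tensor L') 0 (f ⊗ₖ g) := by
  obtain ⟨s, hs, rfl⟩ := hg
  refine ⟨(f * K.e) ⊗ₖ s, (IsHmg.kron (hf.hmg.mul K.e_hmg) hs).cast (by ring), ?_⟩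
  have h1 : K'.d * (f * K.e) = f * K.d * K.e := by rw [← Matrix.mul_assoc, hf.comm0]
  have h2 : K'.e * (f * K.e) = f := by
    rw [← Matrix.mul_assoc, e_mul_hmg0 hf.hmg, Matrix.mul_assoc, K.e_mul_self,
      Matrix.mul_one]
  have h3 : f * K.e * K.d = -(f * K.d * K.e) := by
    rw [Matrix.mul_assoc, K.e_mul_d, Matrix.mul_neg, Matrix.mul_assoc]
  have h4 : f * K.e * K.e = f := by rw [Matrix.mul_assoc, K.e_mul_self, Matrix.mul_one]
  rw [tensor_d, tensor_d, Matrix.add_mul, Matrix.mul_add, ← Matrix.mul_kronecker_mul,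
      ← Matrix.mul_kronecker_mul, ← Matrix.mul_kronecker_mul, ← Matrix.mul_kronecker_mul,
      h1, h2, h3, h4, Matrix.one_mul, Matrix.mul_one, kron_add, neg_kron, sg_zero]
  simp only [Int.cast_one, one_smul]
  abel

/-! ## the dual -/

/-- the dual complex -/
def dual (K : Cx R J) : Cx R J where
  deg j := -K.deg j
  d := -(K.e * K.d)ᵀ
  hmg := (((K.e_hmg.mul K.hmg).transpose).neg).cast (by ring)
  sq := by
    rw [Matrix.neg_mul, Matrix.mul_neg, neg_neg, ← Matrix.transpose_mul, Matrix.mul_assoc,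
      ← Matrix.mul_assoc K.d, K.d_mul_e, Matrix.neg_mul, Matrix.mul_assoc, K.sq,
      Matrix.mul_zero, neg_zero, Matrix.mul_zero, Matrix.transpose_zero]

theorem dual_d : K.dual.d = -(K.e * K.d)ᵀ := rfl

theorem dual_deg (j : J) : K.dual.deg j = -K.deg j := rfl

theorem dual_e : K.dual.e = K.e := ep_neg

theorem IsHmg.transpose {f : Matrix J' J R} (hf : IsHmg K L n f) :
    IsHmg L.dual K.dual n fᵀ := Hmg.transpose hf

theorem Cl.transpose {f : Matrix J' J R} (hf : Cl K L 0 f) : Cl L.dual K.dual 0 fᵀ := by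
  refine Cl.mk0 (IsHmg.transpose hf.hmg) ?_
  rw [dual_d, dual_d, Matrix.neg_mul, Matrix.mul_neg, ← Matrix.transpose_mul,
    ← Matrix.transpose_mul, Matrix.mul_assoc, hf.comm0, ← Matrix.mul_assoc,
    ← Matrix.mul_assoc, e_mul_hmg0 hf.hmg]

theorem Bd.transpose {f : Matrix J' J R} (hf : Bd K L 0 f) :
    Bd L.dual K.dual 0 fᵀ := by
  obtain ⟨s, hs, rfl⟩ := hf
  have hs1 : IsHmg K L (-1) s := hs.cast (by ring)
  have hs' : s * K.e = -(L.e * s) := by rw [e_mul_hmg hs1, sg_neg, sg_one]; simp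
  refine ⟨-(s * K.e)ᵀ, (IsHmg.transpose (hs1.mul' K.e_hmg (add_zero _))).neg.cast (by ring), ?_⟩
  have h2 : L.e * (L.d * s * K.e) = L.d * s := by
    rw [← Matrix.mul_assoc, e_mul_hmg0 (L.hmg.mul' hs1 (by ring) : IsHmg K L 0 _),
      Matrix.mul_assoc, K.e_mul_self, Matrix.mul_one]
  have h3 : K.e * K.d = -(K.d * K.e) := K.e_mul_d
  rw [dual_d, dual_d, Matrix.neg_mul, Matrix.mul_neg, neg_neg, Matrix.neg_mul, Matrix.mul_neg,
    neg_neg, ← Matrix.transpose_mul, ← Matrix.transpose_mul, sg_zero, Int.cast_one, one_smul,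
    one_smul, ← Matrix.transpose_add]
  congr 1
  rw [Matrix.mul_assoc s, ← Matrix.mul_assoc K.e K.e, K.e_mul_self, Matrix.one_mul, add_comm]
  congr 1
  rw [Matrix.mul_assoc L.e, ← Matrix.mul_assoc L.d, h2]

theorem kron_transpose' {A A' B B' : Type*} (f : Matrix A A' R) (g : Matrix B B' R) :
    (f ⊗ₖ g)ᵀ = fᵀ ⊗ₖ gᵀ := by
  ext i j; simp [Matrix.kroneckerMap_apply]

/-! ## the Hom complex -/

/-- The Hom complex; a vector of `Hom K L` is an uncurried matrix. -/
def Hom (K : Cx R J) (L : Cx R J') : Cx R (J' × J) := L.tensor K.dual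

/-- the vector of a matrix -/
def vec (f : Matrix J' J R) : J' × J → R := fun x => f x.1 x.2

theorem vec_inj {f g : Matrix J' J R} (h : vec f = vec g) : f = g := by
  ext i j; exact congrFun h (i, j)

theorem vec_of (v : J' × J → R) : vec (Matrix.of fun i j => v (i, j)) = v := rfl

theorem Hom_deg (x : J' × J) : (Hom K L).deg x = L.deg x.1 - K.deg x.2 := by
  show L.deg x.1 + -K.deg x.2 = _
  ring

theorem Hom_d_vec (f : Matrix J' J R) :
    (Hom K L).d *ᵥ vec f = vec (L.d * f - L.e * f * (K.e * K.d)) := by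
  ext ⟨i, j⟩
  show ((L.d ⊗ₖ 1 + L.e ⊗ₖ (-(K.e * K.d)ᵀ)) *ᵥ vec f) (i, j) = _
  rw [Matrix.add_mulVec, Pi.add_apply]
  simp only [Matrix.mulVec, dotProduct, Fintype.sum_prod_type, Matrix.kroneckerMap_apply, vec]
  rw [Matrix.sub_apply, sub_eq_add_neg]
  congr 1
  · rw [Matrix.mul_apply]
    refine Finset.sum_congr rfl fun k _ => ?_
    rw [Finset.sum_eq_single j]
    · simp
    · intro b _ hb; simp [Matrix.one_apply_ne hb.symm]
    · simp
  · rw [Matrix.mul_apply, ← Finset.sum_neg_distrib, Finset.sum_comm]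
    refine Finset.sum_congr rfl fun k _ => ?_
    rw [Matrix.mul_apply, Finset.sum_mul, ← Finset.sum_neg_distrib]
    refine Finset.sum_congr rfl fun l _ => ?_
    simp only [Matrix.neg_apply, Matrix.transpose_apply]
    ring

theorem e_mul_e_d {f : Matrix J' J R} (hf : IsHmg K L n f) :
    L.e * f * (K.e * K.d) = ((sg n : ℤ) : R) • (f * K.d) := by
  rw [e_mul_hmg hf, Matrix.smul_mul, Matrix.mul_assoc, ← Matrix.mul_assoc K.e, K.e_mul_self,
    Matrix.one_mul]

/-- vectors supported in degree `n` -/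
def Vh (K : Cx R J) (n : ℤ) (v : J → R) : Prop := ∀ j, K.deg j ≠ n → v j = 0

theorem vec_hmg {f : Matrix J' J R} : Vh (Hom K L) n (vec f) ↔ IsHmg K L n f := by
  constructor
  · intro h i j hij
    exact h (i, j) (by rw [Hom_deg]; intro h2; apply hij; simp only at h2; omega)
  · rintro h ⟨i, j⟩ hij
    rw [Hom_deg] at hij
    exact h i j (by intro h2; apply hij; simp only; omega)

theorem cl_iff {f : Matrix J' J R} :
    Cl K L n f ↔ Vh (Hom K L) n (vec f) ∧ (Hom K L).d *ᵥ vec f = 0 := by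
  rw [vec_hmg, Hom_d_vec]
  constructor
  · intro h
    refine ⟨h.hmg, ?_⟩
    rw [e_mul_e_d h.hmg, h.comm, sub_self]; rfl
  · rintro ⟨h1, h2⟩
    refine ⟨h1, ?_⟩
    rw [e_mul_e_d h1] at h2
    have h3 : L.d * f - ((sg n : ℤ) : R) • (f * K.d) = 0 := vec_inj (h2.trans rfl)
    exact sub_eq_zero.mp h3

theorem bd_iff {f : Matrix J' J R} :
    Bd K L n f ↔ ∃ v, Vh (Hom K L) (n - 1) v ∧ (Hom K L).d *ᵥ v = vec f := by
  constructor
  · rintro ⟨s, hs, rfl⟩
    refine ⟨vec s, vec_hmg.2 hs, ?_⟩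
    rw [Hom_d_vec, e_mul_e_d hs, sg_sub, sg_one]
    congr 1
    push_cast
    rw [mul_neg_one, neg_smul, sub_neg_eq_add]
  · rintro ⟨v, hv, h⟩
    refine ⟨Matrix.of fun i j => v (i, j), vec_hmg.1 (by rw [vec_of]; exact hv), ?_⟩
    apply vec_inj
    rw [← h]
    conv_lhs => rw [← vec_of v]
    rw [Hom_d_vec, e_mul_e_d (vec_hmg.1 (by rw [vec_of]; exact hv) : IsHmg K L (n - 1) _),
      sg_sub, sg_one]
    congr 1
    push_cast
    rw [mul_neg_one, neg_smul, sub_neg_eq_add]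

end Cx

end LicciCx

end

section

/-!
# The closed fibre in index form

`J` is the index set of a basis of `X = X_{-1} + X_0 + X_1`, `om i j = ω(e_i, e_j)`,
`D i j l m` is the coefficient of `e_m` in `D(e_i, e_j) e_l`, `de` is the leading form of the
differential and `ε` is the class in `X_1`.
-/

set_option autoImplicit false

namespace LicciCore

open LicciCx Matrix

/-- The sign `(-1) ^ (m n)` in `k`. -/
def kz (k : Type*) [CommRing k] (m n : ℤ) : k := ((sg (m * n) : ℤ) : k)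

variable {k : Type*} [Field k] {J : Type*} [Fintype J] [DecidableEq J]

/-- The value of the trilinear map `D` on vectors. -/
def app3 (D : J → J → J → J → k) (x y z : J → k) : J → k :=
  fun m => ∑ i, ∑ j, ∑ l, x i * y j * z l * D i j l m

/-- the super Freudenthal data on the closed fibre -/
structure Sfts (deg : J → ℤ) (om : Matrix J J k) (D : J → J → J → J → k) : Prop where
  deg_le : ∀ j, deg j ≤ 1
  le_deg : ∀ j, -1 ≤ deg j
  om_deg : ∀ i j, deg i + deg j ≠ 0 → om i j = 0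
  om_symm : ∀ i j, om i j = -(kz k (deg i) (deg j) * om j i)
  om_unit : IsUnit om.det
  dim : Fintype.card {j // deg j = 0} = 56 + 2 * Fintype.card {j // deg j = 1}
  D_deg : ∀ i j l m, deg m ≠ deg i + deg j + deg l → D i j l m = 0
  D_symm : ∀ i j l m, D i j l m = kz k (deg i) (deg j) * D j i l m
  cross : ∀ i j l m, D i j l m - kz k (deg j) (deg l) * D i l j m =
    2 * om j l * (if i = m then 1 else 0) - om i j * (if l = m then 1 else 0) +
      kz k (deg j) (deg l) * om i l * (if j = m then 1 else 0)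
  sp : ∀ i j l r, ∑ m, D i j l m * om m r +
    kz k (deg l) (deg i + deg j) * ∑ m, om l m * D i j r m = 0
  sq : ∀ i j l r, ∑ a, ∑ b, ∑ m, om⁻¹ a b * D i j a m * D m b l r = 24 * D i j l r

/-- the class `ε` -/
structure SEps (deg : J → ℤ) (D : J → J → J → J → k) (ε : J → k) : Prop where
  deg_one : ∀ j, deg j ≠ 1 → ε j = 0
  ne : ε ≠ 0
  e1 : ∀ x : J → k, (∀ j, deg j ≠ 1 → x j = 0) → (∀ z, app3 D ε x z = 0) → ∃ c : k, x = c • ε
  e2 : ∀ x y : J → k, (∀ j, deg j ≠ 1 → x j = 0) → (∀ j, deg j ≠ 1 → y j = 0) →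
    ∃ w : J → k, (∀ j, deg j ≠ 1 → w j = 0) ∧ ∀ z, app3 D x y z = app3 D ε w z
  e3 : ∀ x u : J → k, (∀ j, deg j ≠ 1 → x j = 0) → (∀ j, deg j ≠ 0 → u j = 0) →
    ∃ w : J → k, (∀ j, deg j ≠ 0 → w j = 0) ∧ ∀ z, app3 D x u z = app3 D ε w z

/-- the leading form of the differential: `d e_j = ∑ i, de i j e_i` -/
structure SDer (deg : J → ℤ) (om : Matrix J J k) (D : J → J → J → J → k) (de : Matrix J J k) :
    Prop where
  deg_one : ∀ i j, deg i ≠ deg j + 1 → de i j = 0
  ne : de ≠ 0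
  sq : de * de = 0
  om_d : ∀ i j, ∑ s, om s j * de s i + kz k (deg i) 1 * ∑ s, om i s * de s j = 0
  D_d : ∀ i j l m, ∑ s, de m s * D i j l s = ∑ s, D s j l m * de s i +
    kz k (deg i) 1 * ∑ s, D i s l m * de s j + kz k (deg i + deg j) 1 * ∑ s, D i j s m * de s l

end LicciCore

end
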