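import Pool.Agent.Work.MP_a98e4e_ag.Fu.E.Theta
import Pool.Agent.Work.MP_a98e4e_ag.Fu.Cx.Cone
import Pool.Agent.Work.MP_a98e4e_ag.Fu.E.KForm

section

/-!
# The pairing and its inverse
-/

set_option autoImplicit false
set_option linter.unusedSectionVars false

open Matrix Kronecker RingTheory.Sequence IsLocalRing

namespace LicciCore

open LicciCx Cx Pool.Agent.Licci

universe u

section pair

variable {R : Type u} [CommRing R] {J : Type} [Fintype J] [DecidableEq J] {K : Cx R J}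

theorem e_mulVec0 {v : J → R} (hv : ∀ j, K.deg j ≠ 0 → v j = 0) : K.e *ᵥ v = v := by
  ext j
  rw [Cx.e, ep, Matrix.mulVec_diagonal]
  by_cases h : K.deg j = 0
  · rw [h, sg_zero]; simp
  · rw [hv j h, mul_zero]

theorem vecMul_e0 {v : J → R} (hv : ∀ j, K.deg j ≠ 0 → v j = 0) : v ᵥ* K.e = v := by
  ext j
  rw [Cx.e, ep, Matrix.vecMul_diagonal]
  by_cases h : K.deg j = 0
  · rw [h, sg_zero]; simp
  · rw [hv j h, zero_mul]

theorem dual_d_mulVec {l : J → R} (hl : ∀ j, K.deg j ≠ 0 → l j = 0) :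
    K.dual.d *ᵥ l = -(l ᵥ* K.d) := by
  rw [dual_d, Matrix.neg_mulVec, Matrix.mulVec_transpose, ← Matrix.vecMul_vecMul, vecMul_e0 hl]

/-- cocycles of degree zero of the dual -/
theorem mem_Z0_dual {l : J → R} :
    l ∈ K.dual.Z0 ↔ (∀ j, K.deg j ≠ 0 → l j = 0) ∧ l ᵥ* K.d = 0 := by
  constructor
  · rintro ⟨h1, h2⟩
    have h3 : ∀ j, K.deg j ≠ 0 → l j = 0 :=
      fun j hj => h1 j (by rw [dual_deg]; exact neg_ne_zero.2 hj)
    exact ⟨h3, neg_eq_zero.1 (by rw [← dual_d_mulVec h3, h2])⟩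
  · rintro ⟨h1, h2⟩
    refine ⟨fun j hj => h1 j (by rw [dual_deg] at hj; exact neg_ne_zero.1 hj), ?_⟩
    rw [dual_d_mulVec h1, h2, neg_zero]

theorem om_B0_le_Z0 {z : J → R} (hz : z ∈ K.B0) : z ∈ K.Z0 := by
  obtain ⟨w, hw, rfl⟩ := hz
  refine ⟨fun j hj => ?_, by rw [Matrix.mulVec_mulVec, K.sq, Matrix.zero_mulVec]⟩
  rw [Matrix.mulVec, dotProduct]
  refine Finset.sum_eq_zero fun k _ => ?_
  by_cases h : K.deg k = -1
  · rw [K.hmg j k (by rw [h]; simpa using hj), zero_mul]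
  · rw [hw k h, mul_zero]

theorem dot_B0 {l z : J → R} (hl : l ∈ K.dual.Z0) (hz : z ∈ K.B0) : l ⬝ᵥ z = 0 := by
  obtain ⟨w, -, rfl⟩ := hz
  rw [Matrix.dotProduct_mulVec, (mem_Z0_dual.1 hl).2, zero_dotProduct]

theorem B0_dot {l z : J → R} (hl : l ∈ K.dual.B0) (hz : z ∈ K.Z0) : l ⬝ᵥ z = 0 := by
  obtain ⟨w, -, rfl⟩ := hl
  rw [dual_d, Matrix.neg_mulVec, Matrix.mulVec_transpose, neg_dotProduct,
    ← Matrix.dotProduct_mulVec, ← Matrix.mulVec_mulVec, hz.2, Matrix.mulVec_zero,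
    dotProduct_zero, neg_zero]

theorem dot_BT [IsDomain R] {l z : J → R} (hl : l ∈ K.dual.Z0) (hz : z ∈ K.BT) : l ⬝ᵥ z = 0 := by
  obtain ⟨c, hc, h⟩ := hz
  have := dot_B0 hl h
  rw [dotProduct_smul, smul_eq_mul] at this
  exact (mul_eq_zero.1 this).resolve_left hc

theorem BT_dot [IsDomain R] {l z : J → R} (hl : l ∈ K.dual.BT) (hz : z ∈ K.Z0) : l ⬝ᵥ z = 0 := by
  obtain ⟨c, hc, h⟩ := hl
  have := B0_dot h hz
  rw [smul_dotProduct, smul_eq_mul] at this
  exact (mul_eq_zero.1 this).resolve_left hc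

end pair

theorem exists_mat {R : Type*} [CommRing R] {A B : Type*} [Fintype A] [DecidableEq A]
    [Fintype B] (f : (A → R) →ₗ[R] (B → R)) : ∃ M : Matrix B A R, ∀ x, M *ᵥ x = f x := by
  refine ⟨LinearMap.toMatrix' f, fun x => ?_⟩
  rw [← Matrix.toLin'_apply, Matrix.toLin'_toMatrix']

theorem exists_ad {R : Type*} [CommRing R] (p : E8 R) :
    ∃ M : Matrix (Fin 248) (Fin 248) R, ∀ x, M *ᵥ x = br p x :=
  exists_mat (brL p)

theorem exists_brk {R : Type*} [CommRing R] (e : E8 R) :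
    ∃ M : Matrix (Fin 248) (Fin 248) R, ∀ x x', x' ⬝ᵥ (M *ᵥ x) = kf (br x x') e := by
  obtain ⟨M, hM⟩ := exists_mat (R := R)
    (LinearMap.pi fun j : Fin 248 => (kfL (A := R)).flip e ∘ₗ (brL (A := R)).flip (eb j))
  refine ⟨M, fun x x' => ?_⟩
  rw [hM]
  conv_rhs => rw [E8.eq_sum x', br_sum_right, kf_sum_left]
  rw [dotProduct]
  refine Finset.sum_congr rfl fun j _ => ?_
  rw [br_smul_right, kf_smul_left]
  rfl

namespace CoreData

variable {R : Type u} [CommRing R] [IsDomain R] [IsLocalRing R] {p : Fin 248 → R}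
  {a : Fin 6 → R} {J : Type} [Fintype J] [DecidableEq J] (D : CoreData R p a J)

/-! ### the pairing -/

theorem p_ne0 (S : Setup R p a) : p ≠ 0 := by
  obtain ⟨q, hq⟩ := S.top
  intro h
  exact hq (by rw [h]; rfl)

theorem aa_d_mulVec (w : J → R) : D.aa *ᵥ (D.X.d *ᵥ w) = -((D.ph *ᵥ w) () • p) := by
  rw [Matrix.mulVec_mulVec, D.aa_d, Matrix.neg_mulVec, ← Matrix.mulVec_mulVec]
  congr 1
  ext i
  rw [Matrix.mulVec, dotProduct, Finset.univ_unique, Finset.sum_singleton, pcol, Matrix.of_apply,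
    Pi.smul_apply, smul_eq_mul, mul_comm]

/-- `Om = ω^♭ : X → X^*`, `ω(x, y) = y ⬝ᵥ Om x` -/
theorem exists_Om (S : Setup R p a) : ∃ Om : Matrix J J R, Cl D.X D.X.dual 0 Om ∧
    ∀ z ∈ D.X.Z0, ∀ z' ∈ D.X.Z0, br (D.aa *ᵥ z) (D.aa *ᵥ z') = (z' ⬝ᵥ (Om *ᵥ z)) • p := by
  have := S.char0
  have hp0 := p_ne0 S
  choose N e he using S.pmem
  choose M hM using fun i => exists_brk (e i)
  have hcof : ∀ z ∈ D.X.Z0, ∀ z' ∈ D.X.Z0, ∃ c : R, br (D.aa *ᵥ z) (D.aa *ᵥ z') = c • p :=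
    fun z hz z' hz' => br_F1_F1 S.cone S.sat hp0 (D.mem z hz) (D.mem z' hz')
  let Φ : Fin 6 → Matrix J J R := fun i => D.aaᵀ * (M i * D.aa)
  have hΦ : ∀ i (z z' : J → R), z' ⬝ᵥ (Φ i *ᵥ z) = kf (br (D.aa *ᵥ z) (D.aa *ᵥ z')) (e i) := by
    intro i z z'
    rw [← hM, ← Matrix.mulVec_mulVec, ← Matrix.mulVec_mulVec, Matrix.dotProduct_mulVec,
      Matrix.vecMul_transpose]
  have hΦ' : ∀ i (z z' : J → R), (Φ i *ᵥ z) ⬝ᵥ z' = kf (br (D.aa *ᵥ z) (D.aa *ᵥ z')) (e i) :=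
    fun i z z' => by rw [dotProduct_comm]; exact hΦ i z z'
  have hZ : ∀ i, ∀ z ∈ D.X.Z0, Φ i *ᵥ z ∈ D.X.dual.Z0 := by
    intro i z hz
    rw [mem_Z0_dual]
    constructor
    · intro j hj
      have h1 : D.aa *ᵥ Pi.single j (1 : R) = 0 := by
        ext k
        rw [Matrix.mulVec_single_one, Matrix.col_apply, D.aa_deg k j hj]; rfl
      have h2 := hΦ i z (Pi.single j 1)
      rw [h1, br_zero_right, kf_zero_left, single_one_dotProduct] at h2
      exact h2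
    · ext k
      have h2 := hΦ i z (D.X.d *ᵥ Pi.single k 1)
      rw [aa_d_mulVec, br_neg_right, br_smul_right, br_skew, br_p_F1 S.cone (D.mem z hz),
        neg_zero, smul_zero, neg_zero, kf_zero_left, dotProduct_comm, Matrix.dotProduct_mulVec,
        dotProduct_single_one] at h2
      exact h2
  have hcoc : ∀ i j, ∀ z ∈ D.X.Z0, a j ^ N j • Φ i *ᵥ z - a i ^ N i • Φ j *ᵥ z ∈ D.X.dual.BT := by
    intro i j z hz
    refine mem_BT_dual (S.ne 0) (D.ue 0) ?_ ?_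
    · exact sub_mem (Submodule.smul_mem _ _ (hZ i z hz)) (Submodule.smul_mem _ _ (hZ j z hz))
    · intro z' hz'
      obtain ⟨c, hc⟩ := hcof z hz z' hz'
      rw [sub_dotProduct, smul_dotProduct, smul_dotProduct, hΦ', hΦ', hc,
        kf_smul_left, kf_smul_left, he, he, smul_eq_mul, smul_eq_mul]
      ring
  obtain ⟨Om, h1, h2⟩ := lift1 (K := D.X) (L := D.X.dual) a S.reg S.ne D.ue
    (fun i => (D.ue i).dual) (by
      intro i j
      have := D.deg_le i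
      have := D.deg_le j
      rw [dual_deg]; omega) N Φ hZ (by
      rintro i z ⟨w, hw, rfl⟩
      have hwz : D.X.d *ᵥ w ∈ D.X.Z0 := om_B0_le_Z0 ⟨w, hw, rfl⟩
      refine mem_BT_dual (S.ne 0) (D.ue 0) (hZ i _ hwz) fun z' hz' => ?_
      rw [hΦ', aa_d_mulVec, br_neg_left, br_smul_left, br_p_F1 S.cone (D.mem z' hz'), smul_zero,
        neg_zero, kf_zero_left]) hcoc
  refine ⟨Om, h1, fun z hz z' hz' => ?_⟩
  obtain ⟨c, hc⟩ := hcof z hz z' hz'
  rw [hc]
  congr 1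
  have h3 := BT_dot (h2 0 z hz) hz'
  rw [sub_dotProduct, smul_dotProduct, hΦ', hc, kf_smul_left, he, sub_eq_zero,
    smul_eq_mul, mul_comm c] at h3
  rw [dotProduct_comm]
  exact (mul_left_cancel₀ (pow_ne_zero _ (S.ne 0)) h3).symm

noncomputable def Om (S : Setup R p a) : Matrix J J R := (D.exists_Om S).choose

theorem cl_Om (S : Setup R p a) : Cl D.X D.X.dual 0 (D.Om S) := (D.exists_Om S).choose_spec.1

theorem Om_spec (S : Setup R p a) : ∀ z ∈ D.X.Z0, ∀ z' ∈ D.X.Z0,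
    br (D.aa *ᵥ z) (D.aa *ᵥ z') = (z' ⬝ᵥ (D.Om S *ᵥ z)) • p := (D.exists_Om S).choose_spec.2

theorem u_mulVec_prX (y : Unit ⊕ J → R) :
    D.u *ᵥ y = y (Sum.inl ()) • p + D.aa *ᵥ (prX R J *ᵥ y) := by
  have h1 : prX R J *ᵥ y = y ∘ Sum.inr := by
    rw [prX, Matrix.fromCols_mulVec, Matrix.zero_mulVec, zero_add, Matrix.one_mulVec]
  rw [h1, u, Matrix.fromCols_mulVec]
  congr 1
  ext i
  rw [Matrix.mulVec, dotProduct, Finset.univ_unique, Finset.sum_singleton, pcol, Matrix.of_apply,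
    Pi.smul_apply, smul_eq_mul, mul_comm]
  rfl

theorem mem_B0_of_aa {z : J → R} (hz : z ∈ D.X.Z0) {r : R} (h : D.aa *ᵥ z = r • p) :
    z ∈ D.X.B0 := by
  obtain ⟨w, hw, h1, -⟩ := D.ker z hz (-r) (by rw [h, neg_smul, add_neg_cancel])
  exact ⟨w, hw, h1.symm⟩

theorem exists_psi (S : Setup R p a) : ∃ ps : Matrix J J R, Cl D.X.dual D.X 0 ps ∧
    ∀ l ∈ D.X.dual.Z0, ∀ z ∈ D.X.Z0, z ⬝ᵥ (D.Om S *ᵥ (ps *ᵥ l)) = l ⬝ᵥ z := by
  have := S.char0
  have hp0 := p_ne0 S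
  obtain ⟨kI, hk1, hk2⟩ := exists_kM_inv (R := R)
  obtain ⟨A, hA⟩ := exists_ad p
  choose n sg hs1 hs2 hs3 using D.exists_sig S
  let τ : Fin 6 → Matrix J (Fin 248) R := fun i => prX R J * sg i
  have hτZ : ∀ i y, τ i *ᵥ y ∈ D.X.Z0 := by
    intro i y
    have h := D.mem_Z0_X2.1 (hs1 i y)
    have h1 : τ i *ᵥ y = fun j => (sg i *ᵥ y) (Sum.inr j) := by
      show (prX R J * sg i) *ᵥ y = _
      rw [← Matrix.mulVec_mulVec, prX, Matrix.fromCols_mulVec, Matrix.zero_mulVec, zero_add,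
        Matrix.one_mulVec]
      rfl
    rw [h1]; exact h
  have hτ : ∀ i, ∀ x ∈ F1 p, ∃ r : R, D.aa *ᵥ (τ i *ᵥ x) = a i ^ n i • x + r • p := by
    intro i x hx
    have h := hs3 i x hx
    rw [u_mulVec_prX] at h
    refine ⟨-(sg i *ᵥ x) (Sum.inl ()), ?_⟩
    have h1 : τ i *ᵥ x = prX R J *ᵥ (sg i *ᵥ x) := (Matrix.mulVec_mulVec _ _ _).symm
    rw [h1, ← h, neg_smul]
    abel
  let W : Fin 6 → Matrix (Fin 248) J R := fun i => kI * (τ i)ᵀ
  have hW : ∀ i l y, kf (W i *ᵥ l) y = l ⬝ᵥ (τ i *ᵥ y) := by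
    intro i l y
    have h1 : kM R *ᵥ (W i *ᵥ l) = (τ i)ᵀ *ᵥ l := by
      show kM R *ᵥ ((kI * (τ i)ᵀ) *ᵥ l) = _
      rw [Matrix.mulVec_mulVec, ← Matrix.mul_assoc, hk1, Matrix.one_mul]
    rw [kf_comm, kf_eq, h1, Matrix.mulVec_transpose, dotProduct_comm, ← Matrix.dotProduct_mulVec]
  have hdot : ∀ i, ∀ l ∈ D.X.dual.Z0, ∀ z ∈ D.X.Z0,
      kf (W i *ᵥ l) (D.aa *ᵥ z) = a i ^ n i * (l ⬝ᵥ z) := by
    intro i l hl z hz
    obtain ⟨r, hr⟩ := hτ i _ (D.mem z hz)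
    have h1 : τ i *ᵥ (D.aa *ᵥ z) - a i ^ n i • z ∈ D.X.B0 := by
      refine D.mem_B0_of_aa (sub_mem (hτZ i _) (Submodule.smul_mem _ _ hz)) (r := r) ?_
      rw [Matrix.mulVec_sub, hr, Matrix.mulVec_smul]; abel
    have h2 := dot_B0 hl h1
    rw [dotProduct_sub, dotProduct_smul, sub_eq_zero, smul_eq_mul] at h2
    rw [hW, h2]
  have hWp : ∀ i, ∀ l ∈ D.X.dual.Z0, kf p (W i *ᵥ l) = 0 := by
    intro i l hl
    obtain ⟨r, hr⟩ := hτ i p (p_mem S.cone)
    rw [kf_comm, hW]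
    exact dot_B0 hl (D.mem_B0_of_aa (hτZ i p) (r := a i ^ n i + r) (by rw [hr, add_smul]))
  let Φ : Fin 6 → Matrix J J R := fun i => τ i * (A * W i)
  have hΦ : ∀ i l, Φ i *ᵥ l = τ i *ᵥ br p (W i *ᵥ l) := by
    intro i l
    rw [← hA, Matrix.mulVec_mulVec, Matrix.mulVec_mulVec, Matrix.mul_assoc]
  have hΦZ : ∀ i, ∀ l ∈ D.X.dual.Z0, Φ i *ᵥ l ∈ D.X.Z0 := fun i l _ => by rw [hΦ]; exact hτZ i _
  have hΦa : ∀ i, ∀ l ∈ D.X.dual.Z0, ∃ r : R,
      D.aa *ᵥ (Φ i *ᵥ l) = a i ^ n i • br p (W i *ᵥ l) + r • p := by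
    intro i l hl
    rw [hΦ]
    exact hτ i _ (br_p_perp S.cone hp0 (hWp i l hl))
  have hcoc : ∀ i j, ∀ l ∈ D.X.dual.Z0,
      a j ^ (2 * n j) • Φ i *ᵥ l - a i ^ (2 * n i) • Φ j *ᵥ l ∈ D.X.BT := by
    intro i j l hl
    obtain ⟨ri, hri⟩ := hΦa i l hl
    obtain ⟨rj, hrj⟩ := hΦa j l hl
    have h0 : a j ^ n j • W i *ᵥ l - a i ^ n i • W j *ᵥ l ∈ F0 p := by
      rw [F0_iff S.cone hp0]
      intro x hx
      obtain ⟨z, hz, r, rfl⟩ := D.surj x hx
      rw [kf_sub_left, kf_smul_left, kf_smul_left, kf_add_right, kf_add_right, kf_smul_right,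
        kf_smul_right, kf_comm _ p, kf_comm _ p, hWp i l hl, hWp j l hl, hdot i l hl z hz,
        hdot j l hl z hz]
      ring
    obtain ⟨χ, hχ⟩ := F0_eigen S.sat hp0 h0
    rw [br_skew, br_sub_right, br_smul_right, br_smul_right, neg_sub] at hχ
    have h1 : a j ^ (2 * n j) • Φ i *ᵥ l - a i ^ (2 * n i) • Φ j *ᵥ l ∈ D.X.B0 := by
      refine D.mem_B0_of_aa (sub_mem (Submodule.smul_mem _ _ (hΦZ i l hl))
        (Submodule.smul_mem _ _ (hΦZ j l hl)))
        (r := a j ^ (2 * n j) * ri - a i ^ (2 * n i) * rj - a i ^ n i * a j ^ n j * χ) ?_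
      rw [Matrix.mulVec_sub, Matrix.mulVec_smul, Matrix.mulVec_smul, hri, hrj, sub_smul, sub_smul,
        mul_smul _ χ, ← hχ]
      module
    exact ⟨1, one_ne_zero, by rw [one_smul]; exact h1⟩
  obtain ⟨ps, h1, h2⟩ := lift1 (K := D.X.dual) (L := D.X) a S.reg S.ne
    (fun i => (D.ue i).dual) D.ue (by
      intro i j
      have := D.le_deg i
      have := D.le_deg j
      rw [dual_deg]; omega) (fun i => 2 * n i) Φ hΦZ (by
      intro i l hl
      have h0 : (τ i)ᵀ *ᵥ l = 0 := by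
        ext y
        have := B0_dot hl (hτZ i (Pi.single y 1))
        rw [Matrix.dotProduct_mulVec, dotProduct_single_one, ← Matrix.mulVec_transpose] at this
        exact this
      have h3 : W i *ᵥ l = 0 := by
        show (kI * (τ i)ᵀ) *ᵥ l = 0
        rw [← Matrix.mulVec_mulVec, h0, Matrix.mulVec_zero]
      rw [hΦ, h3, br_zero_right, Matrix.mulVec_zero]
      exact zero_mem _) hcoc
  refine ⟨ps, h1, fun l hl z hz => ?_⟩
  have hOmz : ∀ b ∈ D.X.BT, z ⬝ᵥ (D.Om S *ᵥ b) = 0 := by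
    rintro b ⟨c, hc, w, hw, h⟩
    have h3 : z ⬝ᵥ (D.Om S *ᵥ (D.X.d *ᵥ w)) = 0 := by
      rw [Matrix.mulVec_mulVec, ← (D.cl_Om S).comm0, ← Matrix.mulVec_mulVec, dotProduct_comm]
      refine B0_dot ⟨D.Om S *ᵥ w, ?_, rfl⟩ hz
      exact Vh.mulVec (n := 0) (m := -1) (D.cl_Om S).hmg hw
    rw [h, Matrix.mulVec_smul, dotProduct_smul, smul_eq_mul] at h3
    exact (mul_eq_zero.1 h3).resolve_left hc
  have h3 := hOmz _ (h2 0 l hl)
  obtain ⟨r, hr⟩ := hΦa 0 l hl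
  have h4 := D.Om_spec S _ (hΦZ 0 l hl) z hz
  rw [hr, br_add_left, br_smul_left, br_smul_left, br_br_p S.cone hp0 (hWp 0 l hl) (D.mem z hz),
    br_p_F1 S.cone (D.mem z hz), smul_zero, add_zero, hdot 0 l hl z hz, smul_smul] at h4
  have h5 : a 0 ^ n 0 * (a 0 ^ n 0 * (l ⬝ᵥ z)) = z ⬝ᵥ (D.Om S *ᵥ (Φ 0 *ᵥ l)) := by
    obtain ⟨q, hq⟩ := S.top
    have h6 := congrFun h4 (ix q)
    rw [Pi.smul_apply, Pi.smul_apply, smul_eq_mul, smul_eq_mul] at h6
    exact mul_right_cancel₀ hq h6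
  rw [Matrix.mulVec_sub, dotProduct_sub, Matrix.mulVec_smul, dotProduct_smul, ← h5, sub_eq_zero,
    smul_eq_mul] at h3
  refine mul_left_cancel₀ (pow_ne_zero (2 * n 0) (S.ne 0)) (h3.trans ?_)
  ring

noncomputable def psi (S : Setup R p a) : Matrix J J R := (D.exists_psi S).choose

theorem cl_psi (S : Setup R p a) : Cl D.X.dual D.X 0 (D.psi S) := (D.exists_psi S).choose_spec.1

theorem psi_spec (S : Setup R p a) : ∀ l ∈ D.X.dual.Z0, ∀ z ∈ D.X.Z0,
    z ⬝ᵥ (D.Om S *ᵥ (D.psi S *ᵥ l)) = l ⬝ᵥ z := (D.exists_psi S).choose_spec.2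

theorem om_mulVec_Z0 {K L : Cx R J} {f : Matrix J J R} (hf : Cl K L 0 f) {z : J → R}
    (hz : z ∈ K.Z0) : f *ᵥ z ∈ L.Z0 := by
  refine ⟨Vh.mulVec (n := 0) (m := 0) hf.hmg hz.1, ?_⟩
  rw [Matrix.mulVec_mulVec, hf.comm0, ← Matrix.mulVec_mulVec, hz.2, Matrix.mulVec_zero]

/-- `Om psi ∼ 1` -/
theorem bd_Om_psi (S : Setup R p a) : Bd D.X.dual D.X.dual 0 (D.Om S * D.psi S - 1) := by
  have hc : Cl D.X.dual D.X.dual 0 (D.Om S * D.psi S) :=
    ((D.cl_Om S).mul (D.cl_psi S)).cast (by ring)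
  have hc1 : Cl D.X.dual D.X.dual 0 (D.Om S * D.psi S - 1) := hc.sub Cl.one
  refine uniq1 a S.reg S.ne (fun i => (D.ue i).dual) (fun i => (D.ue i).dual) (fun i j => ?_)
    hc1 fun l hl => ?_
  · have := D.deg_le i
    have := D.le_deg j
    rw [dual_deg, dual_deg]; omega
  · refine mem_BT_dual (S.ne 0) (D.ue 0) (om_mulVec_Z0 hc1 hl) fun z hz => ?_
    rw [Matrix.sub_mulVec, Matrix.one_mulVec, sub_dotProduct, ← Matrix.mulVec_mulVec,
      dotProduct_comm, D.psi_spec S l hl z hz, sub_self]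

/-- `Om` is invertible on the closed fibre -/
theorem Om_unit (S : Setup R p a) : IsUnit ((D.Om S).map (residue R)).det := by
  have h : (D.Om S).map (residue R) * (D.psi S).map (residue R) = 1 := by
    rw [← Matrix.map_mul]
    ext i j
    have h1 := (D.bd_Om_psi S).mem_ideal (I := maximalIdeal R) (Min.dual D.min)
      (Min.dual D.min) i j
    rw [← residue_eq_zero_iff, Matrix.sub_apply, map_sub, sub_eq_zero] at h1
    rw [Matrix.map_apply, h1, Matrix.one_apply, Matrix.one_apply]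
    split <;> simp
  exact Matrix.isUnit_det_of_right_inverse h

end CoreData

end LicciCore

end

section

/-!
# The Casimir identity on `F1 / p`
-/

set_option autoImplicit false
set_option linter.unusedSectionVars false

namespace LicciCore.UF

open Pool.Agent.Licci LicciCore Matrix

section line

variable {R : Type*} [CommRing R]

/-- the line of `p` -/
def Lp (p : E8 R) : Submodule R (E8 R) := Submodule.span R {p}

variable {p : E8 R}

theorem mem_Lp {y : E8 R} : y ∈ Lp p ↔ ∃ r : R, y = r • p := by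
  rw [Lp, Submodule.mem_span_singleton]
  exact ⟨fun ⟨r, h⟩ => ⟨r, h.symm⟩, fun ⟨r, h⟩ => ⟨r, h.symm⟩⟩

theorem smul_mem_Lp (r : R) : r • p ∈ Lp p := mem_Lp.2 ⟨r, rfl⟩

theorem Lp_sat (hs : Sat p) {c : R} (hc : c ≠ 0) {y : E8 R} (h : c • y ∈ Lp p) : y ∈ Lp p := by
  obtain ⟨r, hr⟩ := mem_Lp.1 h
  exact mem_Lp.2 (hs c hc y r hr)

end line

variable {R : Type*} [CommRing R] [IsDomain R] [CharZero R] {p : E8 R}

theorem br_Lp (hs : Sat p) (hp0 : p ≠ 0) {w y : E8 R} (hw : w ∈ F0 p) (hy : y ∈ Lp p) :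
    br w y ∈ Lp p := by
  obtain ⟨r, rfl⟩ := mem_Lp.1 hy
  obtain ⟨χ, h⟩ := F0_eigen hs hp0 hw
  rw [br_smul_right, h]
  exact (Lp p).smul_mem _ (smul_mem_Lp _)

theorem br_Lp_F1 (hc : Cone p) {y z : E8 R} (hy : y ∈ Lp p) (hz : z ∈ F1 p) : br y z = 0 := by
  obtain ⟨r, rfl⟩ := mem_Lp.1 hy
  rw [br_smul_left, br_p_F1 hc hz, smul_zero]

/-- `[p, e]` acts on `F1 / p` as the scalar `(p, e)` -/
theorem br_h_F1 (hc : Cone p) (hs : Sat p) (hp0 : p ≠ 0) {x : E8 R} (hx : x ∈ F1 p) (e : E8 R) :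
    br (br p e) x - kf p e • x ∈ Lp p := by
  obtain ⟨r, hr⟩ := br_p_br hc hs hp0 hx e
  have h1 := Pool.Agent.Licci.jacobi p e x
  rw [br_p_F1 hc hx, br_zero_right, add_zero, hr] at h1
  rw [← h1, add_sub_cancel_left]
  exact smul_mem_Lp r

theorem br_h_p (hc : Cone p) (e : E8 R) : br (br p e) p = (2 * kf p e) • p := by
  rw [br_skew, hc e, neg_smul, neg_neg]

theorem kf_h {v : E8 R} {χ : R} (hv : br v p = χ • p) (e : E8 R) :
    kf v (br p e) = χ * kf p e := by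
  rw [← LicciCore.kf_inv, hv, kf_smul_left]

/-- the first trace -/
theorem trace_one (hc : Cone p) (hs : Sat p) (hp0 : p ≠ 0) (ht : ∃ q : Fin 8, p (ix q) ≠ 0)
    {x w : Fin 56 → E8 R} {c : R} (h : DualFam p x w c) {e : E8 R} (he : kf p e ≠ 0)
    {v : E8 R} {χ : R} (hv : br v p = χ • p) :
    ∑ i, kf (w i) (br v (x i)) = 28 * c * χ := by
  have h1 := trace_id hc ht h (br_h_p hc e) hv
  have h2 : ∀ i, kf (w i) (br v (br (br p e) (x i))) = kf p e * kf (w i) (br v (x i)) := by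
    intro i
    obtain ⟨r, hr⟩ := mem_Lp.1 (br_h_F1 hc hs hp0 (h.x_mem i) e)
    rw [sub_eq_iff_eq_add] at hr
    rw [hr, br_add_right, br_smul_right, br_smul_right, hv, kf_add_right, kf_smul_right,
      kf_smul_right, kf_smul_right, LicciCore.kf_comm (w i) p, h.w_perp i]
    ring
  rw [Finset.sum_congr rfl fun i _ => h2 i, ← Finset.mul_sum] at h1
  have h3 : kf (br p e) v = χ * kf p e := by rw [LicciCore.kf_comm, kf_h hv]
  rw [h3] at h1
  refine mul_left_cancel₀ he ?_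
  rw [h1]
  ring

/-- the dual vectors: `V = [p, w]` modulo `p` if `[V, z] = (w, z) p` on `F1` -/
theorem eq_br_p (hc : Cone p) (hs : Sat p) (hp0 : p ≠ 0) {x w : Fin 56 → E8 R} {c : R}
    (h : DualFam p x w c) {V : E8 R} (hV : V ∈ F1 p) {y : E8 R} (hy : kf p y = 0)
    (hVy : ∀ z ∈ F1 p, br V z = kf y z • p) : V - br p y ∈ Lp p := by
  have h0 : V - br p y ∈ F1 p := by
    have h1 := F1_add hV (F1_smul (-1) (br_p_perp hc hp0 hy))
    rwa [neg_smul, one_smul, ← sub_eq_add_neg] at h1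
  have h1 : ∀ z ∈ F1 p, br (V - br p y) z = 0 := by
    intro z hz
    rw [br_sub_left, hVy z hz, br_br_p hc hp0 hy hz, sub_self]
  obtain ⟨r, hr⟩ := h.span _ h0
  refine Lp_sat hs h.ne ?_
  rw [hr]
  refine (Lp p).add_mem ((Lp p).sum_mem fun i _ => ?_) (smul_mem_Lp r)
  have h2 := br_br_p hc hp0 (h.w_perp i) h0
  have h3 := h1 _ (br_p_perp hc hp0 (h.w_perp i))
  rw [br_skew, neg_eq_zero] at h3
  rw [h3] at h2
  have h4 : kf (w i) (V - br p y) = 0 := by
    rcases smul_eq_zero.1 h2.symm with h5 | h5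
    · exact h5
    · exact absurd h5 hp0
  rw [h4, zero_smul]
  exact zero_mem _

/-- the exchange of the lift -/
theorem exch (hc : Cone p) (hs : Sat p) (hp0 : p ≠ 0) {W V y Z : E8 R} (hW : W ∈ F1 p)
    (hy : kf p y = 0) (hV : V - br p y ∈ Lp p) (hZ : Z ∈ F1 p) (e : E8 R) :
    br (br (br e W) V) Z - (kf p e • br (br y W) Z + (kf p e * kf y W) • Z) ∈ Lp p := by
  obtain ⟨s, hs1⟩ := mem_Lp.1 hV
  rw [sub_eq_iff_eq_add'] at hs1
  obtain ⟨r, hr⟩ := br_p_br hc hs hp0 hW e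
  have e1 : br (br e W) p = -(kf p e • W + r • p) := by rw [br_skew, hr]
  have e2 : br (br e W) (br p y) = -(kf p e • br W y + r • br p y) + br p (br (br e W) y) := by
    rw [Pool.Agent.Licci.jacobi (br e W) p y, e1, br_neg_left, br_add_left, br_smul_left,
      br_smul_left]
  have e3 : kf p (br (br e W) y) = kf p e * kf y W := by
    rw [← LicciCore.kf_inv, hr, kf_add_left, kf_smul_left, kf_smul_left, hy,
      LicciCore.kf_comm W y]
    ring
  obtain ⟨s', hs'⟩ := mem_Lp.1 (br_h_F1 hc hs hp0 hZ (br (br e W) y))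
  rw [sub_eq_iff_eq_add', e3] at hs'
  obtain ⟨s'', hs''⟩ := br_F1_F1 hc hs hp0 hW hZ
  have e4 : br (br (br e W) V) Z = kf p e • br (br y W) Z + (kf p e * kf y W) • Z +
      (s' - r * kf y Z - s * kf p e * s'') • p := by
    rw [hs1, br_add_right, br_smul_right, e2, e1, br_add_left, br_add_left, br_neg_left,
      br_smul_left, br_neg_left, br_add_left, br_add_left, br_smul_left, br_smul_left,
      br_smul_left, br_smul_left, hs', br_br_p hc hp0 hy hZ, br_p_F1 hc hZ, hs'',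
      br_skew W y, br_neg_left]
    module
  rw [e4, add_sub_cancel_left]
  exact smul_mem_Lp _

/-- the Casimir identity -/
theorem uf_alg (hc : Cone p) (hs : Sat p) (hp0 : p ≠ 0) (ht : ∃ q : Fin 8, p (ix q) ≠ 0)
    {x w : Fin 56 → E8 R} {c : R} (h : DualFam p x w c) {e : E8 R} (he : kf p e ≠ 0)
    {X Y Z H : E8 R} {W V G : Fin 56 → E8 R} {s : R}
    (hX : X ∈ F1 p) (hY : Y ∈ F1 p) (hZ : Z ∈ F1 p) (hXY : br X Y = s • p)
    (hW : ∀ i, W i ∈ F1 p) (hV : ∀ i, V i - br p (w i) ∈ Lp p)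
    (hWi : ∀ i, kf p e • W i + (2 : R) • br (br (br e X) Y) (x i) + (kf p e * s) • x i ∈ Lp p)
    (hH : kf p e • H + (2 : R) • br (br (br e X) Y) Z + (kf p e * s) • Z ∈ Lp p)
    (hG : ∀ i, kf p e • G i + (2 : R) • br (br (br e (W i)) (V i)) Z -
      (kf p e * kf (w i) (W i)) • Z ∈ Lp p) :
    ∑ i, G i - (24 * c) • H ∈ Lp p := by
  set P := kf p e with hP
  set u := br (br e X) Y with hu
  have hu0 : u ∈ F0 p := br_perp_F1 hc hp0 (kf_p_br hc hX e) hY
  obtain ⟨r0, hr0⟩ := br_p_br hc hs hp0 hX e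
  have hup : br u p = (-(P * s)) • p := by
    have h1 := Pool.Agent.Licci.jacobi (br e X) Y p
    have h2 : br Y p = 0 := by rw [br_skew, br_p_F1 hc hY, neg_zero]
    have h3 : br (br e X) p = -(P • X + r0 • p) := by rw [br_skew, hr0]
    rw [h2, br_zero_right, h3, br_neg_right, br_add_right, br_smul_right, br_smul_right, h2,
      smul_zero, add_zero, br_skew Y X, hXY] at h1
    have h4 := eq_sub_of_add_eq h1.symm
    rw [hu, h4]
    module
  set χ := -(P * s) with hχ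
  choose a ha using fun i => mem_Lp.1 (hWi i)
  have hPW : ∀ i, P • W i = (-2 : R) • br u (x i) + χ • x i + a i • p := by
    intro i
    have h1 := ha i
    rw [hχ, ← h1]
    module
  have hp : br u p = χ • p := hup
  have tr : ∀ {v : E8 R} {χ' : R}, br v p = χ' • p →
      P * ∑ i, kf (w i) (br v (W i)) = -(c * (24 * kf u v - 12 * χ * χ')) := by
    intro v χ' hv
    have h1 := trace_id hc ht h hp hv
    have h2 := trace_one hc hs hp0 ht h he hv
    have h3 : ∀ i, P * kf (w i) (br v (W i)) = -2 * kf (w i) (br v (br u (x i))) +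
        χ * kf (w i) (br v (x i)) := by
      intro i
      rw [← kf_smul_right, ← br_smul_right, hPW i, br_add_right, br_add_right, br_smul_right,
        br_smul_right, br_smul_right, hv, kf_add_right, kf_add_right, kf_smul_right,
        kf_smul_right, kf_smul_right, kf_smul_right, LicciCore.kf_comm (w i) p, h.w_perp i]
      ring
    rw [Finset.mul_sum, Finset.sum_congr rfl fun i _ => h3 i, Finset.sum_add_distrib,
      ← Finset.mul_sum, ← Finset.mul_sum, h1, h2]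
    ring
  have hsum0 : ∑ i, kf (w i) (W i) = 0 := by
    have h2 := trace_one hc hs hp0 ht h he hp
    have h3 : ∀ i, P * kf (w i) (W i) = -2 * kf (w i) (br u (x i)) + χ * c := by
      intro i
      rw [← kf_smul_right, hPW i, kf_add_right, kf_add_right, kf_smul_right, kf_smul_right,
        kf_smul_right, LicciCore.kf_comm (w i) p, h.w_perp i, h.pair i i, if_pos rfl]
      ring
    have h4 : P * ∑ i, kf (w i) (W i) = 0 := by
      rw [Finset.mul_sum, Finset.sum_congr rfl fun i _ => h3 i, Finset.sum_add_distrib,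
        ← Finset.mul_sum, h2, Finset.sum_const, Finset.card_univ, Fintype.card_fin]
      simp only [nsmul_eq_mul]
      push_cast
      ring
    exact (mul_eq_zero.1 h4).resolve_left he
  set T : E8 R := ∑ i, br (w i) (W i) with hT
  have ht1 : P • P • T - (12 * c) • ((2 * P) • u - χ • br p e) ∈ F1 p := by
    intro v hv
    obtain ⟨χ', hv'⟩ := F0_eigen hs hp0 hv
    have h1 : kf T v = -∑ i, kf (w i) (br v (W i)) := by
      rw [hT, kf_sum_left, ← Finset.sum_neg_distrib]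
      refine Finset.sum_congr rfl fun i _ => ?_
      rw [LicciCore.kf_inv, br_skew, kf_neg_right]
    have h2 := tr hv'
    have h3 := kf_h hv' e
    rw [kf_sub_left, kf_smul_left, kf_smul_left, kf_smul_left, kf_sub_left, kf_smul_left,
      kf_smul_left, h1, LicciCore.kf_comm (br p e) v, h3]
    linear_combination (-P) * h2
  have htZ : br (P • P • T - (12 * c) • ((2 * P) • u - χ • br p e)) Z ∈ Lp p :=
    mem_Lp.2 (br_F1_F1 hc hs hp0 ht1 hZ)
  have hhZ := br_h_F1 hc hs hp0 hZ e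
  have hex : ∀ i, br (br (br e (W i)) (V i)) Z -
      (P • br (br (w i) (W i)) Z + (P * kf (w i) (W i)) • Z) ∈ Lp p := fun i =>
    exch hc hs hp0 (hW i) (h.w_perp i) (hV i) hZ e
  have hG1 : ∀ i, P • G i + (2 * P) • br (br (w i) (W i)) Z + (P * kf (w i) (W i)) • Z ∈ Lp p := by
    intro i
    have h1 := (Lp p).sub_mem (hG i) ((Lp p).smul_mem 2 (hex i))
    convert h1 using 1
    module
  have hG2 : P • ∑ i, G i + (2 * P) • br T Z ∈ Lp p := by
    have h1 := (Lp p).sum_mem (t := Finset.univ) fun i _ => hG1 i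
    rw [Finset.sum_add_distrib, Finset.sum_add_distrib, ← Finset.smul_sum, ← Finset.smul_sum,
      ← Finset.sum_smul, ← Finset.mul_sum, hsum0, mul_zero, zero_smul, add_zero,
      ← br_sum_left] at h1
    exact h1
  refine Lp_sat hs (mul_ne_zero he he) ?_
  rw [br_sub_left, br_smul_left, br_smul_left, br_smul_left, br_sub_left, br_smul_left,
    br_smul_left] at htZ
  have h1 := (Lp p).smul_mem P hG2
  have h2 := (Lp p).smul_mem (-2 : R) htZ
  have h3 := (Lp p).smul_mem (24 * c * χ) hhZ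
  have h4 := (Lp p).smul_mem (-(24 * c * P)) hH
  have h5 := (Lp p).add_mem ((Lp p).add_mem ((Lp p).add_mem h1 h2) h3) h4
  convert h5 using 1
  rw [hχ]
  module

end LicciCore.UF

end
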