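import Pool.Agent.Work.MP_a98e4e_ag.Fu.E.Theta
import Pool.Agent.Work.MP_a98e4e_ag.Fu.Cx.Cone
import Pool.Agent.Work.MP_a98e4e_ag.Fu.Core.UFalg
import Pool.Agent.Work.MP_a98e4e_ag.Fu.Core.GSp
import Pool.Agent.Work.MP_a98e4e_ag.Fu.Core.KFacts

section

/-!
# The class of a cocycle of `G`
-/

set_option autoImplicit false
set_option linter.unusedSectionVars false

open Matrix Kronecker RingTheory.Sequence IsLocalRing

namespace LicciCore

open LicciCx Cx Pool.Agent.Licci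

universe u

namespace CoreData

variable {R : Type u} [CommRing R] [IsDomain R] [IsLocalRing R] {p : Fin 248 → R}
  {a : Fin 6 → R} {J : Type} [Fintype J] [DecidableEq J] (D : CoreData R p a J)

/-- the homotopy of a dual -/
theorem dual_homotopy {J : Type*} [Fintype J] [DecidableEq J] {K : Cx R J} {h : Matrix J J R}
    (hh : IsHmg K K (-1) h) :
    K.dual.d * (K.e * h)ᵀ + (K.e * h)ᵀ * K.dual.d = (K.d * h + h * K.d)ᵀ := by
  have heh : K.e * h = -(h * K.e) := ep_mul_odd' hh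
  rw [dual_d, Matrix.neg_mul, Matrix.mul_neg, ← Matrix.transpose_mul, ← Matrix.transpose_mul,
    ← Matrix.transpose_neg, ← Matrix.transpose_neg, ← Matrix.transpose_add]
  congr 1
  have a1 : K.e * h * (K.e * K.d) = -(h * K.d) := by
    rw [heh, Matrix.neg_mul, Matrix.mul_assoc, ← Matrix.mul_assoc K.e K.e, K.e_mul_self,
      Matrix.one_mul]
  have a2 : K.e * K.d * (K.e * h) = -(K.d * h) := by
    rw [K.e_mul_d, Matrix.neg_mul, Matrix.mul_assoc, ← Matrix.mul_assoc K.e K.e, K.e_mul_self,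
      Matrix.one_mul]
  rw [a1, a2, neg_neg, neg_neg, add_comm]

/-! ### cocycles and boundaries of `G` -/

theorem G_d_mulVec (S : Setup R p a) (w : Fin 248 → R) (x e : Unit ⊕ J → R) :
    (D.G S).d *ᵥ Sum.elim (Sum.elim w x) e =
      Sum.elim (Sum.elim (D.u *ᵥ x) (-(D.X2.d *ᵥ x)))
        ((D.uᵀ * kM R) *ᵥ w + D.kap S *ᵥ x - D.X2.dual.d *ᵥ e) := by
  rw [G, fib_d, JJ, cone_d, jj, Matrix.fromBlocks_mulVec]
  rw [Sum.elim_comp_inl, Sum.elim_comp_inr, Matrix.fromBlocks_mulVec, Matrix.fromCols_mulVec]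
  rw [Sum.elim_comp_inl, Sum.elim_comp_inr]
  simp [Matrix.neg_mulVec, sub_eq_add_neg]

theorem u_mulVec_of_vh {x : Unit ⊕ J → R} (hx : Vh D.X2 1 x) : D.u *ᵥ x = 0 := by
  ext i
  exact (Vh.mulVec (n := 0) (m := 1) D.cl_u.hmg hx) i (by simp)

theorem d_mulVec_of_vh {x : Unit ⊕ J → R} (hx : Vh D.X2 1 x) : D.X2.d *ᵥ x = 0 := by
  ext i
  exact (Vh.mulVec (n := 1) (m := 1) D.X2.hmg hx) i (by have := D.X2_deg_le i; omega)

theorem mem_Z0_G (S : Setup R p a) {w : Fin 248 → R} {x e : Unit ⊕ J → R} :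
    Sum.elim (Sum.elim w x) e ∈ (D.G S).Z0 ↔ Vh D.X2 1 x ∧ Vh D.X2 1 e ∧
      (D.uᵀ * kM R) *ᵥ w + D.kap S *ᵥ x = D.X2.dual.d *ᵥ e := by
  constructor
  · rintro ⟨h1, h2⟩
    refine ⟨?_, ?_, ?_⟩
    · intro j hj
      exact h1 (Sum.inl (Sum.inr j)) (by
        show D.X2.deg j + (-1) ≠ 0
        omega)
    · intro j hj
      exact h1 (Sum.inr j) (by
        show -D.X2.deg j + 1 ≠ 0
        omega)
    · rw [G_d_mulVec] at h2
      have h3 := congrArg (fun f => f ∘ Sum.inr) h2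
      simp only [Sum.elim_comp_inr] at h3
      exact sub_eq_zero.1 (h3.trans rfl)
  · rintro ⟨h1, h2, h3⟩
    refine ⟨?_, ?_⟩
    · rintro ((j | j) | j) hj
      · exact (hj rfl).elim
      · exact h1 j (by
          intro h4; apply hj
          show D.X2.deg j + (-1) = 0
          omega)
      · exact h2 j (by
          intro h4; apply hj
          show -D.X2.deg j + 1 = 0
          omega)
    · rw [G_d_mulVec, D.u_mulVec_of_vh h1, D.d_mulVec_of_vh h1, h3, sub_self, neg_zero]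
      ext ((j | j) | j) <;> rfl

theorem mem_B0_G (S : Setup R p a) {w : Fin 248 → R} {x e : Unit ⊕ J → R} :
    Sum.elim (Sum.elim w x) e ∈ (D.G S).B0 ↔ ∃ v, Vh D.X2 0 v ∧ w = D.u *ᵥ v ∧
      x = -(D.X2.d *ᵥ v) ∧ e = D.kap S *ᵥ v := by
  constructor
  · rintro ⟨y, hy, h⟩
    obtain ⟨w', x', e', rfl⟩ : ∃ (w' : Fin 248 → R) (x' e' : Unit ⊕ J → R),
        y = Sum.elim (Sum.elim w' x') e' :=
      ⟨(y ∘ Sum.inl) ∘ Sum.inl, (y ∘ Sum.inl) ∘ Sum.inr, y ∘ Sum.inr, by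
        ext ((j | j) | j) <;> rfl⟩
    have hw' : w' = 0 := by
      ext j
      exact hy (Sum.inl (Sum.inl j)) (by show (0 : ℤ) ≠ -1; norm_num)
    have he' : e' = 0 := by
      ext j
      exact hy (Sum.inr j) (by
        show -D.X2.deg j + 1 ≠ -1
        have := D.X2_deg_le j; omega)
    have hx' : Vh D.X2 0 x' := by
      intro j hj
      exact hy (Sum.inl (Sum.inr j)) (by show D.X2.deg j + (-1) ≠ -1; omega)
    rw [G_d_mulVec, hw', he', Matrix.mulVec_zero, Matrix.mulVec_zero, zero_add, sub_zero] at h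
    refine ⟨x', hx', ?_, ?_, ?_⟩
    · exact (congrArg (fun f => (f ∘ Sum.inl) ∘ Sum.inl) h).symm
    · exact (congrArg (fun f => (f ∘ Sum.inl) ∘ Sum.inr) h).symm
    · exact (congrArg (fun f => f ∘ Sum.inr) h).symm
  · rintro ⟨v, hv, rfl, rfl, rfl⟩
    refine ⟨Sum.elim (Sum.elim 0 v) 0, ?_, ?_⟩
    · rintro ((j | j) | j) hj
      · rfl
      · exact hv j (by
          intro h4; apply hj
          show D.X2.deg j + (-1) = -1
          omega)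
      · rfl
    · rw [G_d_mulVec, Matrix.mulVec_zero, Matrix.mulVec_zero, zero_add, sub_zero]

theorem exists_elim (g : (Fin 248 ⊕ (Unit ⊕ J)) ⊕ (Unit ⊕ J) → R) :
    ∃ (w : Fin 248 → R) (x e : Unit ⊕ J → R), g = Sum.elim (Sum.elim w x) e :=
  ⟨(g ∘ Sum.inl) ∘ Sum.inl, (g ∘ Sum.inl) ∘ Sum.inr, g ∘ Sum.inr, by
    ext ((j | j) | j) <;> rfl⟩

/-! ### pairings -/

/-- cocycles are orthogonal to boundaries of the dual -/
theorem dot_dual_d {y : Unit ⊕ J → R} (hy : y ∈ D.X2.Z0) (e : Unit ⊕ J → R) :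
    y ⬝ᵥ (D.X2.dual.d *ᵥ e) = 0 := by
  rw [dual_d, Matrix.neg_mulVec, dotProduct_neg, Matrix.mulVec_transpose, dotProduct_comm,
    ← Matrix.dotProduct_mulVec, ← Matrix.mulVec_mulVec, hy.2, Matrix.mulVec_zero,
    dotProduct_zero, neg_zero]

theorem kf_u (y : Unit ⊕ J → R) (w : Fin 248 → R) :
    kf (D.u *ᵥ y) w = y ⬝ᵥ ((D.uᵀ * kM R) *ᵥ w) := by
  rw [kf_eq, ← Matrix.mulVec_mulVec, Matrix.mulVec_transpose, dotProduct_comm y,
    ← Matrix.dotProduct_mulVec, dotProduct_comm]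

/-- `c w + u v` for a cocycle `((w, x), e)` of `G` and `c x = d v` -/
theorem F0_of_cocycle (S : Setup R p a) {w : Fin 248 → R} {x e : Unit ⊕ J → R}
    (h : (D.uᵀ * kM R) *ᵥ w + D.kap S *ᵥ x = D.X2.dual.d *ᵥ e) {c : R} {v : Unit ⊕ J → R}
    (hv : c • x = D.X2.d *ᵥ v) : c • w + D.u *ᵥ v ∈ F0 p := by
  have := S.char0
  have hp0 : p ≠ 0 := by
    obtain ⟨q, hq⟩ := S.top
    intro h0; exact hq (by rw [h0]; rfl)
  rw [F0_iff S.cone hp0]
  intro x' hx'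
  obtain ⟨y, hy, rfl⟩ := D.u_surj hx'
  rw [kf_comm, kf_u, Matrix.mulVec_add, dotProduct_add, Matrix.mulVec_smul, dotProduct_smul,
    Matrix.mulVec_mulVec, (D.exists_kap S).choose_spec.2]
  have h1 : y ⬝ᵥ ((D.uᵀ * kM R) *ᵥ w) = -(y ⬝ᵥ (D.kap S *ᵥ x)) := by
    have h2 := congrArg (fun f => y ⬝ᵥ f) h
    simp only [dotProduct_add, D.dot_dual_d hy] at h2
    exact eq_neg_of_add_eq_zero_left h2
  rw [h1, Matrix.add_mulVec, dotProduct_add, ← Matrix.mulVec_mulVec, D.dot_dual_d hy, zero_add,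
    ← Matrix.mulVec_mulVec, ← hv, Matrix.mulVec_smul, dotProduct_smul]
  show c • -(y ⬝ᵥ (D.kap S *ᵥ x)) + c • (y ⬝ᵥ (D.kap S *ᵥ x)) = 0
  rw [smul_neg, neg_add_cancel]

/-! ### the class of a cocycle of `G` in `F⁰ / F¹` -/

/-- `ev ((w, x), e) = c0 w + M x` represents `c0` times the class -/
theorem exists_ev_loc (S : Setup R p a) (i : Fin 6) : ∃ n : ℕ,
    ∃ M : Matrix (Fin 248) (Unit ⊕ J) R,
    (∀ g ∈ (D.G S).Z0, Matrix.fromCols (Matrix.fromCols (a i ^ n • 1) M) 0 *ᵥ g ∈ F0 p) ∧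
    (∀ g ∈ (D.G S).Z0, Matrix.fromCols (Matrix.fromCols (a i ^ n • 1) M) 0 *ᵥ g ∈ F1 p →
      g ∈ (D.G S).BT) ∧
    (∀ g ∈ (D.G S).BT, Matrix.fromCols (Matrix.fromCols (a i ^ n • 1) M) 0 *ᵥ g ∈ F1 p) := by
  have := S.char0
  obtain ⟨N, h, hh⟩ := D.ue_X2 i
  have hc : a i ^ N ≠ 0 := pow_ne_zero _ (S.ne i)
  refine ⟨N, D.u * h, ?_⟩
  generalize a i ^ N = c at hc hh
  have hev : ∀ (w : Fin 248 → R) (x e : Unit ⊕ J → R),
      Matrix.fromCols (Matrix.fromCols (c • 1) (D.u * h)) 0 *ᵥ Sum.elim (Sum.elim w x) e =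
        c • w + D.u *ᵥ (h *ᵥ x) := by
    intro w x e
    rw [Matrix.fromCols_mulVec, Sum.elim_comp_inl, Matrix.fromCols_mulVec, Sum.elim_comp_inl,
      Sum.elim_comp_inr, Matrix.zero_mulVec, add_zero, Matrix.smul_mulVec, Matrix.one_mulVec,
      Matrix.mulVec_mulVec]
  have hx1 : ∀ x, Vh D.X2 1 x → c • x = D.X2.d *ᵥ (h *ᵥ x) := fun x hx =>
    hh.vec_bd (by norm_num) hx (D.d_mulVec_of_vh hx)
  refine ⟨?_, ?_, ?_⟩
  · intro g hg
    obtain ⟨w, x, e, rfl⟩ := exists_elim g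
    rw [mem_Z0_G] at hg
    rw [hev]
    exact D.F0_of_cocycle S hg.2.2 (hx1 x hg.1)
  · intro g hg hF
    obtain ⟨w, x, e, rfl⟩ := exists_elim g
    rw [mem_Z0_G] at hg
    rw [hev] at hF
    obtain ⟨y, hy, hu⟩ := D.u_surj hF
    have hv0 : Vh D.X2 0 (y - h *ᵥ x) := by
      intro j hj
      have h1 : Vh D.X2 (1 + -1) (h *ᵥ x) := Vh.hmg_mulVec hh.hmg hg.1
      rw [Pi.sub_apply, hy.1 j hj, h1 j (by simpa using hj), sub_zero]
    have hu' : D.u *ᵥ (y - h *ᵥ x) = c • w := by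
      rw [Matrix.mulVec_sub, hu]; abel
    have hd' : D.X2.d *ᵥ (y - h *ᵥ x) = -(c • x) := by
      rw [Matrix.mulVec_sub, hy.2, zero_sub, ← hx1 x hg.1]
    have hδ : c • e = D.kap S *ᵥ (y - h *ᵥ x) := by
      have hδ1 : Vh D.X2.dual (-1) (c • e - D.kap S *ᵥ (y - h *ᵥ x)) := by
        intro j hj
        have h1 : Vh D.X2.dual (0 + -1) (D.kap S *ᵥ (y - h *ᵥ x)) :=
          Vh.hmg_mulVec (D.exists_kap S).choose_spec.1 hv0
        rw [Pi.sub_apply, h1 j (by simpa using hj), Pi.smul_apply, hg.2.1 j (by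
          rw [dual_deg] at hj; omega), smul_zero, sub_zero]
      have hδ2 : D.X2.dual.d *ᵥ (c • e - D.kap S *ᵥ (y - h *ᵥ x)) = 0 := by
        have h1 : D.X2.dual.d *ᵥ (D.kap S *ᵥ (y - h *ᵥ x)) =
            (D.uᵀ * kM R) *ᵥ (D.u *ᵥ (y - h *ᵥ x)) - D.kap S *ᵥ (D.X2.d *ᵥ (y - h *ᵥ x)) := by
          rw [Matrix.mulVec_mulVec, Matrix.mulVec_mulVec, Matrix.mulVec_mulVec,
            (D.exists_kap S).choose_spec.2, Matrix.add_mulVec]
          exact (add_sub_cancel_right _ _).symm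
        rw [Matrix.mulVec_sub, h1, hu', hd', Matrix.mulVec_smul, ← hg.2.2, Matrix.mulVec_smul,
          Matrix.mulVec_neg, Matrix.mulVec_smul, smul_add]
        abel
      have h3 := hh.dual.vec_bd (by norm_num) hδ1 hδ2
      have h4 : Vh D.X2.dual (-1 + -1) ((D.X2.e * h)ᵀ *ᵥ (c • e - D.kap S *ᵥ (y - h *ᵥ x))) :=
        Vh.hmg_mulVec hh.dual.hmg hδ1
      have h5 : (D.X2.e * h)ᵀ *ᵥ (c • e - D.kap S *ᵥ (y - h *ᵥ x)) = 0 := by
        ext j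
        exact h4 j (by rw [dual_deg]; have := D.X2_deg_le j; omega)
      rw [h5, Matrix.mulVec_zero, smul_eq_zero] at h3
      exact sub_eq_zero.1 (h3.resolve_left hc)
    refine ⟨c, hc, ?_⟩
    have h1 : c • (Sum.elim (Sum.elim w x) e : (Fin 248 ⊕ (Unit ⊕ J)) ⊕ (Unit ⊕ J) → R) =
        Sum.elim (Sum.elim (c • w) (c • x)) (c • e) := by
      ext ((j | j) | j) <;> rfl
    rw [h1, mem_B0_G]
    exact ⟨_, hv0, hu'.symm, by rw [hd', neg_neg], hδ⟩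
  · rintro g ⟨s, hs, hb⟩
    obtain ⟨w, x, e, rfl⟩ := exists_elim g
    have h1 : s • (Sum.elim (Sum.elim w x) e : (Fin 248 ⊕ (Unit ⊕ J)) ⊕ (Unit ⊕ J) → R) =
        Sum.elim (Sum.elim (s • w) (s • x)) (s • e) := by
      ext ((j | j) | j) <;> rfl
    rw [h1, mem_B0_G] at hb
    obtain ⟨v, hv, hw, hx, he⟩ := hb
    rw [hev]
    refine F1_of_smul hs ?_
    have h2 : s • (c • w + D.u *ᵥ (h *ᵥ x)) = D.u *ᵥ (c • v - h *ᵥ (D.X2.d *ᵥ v)) := by
      rw [smul_add, smul_comm s c, hw, ← Matrix.mulVec_smul D.u c, ← Matrix.mulVec_smul D.u s,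
        ← Matrix.mulVec_smul h s, hx, Matrix.mulVec_sub, Matrix.mulVec_neg, Matrix.mulVec_neg]
      abel
    rw [h2]
    refine D.u_mem S ⟨?_, ?_⟩
    · intro j hj
      have h3 : Vh D.X2 (0 + 1 + -1) (h *ᵥ (D.X2.d *ᵥ v)) :=
        Vh.hmg_mulVec hh.hmg (Vh.hmg_mulVec D.X2.hmg hv)
      rw [Pi.sub_apply, Pi.smul_apply, hv j hj, smul_zero, h3 j (by simpa using hj), sub_zero]
    · have h3 : D.X2.d * (c • (1 : Matrix (Unit ⊕ J) (Unit ⊕ J) R) - h * D.X2.d) = 0 := by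
        have h4 := hh.d_pr
        rw [pr] at h4
        have h5 : c • (1 : Matrix (Unit ⊕ J) (Unit ⊕ J) R) - h * D.X2.d =
            (c • 1 - (D.X2.d * h + h * D.X2.d)) + D.X2.d * h := by abel
        rw [h5, Matrix.mul_add, h4, ← Matrix.mul_assoc, D.X2.sq, Matrix.zero_mul, zero_add]
      have h4 : c • v - h *ᵥ (D.X2.d *ᵥ v) =
          (c • (1 : Matrix (Unit ⊕ J) (Unit ⊕ J) R) - h * D.X2.d) *ᵥ v := by
        rw [Matrix.sub_mulVec, Matrix.smul_mulVec, Matrix.one_mulVec, Matrix.mulVec_mulVec]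
      rw [h4, Matrix.mulVec_mulVec, h3, Matrix.zero_mulVec]

/-- `ev ((w, x), e) = c0 w + M x` represents `c0` times the class -/
theorem exists_ev (S : Setup R p a) : ∃ c0 : R, c0 ≠ 0 ∧ ∃ M : Matrix (Fin 248) (Unit ⊕ J) R,
    (∀ g ∈ (D.G S).Z0, Matrix.fromCols (Matrix.fromCols (c0 • 1) M) 0 *ᵥ g ∈ F0 p) ∧
    (∀ g ∈ (D.G S).Z0, Matrix.fromCols (Matrix.fromCols (c0 • 1) M) 0 *ᵥ g ∈ F1 p →
      g ∈ (D.G S).BT) ∧
    (∀ g ∈ (D.G S).BT, Matrix.fromCols (Matrix.fromCols (c0 • 1) M) 0 *ᵥ g ∈ F1 p) := by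
  obtain ⟨n, M, h⟩ := D.exists_ev_loc S 0
  exact ⟨a 0 ^ n, pow_ne_zero _ (S.ne 0), M, h⟩

noncomputable def c0 (S : Setup R p a) : R := (D.exists_ev S).choose

noncomputable def ev (S : Setup R p a) :
    Matrix (Fin 248) ((Fin 248 ⊕ (Unit ⊕ J)) ⊕ (Unit ⊕ J)) R :=
  Matrix.fromCols (Matrix.fromCols (D.c0 S • 1) (D.exists_ev S).choose_spec.2.choose) 0

/-- local sections `F⁰ → Z⁰(G)`; the first component of `inc w` is `(a i ^ n • w, 0)` -/
theorem exists_inc (S : Setup R p a) (i : Fin 6) : ∃ n : ℕ,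
    ∃ N : Matrix (Unit ⊕ J) (Fin 248) R, ∀ w ∈ F0 p,
      Matrix.fromRows (Matrix.fromRows (a i ^ n • 1) 0) N *ᵥ w ∈ (D.G S).Z0 := by
  have := S.char0
  have hp0 : p ≠ 0 := by
    obtain ⟨q, hq⟩ := S.top
    intro h0; exact hq (by rw [h0]; rfl)
  obtain ⟨n, h, hh⟩ := D.ue_X2 i
  refine ⟨n, (D.X2.e * h)ᵀ * (D.uᵀ * kM R), fun w hw => ?_⟩
  rw [Matrix.fromRows_mulVec, Matrix.fromRows_mulVec, Matrix.smul_mulVec, Matrix.one_mulVec,
    Matrix.zero_mulVec, mem_Z0_G, ← Matrix.mulVec_mulVec]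
  have hl0 : Vh D.X2.dual (0 + 0) ((D.uᵀ * kM R) *ᵥ w) :=
    Vh.hmg_mulVec (K := free R (Fin 248) 0) D.cl_ut.hmg (fun j hj => (hj rfl).elim)
  have hl1 : D.X2.dual.d *ᵥ ((D.uᵀ * kM R) *ᵥ w) = 0 := by
    rw [Matrix.mulVec_mulVec, D.cl_ut.comm0, free_d, Matrix.mul_zero, Matrix.zero_mulVec]
  refine ⟨fun _ _ => rfl, ?_, ?_⟩
  · intro j hj
    exact Vh.hmg_mulVec hh.dual.hmg hl0 j (by rw [dual_deg]; omega)
  · have h1 := dual_homotopy hh.hmg
    have h2 := congrArg (fun f => f *ᵥ ((D.uᵀ * kM R) *ᵥ w)) h1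
    simp only [Matrix.add_mulVec] at h2
    rw [← Matrix.mulVec_mulVec _ D.X2.dual.d, ← Matrix.mulVec_mulVec _ (D.X2.e * h)ᵀ D.X2.dual.d,
      hl1, Matrix.mulVec_zero, add_zero] at h2
    rw [h2, Matrix.mulVec_zero, add_zero, Matrix.mulVec_smul]
    ext j
    have h3 : (fun k => D.X2.pr (a i ^ n) h k j) ∈ D.X2.Z0 := by
      refine ⟨fun k hk => hh.sup k j (by rintro ⟨h4, -⟩; exact hk h4), ?_⟩
      ext k
      exact congrFun (congrFun hh.d_pr k) j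
    have h4 : kf w (D.u *ᵥ (fun k => D.X2.pr (a i ^ n) h k j)) = 0 :=
      (F0_iff S.cone hp0).1 hw _ (D.u_mem S h3)
    rw [kf_comm, kf_u] at h4
    have h5 : ((a i ^ n • (1 : Matrix (Unit ⊕ J) (Unit ⊕ J) R) - (D.X2.d * h + h * D.X2.d))ᵀ *ᵥ
        ((D.uᵀ * kM R) *ᵥ w)) j = 0 := h4
    rw [Matrix.transpose_sub, Matrix.sub_mulVec, Matrix.transpose_smul, Matrix.transpose_one,
      Matrix.smul_mulVec, Matrix.one_mulVec, Pi.sub_apply, sub_eq_zero] at h5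
    exact h5

end CoreData

end LicciCore

end

section

/-!
# The bracket
-/

set_option autoImplicit false
set_option linter.unusedSectionVars false

open Matrix Kronecker RingTheory.Sequence IsLocalRing

namespace LicciCore

open LicciCx Cx Pool.Agent.Licci

universe u

namespace CoreData

variable {R : Type u} [CommRing R] [IsDomain R] [IsLocalRing R] {p : Fin 248 → R}
  {a : Fin 6 → R} {J : Type} [Fintype J] [DecidableEq J] (D : CoreData R p a J)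

theorem c0_ne (S : Setup R p a) : D.c0 S ≠ 0 := (D.exists_ev S).choose_spec.1

theorem ev_mem_F0 (S : Setup R p a) {g} (hg : g ∈ (D.G S).Z0) : D.ev S *ᵥ g ∈ F0 p :=
  (D.exists_ev S).choose_spec.2.choose_spec.1 g hg

theorem bt_of_ev (S : Setup R p a) {g} (hg : g ∈ (D.G S).Z0) (h : D.ev S *ᵥ g ∈ F1 p) :
    g ∈ (D.G S).BT :=
  (D.exists_ev S).choose_spec.2.choose_spec.2.1 g hg h

theorem ev_mem_F1 (S : Setup R p a) {g} (hg : g ∈ (D.G S).BT) : D.ev S *ᵥ g ∈ F1 p :=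
  (D.exists_ev S).choose_spec.2.choose_spec.2.2 g hg

/-- `ev` of a local section -/
theorem ev_inc (S : Setup R p a) (c : R) (N : Matrix (Unit ⊕ J) (Fin 248) R) (w : Fin 248 → R) :
    D.ev S *ᵥ (Matrix.fromRows (Matrix.fromRows (c • (1 : Matrix (Fin 248) (Fin 248) R)) 0) N *ᵥ w)
      = (D.c0 S * c) • w := by
  rw [Matrix.mulVec_mulVec, CoreData.ev, Matrix.fromCols_mul_fromRows,
    Matrix.fromCols_mul_fromRows]
  simp [Matrix.smul_mulVec, smul_smul, mul_comm]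

theorem pcol_mulVec (p : Fin 248 → R) (y : Unit → R) : pcol p *ᵥ y = y () • p := by
  funext i
  simp [pcol, Matrix.mulVec, dotProduct, mul_comm]

theorem prX_mulVec (y : Unit ⊕ J → R) : prX R J *ᵥ y = fun j => y (Sum.inr j) := by
  rw [prX, Matrix.fromCols_mulVec, Matrix.zero_mulVec, Matrix.one_mulVec, zero_add]
  rfl

/-- a vector of `p^⊥` orthogonal to `aa z` for all cocycles `z` lies in `F⁰` -/
theorem mem_F0_of_orth (S : Setup R p a) {w : Fin 248 → R} (hp : kf p w = 0)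
    (h : ∀ z ∈ D.X.Z0, kf w (D.aa *ᵥ z) = 0) : w ∈ F0 p := by
  have := S.char0
  rw [F0_iff S.cone S.p_ne]
  intro x hx
  obtain ⟨z, hz, r, rfl⟩ := D.surj x hx
  have h1 : kf w (D.aa *ᵥ z + r • p) = kf w (D.aa *ᵥ z) + r * kf w p := by
    rw [kf_eq, Matrix.mulVec_add, Matrix.mulVec_smul, dotProduct_add, dotProduct_smul, ← kf_eq,
      ← kf_eq, smul_eq_mul]
  rw [h1, h z hz, kf_comm w p, hp, mul_zero, add_zero]

/-- local representatives in `W` of the functionals on `X⁰` -/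
theorem exists_wl (S : Setup R p a) (i : Fin 6) : ∃ n : ℕ, ∃ wl : Matrix (Fin 248) J R,
    (∀ l ∈ D.X.dual.Z0, kf p (wl *ᵥ l) = 0 ∧
      ∀ z ∈ D.X.Z0, kf (wl *ᵥ l) (D.aa *ᵥ z) = a i ^ n * (l ⬝ᵥ z)) ∧
    (∀ l ∈ D.X.dual.B0, wl *ᵥ l ∈ F0 p) := by
  have := S.char0
  obtain ⟨n, sg, h1, h2, h3⟩ := D.exists_sig S i
  obtain ⟨kI, hk1, hk2⟩ := exists_kM_inv (R := R)
  have hdot : ∀ (l : J → R) (x : Fin 248 → R), kf ((prX R J * sg * kI)ᵀ *ᵥ l) x =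
      l ⬝ᵥ (prX R J *ᵥ (sg *ᵥ x)) := by
    intro l x
    rw [kf_eq, Matrix.mulVec_transpose, ← Matrix.dotProduct_mulVec, Matrix.mulVec_mulVec,
      Matrix.mul_assoc, hk2, Matrix.mul_one, ← Matrix.mulVec_mulVec]
  have hu : ∀ l ∈ D.X.dual.Z0, ∀ y ∈ D.X2.Z0,
      kf ((prX R J * sg * kI)ᵀ *ᵥ l) (D.u *ᵥ y) = a i ^ n * (l ⬝ᵥ (prX R J *ᵥ y)) := by
    intro l hl y hy
    rw [hdot]
    have e1 : sg *ᵥ (D.u *ᵥ y) - a i ^ n • y ∈ D.X2.B0 := by
      refine D.u_ker (sub_mem (h1 _) (D.X2.Z0.smul_mem _ hy)) ?_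
      rw [Matrix.mulVec_sub, Matrix.mulVec_smul, h3 _ (D.u_mem S hy), sub_self]
    have e2 := dual_dot_B0 hl (Cl.mem_B0 D.cl_prX e1)
    rw [Matrix.mulVec_sub, Matrix.mulVec_smul, dotProduct_sub, dotProduct_smul, sub_eq_zero,
      smul_eq_mul] at e2
    exact e2
  refine ⟨n, (prX R J * sg * kI)ᵀ, ?_, ?_⟩
  · intro l hl
    refine ⟨?_, ?_⟩
    · have hy : (Sum.elim (fun _ => 1) 0 : Unit ⊕ J → R) ∈ D.X2.Z0 := by
        rw [D.mem_Z0_X2]
        exact zero_mem _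
      have := hu l hl _ hy
      rw [D.u_mulVec, prX_mulVec] at this
      have e0 : (fun j : J => (Sum.elim (fun _ => 1) 0 : Unit ⊕ J → R) (Sum.inr j)) = 0 := rfl
      have e1 : (Sum.elim (fun _ => 1) 0 : Unit ⊕ J → R) (Sum.inl ()) = 1 := rfl
      rw [e0, e1, Matrix.mulVec_zero, zero_add, dotProduct_zero, mul_zero, one_smul] at this
      rw [kf_comm, this]
    · intro z hz
      have hy : (Sum.elim (fun _ => 0) z : Unit ⊕ J → R) ∈ D.X2.Z0 := by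
        rw [D.mem_Z0_X2]
        exact hz
      have := hu l hl _ hy
      rw [D.u_mulVec, prX_mulVec] at this
      have e0 : (fun j : J => (Sum.elim (fun _ => 0) z : Unit ⊕ J → R) (Sum.inr j)) = z := rfl
      have e1 : (Sum.elim (fun _ => 0) z : Unit ⊕ J → R) (Sum.inl ()) = 0 := rfl
      rw [e0, e1, zero_smul, add_zero] at this
      exact this
  · intro l hl
    rw [F0_iff S.cone S.p_ne]
    intro x _
    rw [hdot]
    exact dual_B0_dot hl (Cl.mem_Z0 D.cl_prX (h1 x))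

/-! ### the bracket `F⁻¹ ⊗ F¹ → F⁰` and the action -/

theorem exists_Dh (S : Setup R p a) :
    ∃ Dh : Matrix ((Fin 248 ⊕ (Unit ⊕ J)) ⊕ (Unit ⊕ J)) (J × J) R,
      Cl (D.X.dual.tensor D.X) (D.G S) 0 Dh ∧
      ∀ l ∈ D.X.dual.Z0, ∀ z ∈ D.X.Z0, ∀ (w : Fin 248 → R) (c : R), kf p w = 0 →
        (∀ z' ∈ D.X.Z0, kf w (D.aa *ᵥ z') = c * (l ⬝ᵥ z')) →
        c • (D.ev S *ᵥ (Dh *ᵥ tv l z)) - D.c0 S • br w (D.aa *ᵥ z) ∈ F1 p := by
  have hch := S.char0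
  have hp0 := S.p_ne
  choose n wl hwl hwl' using D.exists_wl S
  choose m N hN using D.exists_inc S
  let I : Fin 6 → Matrix ((Fin 248 ⊕ (Unit ⊕ J)) ⊕ (Unit ⊕ J)) (Fin 248) R := fun i =>
    Matrix.fromRows (Matrix.fromRows (a i ^ m i • 1) 0) (N i)
  let Φ : Fin 6 → Matrix ((Fin 248 ⊕ (Unit ⊕ J)) ⊕ (Unit ⊕ J)) (J × J) R := fun i =>
    I i * brM R * (wl i ⊗ₖ D.aa)
  have hΦ : ∀ i l z, Φ i *ᵥ vk l z = I i *ᵥ br (wl i *ᵥ l) (D.aa *ᵥ z) := by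
    intro i l z
    show (I i * brM R * (wl i ⊗ₖ D.aa)) *ᵥ vk l z = _
    rw [← Matrix.mulVec_mulVec, ← Matrix.mulVec_mulVec, kron_mulVec_vk, brM_vk]
  have hevI : ∀ i x, D.ev S *ᵥ (I i *ᵥ x) = (D.c0 S * a i ^ m i) • x := fun i x =>
    D.ev_inc S _ _ _
  have hΦev : ∀ i l z, D.ev S *ᵥ (Φ i *ᵥ vk l z) =
      (D.c0 S * a i ^ m i) • br (wl i *ᵥ l) (D.aa *ᵥ z) := by
    intro i l z
    rw [hΦ, hevI]
  have hZ : ∀ i, ∀ l ∈ D.X.dual.Z0, ∀ z ∈ D.X.Z0, Φ i *ᵥ vk l z ∈ (D.G S).Z0 := by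
    intro i l hl z hz
    rw [hΦ]
    exact hN i _ (br_perp_F1 S.cone hp0 (hwl i l hl).1 (D.mem z hz))
  obtain ⟨f, hf, hfΦ⟩ := lift2 a S.reg S.ne (K₁ := D.X.dual) (K₂ := D.X) (L := D.G S)
    (fun i => (D.ue i).dual) D.ue (D.ue_G S) (by
      intro i j k
      have h1 := D.le_G S i
      have h2 := D.le_deg j
      have h3 := D.deg_le k
      rw [dual_deg]
      omega) (fun i => n i + m i) Φ hZ (by
      intro i l hl z hz
      refine D.bt_of_ev S (hZ i l (b0_le_z0 _ hl) z hz) ?_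
      rw [hΦev]
      exact F1_smul _ (br_F0_F1 S.cone hp0 (hwl' i l hl) (D.mem z hz))) (by
      intro i l hl z hz
      refine D.bt_of_ev S (hZ i l hl z (b0_le_z0 _ hz)) ?_
      rw [hΦev]
      obtain ⟨v, hv, rfl⟩ := hz
      have e1 : D.aa *ᵥ (D.X.d *ᵥ v) = (-(D.ph *ᵥ v) ()) • p := by
        rw [Matrix.mulVec_mulVec, D.aa_d, Matrix.neg_mulVec, ← Matrix.mulVec_mulVec, pcol_mulVec,
          neg_smul]
      rw [e1, br_smul_right, br_skew (wl i *ᵥ l) p]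
      refine F1_smul _ (F1_smul _ ?_)
      have e2 := br_p_perp S.cone hp0 (hwl i l hl).1
      have e3 := F1_smul (-1 : R) e2
      rwa [neg_one_smul] at e3) (by
      intro i j l hl z hz
      have hz1 : a j ^ (n j + m j) • Φ i *ᵥ vk l z - a i ^ (n i + m i) • Φ j *ᵥ vk l z ∈
          (D.G S).Z0 :=
        sub_mem ((D.G S).Z0.smul_mem _ (hZ i l hl z hz)) ((D.G S).Z0.smul_mem _ (hZ j l hl z hz))
      refine D.bt_of_ev S hz1 ?_
      have e1 : D.ev S *ᵥ (a j ^ (n j + m j) • Φ i *ᵥ vk l z - a i ^ (n i + m i) • Φ j *ᵥ vk l z) =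
          D.c0 S • br ((a j ^ (n j + m j) * a i ^ m i) • (wl i *ᵥ l) -
            (a i ^ (n i + m i) * a j ^ m j) • (wl j *ᵥ l)) (D.aa *ᵥ z) := by
        rw [Matrix.mulVec_sub, Matrix.mulVec_smul, Matrix.mulVec_smul, hΦev, hΦev, br_sub_left,
          br_smul_left, br_smul_left, smul_sub, smul_smul, smul_smul, smul_smul, smul_smul]
        congr 2 <;> ring
      rw [e1]
      refine F1_smul _ (br_F0_F1 S.cone hp0 (D.mem_F0_of_orth S ?_ ?_) (D.mem z hz))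
      · rw [kf_comm, kf_sub_left, kf_smul_left, kf_smul_left, kf_comm _ p, kf_comm _ p,
          (hwl i l hl).1, (hwl j l hl).1]
        ring
      · intro z' hz'
        rw [kf_sub_left, kf_smul_left, kf_smul_left, (hwl i l hl).2 z' hz', (hwl j l hl).2 z' hz']
        ring)
  refine ⟨f, hf, ?_⟩
  intro l hl z hz w c hpw hw
  have h1 := D.ev_mem_F1 S (hfΦ 0 l hl z hz)
  rw [Matrix.mulVec_sub, Matrix.mulVec_smul, hΦev] at h1
  have h2 : (c * a 0 ^ m 0) • (wl 0 *ᵥ l) - a 0 ^ (n 0 + m 0) • w ∈ F0 p := by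
    refine D.mem_F0_of_orth S ?_ ?_
    · rw [kf_comm, kf_sub_left, kf_smul_left, kf_smul_left, kf_comm _ p, kf_comm _ p,
        (hwl 0 l hl).1, hpw]
      ring
    · intro z' hz'
      rw [kf_sub_left, kf_smul_left, kf_smul_left, (hwl 0 l hl).2 z' hz', hw z' hz']
      ring
  have h3 := br_F0_F1 S.cone hp0 h2 (D.mem z hz)
  have h4 := F1_add (F1_smul c h1) (F1_smul (D.c0 S) h3)
  refine F1_of_smul (pow_ne_zero (n 0 + m 0) (S.ne 0)) ?_
  have e1 : a 0 ^ (n 0 + m 0) • (c • (D.ev S *ᵥ (f *ᵥ tv l z)) - D.c0 S • br w (D.aa *ᵥ z)) =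
      c • (a 0 ^ (n 0 + m 0) • D.ev S *ᵥ (f *ᵥ vk l z) -
        (D.c0 S * a 0 ^ m 0) • br (wl 0 *ᵥ l) (D.aa *ᵥ z)) +
      D.c0 S • br ((c * a 0 ^ m 0) • (wl 0 *ᵥ l) - a 0 ^ (n 0 + m 0) • w) (D.aa *ᵥ z) := by
    rw [br_sub_left, br_smul_left, br_smul_left]
    have e2 : (tv l z : J × J → R) = vk l z := rfl
    rw [e2]
    module
  rw [e1]
  exact h4

noncomputable def Dh (S : Setup R p a) :
    Matrix ((Fin 248 ⊕ (Unit ⊕ J)) ⊕ (Unit ⊕ J)) (J × J) R := (D.exists_Dh S).choose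

end CoreData

end LicciCore

end

section

/-!
# The action
-/

set_option autoImplicit false
set_option linter.unusedSectionVars false

open Matrix Kronecker RingTheory.Sequence IsLocalRing

namespace LicciCore

open LicciCx Cx Pool.Agent.Licci

universe u

/-! ### generalities -/

/-- the matrix of the bracket -/
def brK (R : Type*) [CommRing R] : Matrix (Fin 248) (Fin 248 × Fin 248) R :=
  Matrix.of fun k x => (sc x.1 x.2 k : R)

theorem brK_tv {R : Type*} [CommRing R] (x y : Fin 248 → R) : brK R *ᵥ tv x y = br x y := by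
  funext k
  rw [Matrix.mulVec, dotProduct, Fintype.sum_prod_type]
  rfl

theorem cl_mulVec_Z0 {R : Type*} [CommRing R] {I I' : Type*} [Fintype I] [Fintype I']
    [DecidableEq I] [DecidableEq I'] {K : Cx R I} {L : Cx R I'} {f : Matrix I' I R} (hf : Cl K L 0 f) {z : I → R}
    (hz : z ∈ K.Z0) : f *ᵥ z ∈ L.Z0 := by
  refine ⟨fun j hj => ?_, ?_⟩
  · rw [Matrix.mulVec, dotProduct]
    refine Finset.sum_eq_zero fun k _ => ?_
    by_cases hk : K.deg k = 0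
    · rw [hf.hmg j k (by rw [hk]; simpa using hj), zero_mul]
    · rw [hz.1 k hk, mul_zero]
  · rw [Matrix.mulVec_mulVec, hf.comm0, ← Matrix.mulVec_mulVec, hz.2, Matrix.mulVec_zero]

theorem evm_inc {R : Type*} [CommRing R] {A B : Type*} [Fintype A] [Fintype B] [DecidableEq A]
    [DecidableEq B] (c b : R) (M : Matrix (Fin 248) A R) (N : Matrix B (Fin 248) R)
    (w : Fin 248 → R) :
    (Matrix.fromCols (Matrix.fromCols (c • (1 : Matrix (Fin 248) (Fin 248) R)) M)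
      (0 : Matrix (Fin 248) B R)) *ᵥ
        (Matrix.fromRows (Matrix.fromRows (b • (1 : Matrix (Fin 248) (Fin 248) R)) 0) N *ᵥ w) =
      (c * b) • w := by
  rw [Matrix.mulVec_mulVec, Matrix.fromCols_mul_fromRows, Matrix.fromCols_mul_fromRows,
    Matrix.mul_zero, add_zero, Matrix.zero_mul, add_zero, Matrix.smul_mul, Matrix.mul_smul,
    Matrix.mul_one, smul_smul, Matrix.smul_mulVec, Matrix.one_mulVec]

namespace CoreData

variable {R : Type u} [CommRing R] [IsDomain R] [IsLocalRing R] {p : Fin 248 → R}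
  {a : Fin 6 → R} {J : Type} [Fintype J] [DecidableEq J] (D : CoreData R p a J)

theorem mem_BT_of_aa {z : J → R} (hz : z ∈ D.X.Z0) {s : R} (h : D.aa *ᵥ z = s • p) :
    z ∈ D.X.BT := B0_le_BT _ (D.mem_B0_of_aa hz h)

/-- the elements of `BT` have their image in `R p` -/
theorem aa_BT (S : Setup R p a) {z : J → R} (hz : z ∈ D.X.BT) : ∃ s : R, D.aa *ᵥ z = s • p := by
  obtain ⟨c, hc, w, hw, h⟩ := hz
  have h1 : c • (D.aa *ᵥ z) = (-(D.ph *ᵥ w) ()) • p := by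
    rw [← Matrix.mulVec_smul, ← h, Matrix.mulVec_mulVec, D.aa_d, Matrix.neg_mulVec,
      ← Matrix.mulVec_mulVec, neg_smul]
    congr 1
    funext k
    simp [pcol, Matrix.mulVec, dotProduct, mul_comm]
  obtain ⟨r', hr'⟩ := S.sat c hc _ _ h1
  exact ⟨r', hr'⟩

theorem ev_spec (S : Setup R p a) : D.c0 S ≠ 0 ∧ (∀ g ∈ (D.G S).Z0, D.ev S *ᵥ g ∈ F0 p) ∧
    (∀ g ∈ (D.G S).Z0, D.ev S *ᵥ g ∈ F1 p → g ∈ (D.G S).BT) ∧
    (∀ g ∈ (D.G S).BT, D.ev S *ᵥ g ∈ F1 p) :=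
  ⟨(D.exists_ev S).choose_spec.1, (D.exists_ev S).choose_spec.2.choose_spec⟩

/-- two evaluations agree up to their scalars -/
theorem ev_compat (S : Setup R p a) {c c' : R} {M M' : Matrix (Fin 248) (Unit ⊕ J) R}
    (h1 : ∀ g ∈ (D.G S).Z0, Matrix.fromCols (Matrix.fromCols (c' • 1) M') 0 *ᵥ g ∈ F0 p)
    (h2 : ∀ g ∈ (D.G S).Z0, Matrix.fromCols (Matrix.fromCols (c' • 1) M') 0 *ᵥ g ∈ F1 p →
      g ∈ (D.G S).BT)
    (h3 : ∀ g ∈ (D.G S).BT, Matrix.fromCols (Matrix.fromCols (c • 1) M) 0 *ᵥ g ∈ F1 p)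
    {g : (Fin 248 ⊕ (Unit ⊕ J)) ⊕ (Unit ⊕ J) → R} (hg : g ∈ (D.G S).Z0) :
    c' • (Matrix.fromCols (Matrix.fromCols (c • 1) M) 0 *ᵥ g) -
      c • (Matrix.fromCols (Matrix.fromCols (c' • 1) M') 0 *ᵥ g) ∈ F1 p := by
  have := S.char0
  obtain ⟨m, N, hN⟩ := D.exists_inc S 0
  set E : Matrix (Fin 248) ((Fin 248 ⊕ (Unit ⊕ J)) ⊕ (Unit ⊕ J)) R :=
    Matrix.fromCols (Matrix.fromCols (c • 1) M) 0 with hE
  set E' : Matrix (Fin 248) ((Fin 248 ⊕ (Unit ⊕ J)) ⊕ (Unit ⊕ J)) R :=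
    Matrix.fromCols (Matrix.fromCols (c' • 1) M') 0 with hE'
  set g' := (c' * a 0 ^ m) • g - Matrix.fromRows (Matrix.fromRows (a 0 ^ m • 1) 0) N *ᵥ (E' *ᵥ g)
    with hg'
  have hg'Z : g' ∈ (D.G S).Z0 := Submodule.sub_mem _ (Submodule.smul_mem _ _ hg) (hN _ (h1 g hg))
  have e1 : E' *ᵥ g' = 0 := by
    rw [hg', Matrix.mulVec_sub, Matrix.mulVec_smul, hE', evm_inc, sub_self]
  have e2 : g' ∈ (D.G S).BT := h2 g' hg'Z (by rw [e1]; exact F1_zero)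
  have e3 := h3 g' e2
  have e4 : E *ᵥ g' = a 0 ^ m • (c' • (E *ᵥ g) - c • (E' *ᵥ g)) := by
    rw [hg', Matrix.mulVec_sub, Matrix.mulVec_smul, hE, evm_inc]
    module
  rw [e4] at e3
  exact F1_of_smul (pow_ne_zero m (S.ne 0)) e3

theorem G_deg_le (S : Setup R p a) (x : (Fin 248 ⊕ (Unit ⊕ J)) ⊕ (Unit ⊕ J)) :
    (D.G S).deg x ≤ 2 := by
  rw [G, fib_deg]
  rcases x with (x | x | x) | x | x
  · simp [JJ, cone_deg]
  · simp [JJ, cone_deg, X2, ext_deg]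
  · have := D.deg_le x
    simp [JJ, cone_deg, X2, ext_deg]
    omega
  · simp [X2, ext_deg, dual_deg]
  · have := D.le_deg x
    simp [X2, ext_deg, dual_deg]
    omega

theorem exists_al (S : Setup R p a) :
    ∃ al : Matrix J (((Fin 248 ⊕ (Unit ⊕ J)) ⊕ (Unit ⊕ J)) × J) R,
      Cl ((D.G S).tensor D.X) D.X 0 al ∧
      ∀ g ∈ (D.G S).Z0, ∀ z ∈ D.X.Z0, ∃ r : R,
        D.c0 S • D.aa *ᵥ (al *ᵥ tv g z) = br (D.ev S *ᵥ g) (D.aa *ᵥ z) + r • p := by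
  have := S.char0
  have hp0 := S.p_ne
  choose n M hF0 hBT hF1 using D.exists_ev_loc S
  choose m sg hsZ hsF hs using D.exists_sig S
  obtain ⟨hc0, hev0, hevB, hev1⟩ := D.ev_spec S
  obtain ⟨E, hE0, hE1, hcomp, hcomp0⟩ :
      ∃ E : Fin 6 → Matrix (Fin 248) ((Fin 248 ⊕ (Unit ⊕ J)) ⊕ (Unit ⊕ J)) R,
        (∀ i, ∀ g ∈ (D.G S).Z0, E i *ᵥ g ∈ F0 p) ∧
        (∀ i, ∀ g ∈ (D.G S).BT, E i *ᵥ g ∈ F1 p) ∧
        (∀ i j, ∀ g ∈ (D.G S).Z0, a j ^ n j • (E i *ᵥ g) - a i ^ n i • (E j *ᵥ g) ∈ F1 p) ∧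
        (∀ i, ∀ g ∈ (D.G S).Z0, D.c0 S • (E i *ᵥ g) - a i ^ n i • (D.ev S *ᵥ g) ∈ F1 p) :=
    ⟨fun i => Matrix.fromCols (Matrix.fromCols (a i ^ n i • 1) (M i)) 0, hF0, hF1,
      fun i j g hg => D.ev_compat S (hF0 j) (hBT j) (hF1 i) hg,
      fun i g hg => D.ev_compat S hev0 hevB (hF1 i) hg⟩
  -- the local representatives
  set Φ : Fin 6 → Matrix J (((Fin 248 ⊕ (Unit ⊕ J)) ⊕ (Unit ⊕ J)) × J) R :=
    fun i => prX R J * (sg i * (brK R * (E i ⊗ₖ D.aa))) with hΦ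
  have hΦtv : ∀ i g z, Φ i *ᵥ tv g z =
      fun j => (sg i *ᵥ br (E i *ᵥ g) (D.aa *ᵥ z)) (Sum.inr j) := by
    intro i g z
    rw [hΦ]
    simp only
    rw [← Matrix.mulVec_mulVec, ← Matrix.mulVec_mulVec, ← Matrix.mulVec_mulVec, kron_mulVec_tv,
      brK_tv, prX_mulVec]
  have hΦZ : ∀ i g z, Φ i *ᵥ tv g z ∈ D.X.Z0 := by
    intro i g z
    rw [hΦtv]
    exact D.mem_Z0_X2.1 (hsZ i _)
  -- the value of the local representatives
  have hval : ∀ i, ∀ g ∈ (D.G S).Z0, ∀ z ∈ D.X.Z0, ∃ r : R,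
      D.aa *ᵥ (Φ i *ᵥ tv g z) = a i ^ m i • br (E i *ᵥ g) (D.aa *ᵥ z) + r • p := by
    intro i g hg z hz
    have h1 := hs i _ (br_F0_F1 S.cone hp0 (hE0 i g hg) (D.mem z hz))
    rw [u_mulVec] at h1
    refine ⟨-(sg i *ᵥ br (E i *ᵥ g) (D.aa *ᵥ z)) (Sum.inl ()), ?_⟩
    rw [hΦtv, ← h1]
    module
  obtain ⟨f, hf, hf2⟩ := lift2 a S.reg S.ne (K₁ := D.G S) (K₂ := D.X) (L := D.X) (D.ue_G S) D.ue D.ue
    (fun i j k => by
      have h1 := D.le_deg i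
      have h2 := D.G_deg_le S j
      have h3 := D.deg_le k
      omega) (fun i => n i + m i) Φ (fun i g _ z _ => hΦZ i g z)
    (by
      intro i g hg z hz
      obtain ⟨r, hr⟩ := hval i g (B0_le_Z0 _ hg) z hz
      obtain ⟨c, hc⟩ := br_F1_F1 S.cone S.sat hp0 (hE1 i g (B0_le_BT _ hg)) (D.mem z hz)
      refine D.mem_BT_of_aa (hΦZ i g z) (s := a i ^ m i * c + r) ?_
      rw [hr, hc]
      module)
    (by
      intro i g hg z hz
      obtain ⟨r, hr⟩ := hval i g hg z (B0_le_Z0 _ hz)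
      obtain ⟨s, hs⟩ := D.aa_BT S (B0_le_BT _ hz)
      obtain ⟨χ, hχ⟩ := F0_eigen S.sat hp0 (hE0 i g hg)
      refine D.mem_BT_of_aa (hΦZ i g z) (s := a i ^ m i * (s * χ) + r) ?_
      rw [hr, hs, br_smul_right, hχ]
      module)
    (by
      intro i j g hg z hz
      obtain ⟨r, hr⟩ := hval i g hg z hz
      obtain ⟨r', hr'⟩ := hval j g hg z hz
      obtain ⟨c, hc⟩ := br_F1_F1 S.cone S.sat hp0 (hcomp i j g hg) (D.mem z hz)
      refine D.mem_BT_of_aa (Submodule.sub_mem _ (Submodule.smul_mem _ _ (hΦZ i g z))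
        (Submodule.smul_mem _ _ (hΦZ j g z)))
        (s := a i ^ m i * a j ^ m j * c + (a j ^ (n j + m j) * r - a i ^ (n i + m i) * r')) ?_
      rw [br_sub_left, br_smul_left, br_smul_left] at hc
      rw [Matrix.mulVec_sub, Matrix.mulVec_smul, Matrix.mulVec_smul, hr, hr', add_smul,
        mul_smul _ c, ← hc, sub_smul, pow_add, pow_add]
      module)
  refine ⟨f, hf, fun g hg z hz => ?_⟩
  obtain ⟨s, hs'⟩ := D.aa_BT S (hf2 0 g hg z hz)
  obtain ⟨r, hr⟩ := hval 0 g hg z hz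
  obtain ⟨c, hc⟩ := br_F1_F1 S.cone S.sat hp0 (hcomp0 0 g hg) (D.mem z hz)
  rw [br_sub_left, br_smul_left, br_smul_left] at hc
  have h1 : a 0 ^ (n 0 + m 0) • (D.c0 S • D.aa *ᵥ (f *ᵥ tv g z) - br (D.ev S *ᵥ g) (D.aa *ᵥ z)) =
      (D.c0 S * (s + r) + a 0 ^ m 0 * c) • p := by
    rw [Matrix.mulVec_sub, Matrix.mulVec_smul, hr] at hs'
    have h2 : a 0 ^ (n 0 + m 0) • D.aa *ᵥ (f *ᵥ tv g z) =
        a 0 ^ m 0 • br (E 0 *ᵥ g) (D.aa *ᵥ z) + (s + r) • p := by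
      rw [add_smul, ← hs']; abel
    have h3 : (D.c0 S * (s + r) + a 0 ^ m 0 * c) • p =
        D.c0 S • ((s + r) • p) + a 0 ^ m 0 • (c • p) := by module
    rw [h3, ← hc, smul_sub, smul_comm, h2, pow_add]
    module
  obtain ⟨r', hr'⟩ := S.sat _ (pow_ne_zero _ (S.ne 0)) _ _ h1
  exact ⟨r', by rw [← hr']; abel⟩

noncomputable def al (S : Setup R p a) :
    Matrix J (((Fin 248 ⊕ (Unit ⊕ J)) ⊕ (Unit ⊕ J)) × J) R := (D.exists_al S).choose

/-- `D'(x, y) z = al (Dh (Om x, y), z)` -/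
noncomputable def Dp (S : Setup R p a) : Matrix J ((J × J) × J) R :=
  D.al S * ((D.Dh S * (D.Om S ⊗ₖ (1 : Matrix J J R))) ⊗ₖ (1 : Matrix J J R))

theorem cl_Dp (S : Setup R p a) : Cl ((D.X.tensor D.X).tensor D.X) D.X 0 (D.Dp S) := by
  have h1 : Cl (D.X.tensor D.X) (D.X.dual.tensor D.X) 0 (D.Om S ⊗ₖ (1 : Matrix J J R)) :=
    Cl.kron (D.exists_Om S).choose_spec.1 Cl.one
  have h2 : Cl (D.X.tensor D.X) (D.G S) 0 (D.Dh S * (D.Om S ⊗ₖ (1 : Matrix J J R))) :=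
    ((D.exists_Dh S).choose_spec.1.mul h1).cast (by ring)
  exact ((D.exists_al S).choose_spec.1.mul (Cl.kron h2 Cl.one)).cast (by ring)

/-- the value of `D'` on cocycles -/
theorem Dp_spec (S : Setup R p a) {x y z : J → R} (hx : x ∈ D.X.Z0) (hy : y ∈ D.X.Z0)
    (hz : z ∈ D.X.Z0) (e : Fin 248 → R) : D.Dp S *ᵥ tv (tv x y) z ∈ D.X.Z0 ∧
      ∃ r : R, ∃ c : R, c ≠ 0 ∧ (c * kf p e) • D.aa *ᵥ (D.Dp S *ᵥ tv (tv x y) z) =
        c • br (br (br e (D.aa *ᵥ x)) (D.aa *ᵥ y)) (D.aa *ᵥ z) + r • p := by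
  have := S.char0
  have hp0 := S.p_ne
  refine ⟨cl_mulVec_Z0 (D.cl_Dp S) (vk_mem_Z0 (vk_mem_Z0 hx hy) hz), ?_⟩
  obtain ⟨hOm, hOm2⟩ := (D.exists_Om S).choose_spec
  obtain ⟨hDh, hDh2⟩ := (D.exists_Dh S).choose_spec
  obtain ⟨hal, hal2⟩ := (D.exists_al S).choose_spec
  have hl : D.Om S *ᵥ x ∈ D.X.dual.Z0 := cl_mulVec_Z0 hOm hx
  set g := D.Dh S *ᵥ tv (D.Om S *ᵥ x) y with hg
  have hgZ : g ∈ (D.G S).Z0 := cl_mulVec_Z0 hDh (vk_mem_Z0 hl hy)
  have hDp : D.Dp S *ᵥ tv (tv x y) z = D.al S *ᵥ tv g z := by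
    rw [Dp, ← Matrix.mulVec_mulVec, kron_mulVec_tv, ← Matrix.mulVec_mulVec, kron_mulVec_tv,
      Matrix.one_mulVec, Matrix.one_mulVec]
  have h1 : kf p e • (D.ev S *ᵥ g) - D.c0 S • br (br e (D.aa *ᵥ x)) (D.aa *ᵥ y) ∈ F1 p :=
    hDh2 _ hl y hy (br e (D.aa *ᵥ x)) (kf p e) (kf_p_br S.cone (D.mem x hx) e) (by
    intro z' hz'
    have h2 := hOm2 x hx z' hz'
    have h3 : kf e (br (D.aa *ᵥ x) (D.aa *ᵥ z')) = kf e ((z' ⬝ᵥ (D.Om S *ᵥ x)) • p) :=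
      congrArg (kf e) h2
    rw [kf_inv, h3, kf_eq, Matrix.mulVec_smul, dotProduct_smul, ← kf_eq, kf_comm e p, smul_eq_mul,
      dotProduct_comm, mul_comm])
  obtain ⟨r, hr⟩ := hal2 g hgZ z hz
  obtain ⟨c, hc⟩ := br_F1_F1 S.cone S.sat hp0 h1 (D.mem z hz)
  rw [br_sub_left, br_smul_left, br_smul_left] at hc
  refine ⟨c + kf p e * r, D.c0 S, (D.ev_spec S).1, ?_⟩
  have hr2 : D.c0 S • D.aa *ᵥ (D.al S *ᵥ tv g z) = br (D.ev S *ᵥ g) (D.aa *ᵥ z) + r • p := hr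
  rw [hDp, mul_comm (D.c0 S), mul_smul, hr2, add_smul, ← hc]
  module

end CoreData

end LicciCore

end

section

/-!
# The structure over the residue field
-/

set_option autoImplicit false
set_option linter.unusedSectionVars false

open Matrix Kronecker RingTheory.Sequence IsLocalRing

namespace LicciCore

open LicciCx Cx Pool.Agent.Licci

universe u

namespace CoreData

variable {R : Type u} [CommRing R] [IsDomain R] [IsLocalRing R] {p : Fin 248 → R}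
  {a : Fin 6 → R} {J : Type} [Fintype J] [DecidableEq J] (D : CoreData R p a J)

/-- `omk i j = ω(e_i, e_j)` over the residue field -/
noncomputable def omk (S : Setup R p a) : Matrix J J (ResidueField R) :=
  fun i j => residue R (D.Om S j i)

/-- `D'(e_i, e_j) e_l = ∑ m, Dpk i j l m e_m` over the residue field -/
noncomputable def Dpk (S : Setup R p a) (i j l m : J) : ResidueField R :=
  residue R (D.Dp S m ((i, j), l))

/-- `D = -2 D' - ω` over the residue field -/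
noncomputable def Dk (S : Setup R p a) (i j l m : J) : ResidueField R :=
  -(2 * D.Dpk S i j l m) - D.omk S i j * (if l = m then 1 else 0)

theorem d_map (i j : J) : residue R (D.X.d i j) = 0 :=
  (residue_eq_zero_iff _).2 (D.min i j)

theorem X_d_map : D.X.d.map (residue R) = 0 := by
  ext i j
  exact D.d_map i j

theorem omk_deg (S : Setup R p a) (i j : J) (h : D.X.deg i + D.X.deg j ≠ 0) :
    D.omk S i j = 0 := by
  have h1 := (D.exists_Om S).choose_spec.1.hmg j i (by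
    rw [dual_deg]; intro h2; apply h; omega)
  show residue R ((D.exists_Om S).choose j i) = 0
  rw [h1, map_zero]

theorem Dpk_deg (S : Setup R p a) (i j l m : J)
    (h : D.X.deg m ≠ D.X.deg i + D.X.deg j + D.X.deg l) : D.Dpk S i j l m = 0 := by
  have h1 := (D.cl_Dp S).hmg m ((i, j), l) (by
    rw [tensor_deg, tensor_deg, add_zero]; exact h)
  rw [Dpk, h1, map_zero]

theorem Dk_deg (S : Setup R p a) (i j l m : J)
    (h : D.X.deg m ≠ D.X.deg i + D.X.deg j + D.X.deg l) : D.Dk S i j l m = 0 := by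
  rw [Dk, D.Dpk_deg S i j l m h]
  by_cases hlm : l = m
  · subst hlm
    rw [D.omk_deg S i j (by intro h2; apply h; rw [h2, zero_add])]
    simp
  · simp [hlm]

end CoreData

end LicciCore

end
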