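import Pool.Agent.Work.MP_a98e4e_ag.Fu.Core.MapsEv
import Pool.Agent.Work.MP_a98e4e_ag.Fu.E.Theta
import Pool.Agent.Work.MP_a98e4e_ag.Fu.Cx.Cone
import Pool.Agent.Work.MP_a98e4e_ag.Fu.MFree
import Pool.Agent.Work.MP_a98e4e_ag.Fu.XE.PhiDefs
import Pool.Agent.Work.MP_a98e4e_ag.Fu.XE.Ext

section

/-!
# The dimensions of the closed fibre
-/

set_option autoImplicit false
set_option linter.unusedSectionVars false

open Matrix Kronecker RingTheory.Sequence IsLocalRing

namespace LicciCore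

open LicciCx Cx Pool.Agent.Licci

universe u

/-- a matrix exchanging the degrees `n` and `-n` with nonzero determinant -/
theorem card_of_det {k : Type*} [CommRing k] {J : Type*} [Fintype J]
    [DecidableEq J] {deg : J → ℤ} {M : Matrix J J k}
    (hM : ∀ i j, deg i + deg j ≠ 0 → M i j = 0) (hd : M.det ≠ 0) (n : ℤ) :
    Fintype.card {j // deg j = n} = Fintype.card {j // deg j = -n} := by
  rw [Matrix.det_apply] at hd
  obtain ⟨σ, -, hσ⟩ := Finset.exists_ne_zero_of_sum_ne_zero hd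
  have h1 : ∀ j, deg (σ j) + deg j = 0 := by
    intro j
    by_contra h
    apply hσ
    have h2 : ∏ i, M (σ i) i = 0 := Finset.prod_eq_zero (Finset.mem_univ j) (hM (σ j) j h)
    rw [h2, smul_zero]
  refine Fintype.card_congr (σ.subtypeEquiv fun j => ?_)
  have := h1 j
  omega

theorem finrank_ker {R M N : Type*} [CommRing R] [IsDomain R] [AddCommGroup M] [Module R M]
    [AddCommGroup N] [Module R N] (f : M →ₗ[R] N) (hM : Module.rank R M < Cardinal.aleph0) :
    Module.finrank R (LinearMap.range f) + Module.finrank R (LinearMap.ker f) =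
      Module.finrank R M := by
  have h := f.lift_rank_range_add_rank_ker
  have h1 := congrArg Cardinal.toNat h
  have h2 := Cardinal.lift_lt_aleph0.2 hM
  rw [← h, Cardinal.add_lt_aleph0_iff] at h2
  rw [Cardinal.toNat_add h2.1 h2.2, Cardinal.toNat_lift, Cardinal.toNat_lift,
    Cardinal.toNat_lift] at h1
  exact h1

theorem finrank_mono' {R M : Type*} [CommRing R] [IsDomain R] [AddCommGroup M] [Module R M]
    [Module.Finite R M] {s t : Submodule R M} (h : s ≤ t) :
    Module.finrank R s ≤ Module.finrank R t :=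
  Cardinal.toNat_le_toNat (Submodule.rank_mono h)
    ((Submodule.rank_le t).trans_lt (Module.rank_lt_aleph0 _ _))

theorem extz_inj {R : Type*} [CommRing R] {J : Type*} [Fintype J] (deg : J → ℤ) (n : ℤ) :
    Function.Injective (extz deg n : ({j // deg j = n} → R) →ₗ[R] (J → R)) := by
  intro v w h
  have h1 := congrArg (resz deg n) h
  rwa [resz_extz, resz_extz] at h1

theorem extz_vh {R : Type*} [CommRing R] {J : Type*} [Fintype J] {K : Cx R J} {n : ℤ}
    (v : {j // K.deg j = n} → R) : Vh K n (extz K.deg n v) := by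
  intro j hj
  simp [extz, hj]

theorem exists_extz {R : Type*} [CommRing R] {J : Type*} [Fintype J] {K : Cx R J} {n : ℤ}
    {z : J → R} (hz : Vh K n z) : ∃ v : {j // K.deg j = n} → R, extz K.deg n v = z := by
  refine ⟨resz K.deg n z, ?_⟩
  rw [extz_resz]
  funext j
  by_cases h : K.deg j = n
  · simp [Pool.Agent.Licci.part, h]
  · simp [Pool.Agent.Licci.part, h, hz j h]

theorem sup0_mulVec {R : Type*} [CommRing R] {J : Type*} [Fintype J] {deg : J → ℤ}
    {M : Matrix J J R} (hM : Sup0 deg deg M) {v : J → R} (hv : ∀ j, deg j = 0 → v j = 0) :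
    M *ᵥ v = 0 := by
  funext i
  rw [Matrix.mulVec, dotProduct]
  refine Finset.sum_eq_zero fun j _ => ?_
  by_cases h : deg j = 0
  · rw [hv j h, mul_zero]
  · rw [hM i j fun h1 => h h1.2, zero_mul]

namespace CoreData

variable {R : Type u} [CommRing R] [IsDomain R] [IsLocalRing R] {p : Fin 248 → R}
  {a : Fin 6 → R} {J : Type} [Fintype J] [DecidableEq J] (D : CoreData R p a J)

/-- the Euler characteristic -/
theorem rank_count (S : Setup R p a) : Fintype.card {j // D.X.deg j = 0} =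
    56 + Fintype.card {j // D.X.deg j = -1} + Fintype.card {j // D.X.deg j = 1} := by
  have := S.char0
  obtain ⟨x, w, c, hF⟩ := exists_dualFam (R := R) S.cone S.top
  obtain ⟨N, h, hh⟩ := D.ue 0
  have hb : a 0 ^ N ≠ 0 := pow_ne_zero _ (S.ne 0)
  set b := a 0 ^ N with hbdef
  -- vectors of degree `2` and `-2` vanish
  have hz2 : ∀ v : J → R, Vh D.X 2 v → v = 0 := by
    intro v hv
    funext j
    exact hv j (by have := D.deg_le j; omega)
  have hz2' : ∀ v : J → R, Vh D.X (-2) v → v = 0 := by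
    intro v hv
    funext j
    exact hv j (by have := D.le_deg j; omega)
  -- the contraction in the degrees `1`, `-1`
  have hsup : ∀ v : J → R, (∀ j, D.X.deg j = 0 → v j = 0) →
      b • v = D.X.d *ᵥ (h *ᵥ v) + h *ᵥ (D.X.d *ᵥ v) := by
    intro v hv
    have h1 := sup0_mulVec hh.sup hv
    rw [Matrix.sub_mulVec, Matrix.smul_mulVec, Matrix.one_mulVec, Matrix.add_mulVec,
      ← Matrix.mulVec_mulVec, ← Matrix.mulVec_mulVec, sub_eq_zero] at h1
    exact h1
  have h1 : ∀ v : {j // D.X.deg j = 1} → R,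
      D.X.d *ᵥ (h *ᵥ extz D.X.deg 1 v) = b • extz D.X.deg 1 v := by
    intro v
    have hv := extz_vh (K := D.X) v
    rw [hsup _ fun j hj => hv j (by omega)]
    have h2 : D.X.d *ᵥ extz D.X.deg 1 v = 0 := hz2 _ (Vh.mulVec D.X.hmg hv)
    rw [h2, Matrix.mulVec_zero, add_zero]
  have hm : ∀ v : {j // D.X.deg j = -1} → R,
      h *ᵥ (D.X.d *ᵥ extz D.X.deg (-1) v) = b • extz D.X.deg (-1) v := by
    intro v
    have hv := extz_vh (K := D.X) v
    rw [hsup _ fun j hj => hv j (by omega)]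
    have h2 : h *ᵥ extz D.X.deg (-1) v = 0 := hz2' _ (Vh.mulVec hh.hmg hv)
    rw [h2, Matrix.mulVec_zero, zero_add]
  -- the differential on degree `0`
  let f : ({j // D.X.deg j = 0} → R) →ₗ[R] (J → R) := D.X.d.mulVecLin ∘ₗ extz D.X.deg 0
  have hf : ∀ v, f v = D.X.d *ᵥ extz D.X.deg 0 v := fun v => rfl
  have e1 := finrank_ker f (Module.rank_lt_aleph0 _ _)
  rw [Module.finrank_fintype_fun_eq_card] at e1
  have e2 : Module.finrank R (LinearMap.range f) = Fintype.card {j // D.X.deg j = 1} := by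
    apply le_antisymm
    · have h2 : LinearMap.range f ≤ LinearMap.range (extz (S := R) D.X.deg 1) := by
        rintro _ ⟨v, rfl⟩
        obtain ⟨v', hv'⟩ := exists_extz (K := D.X) (Vh.mulVec D.X.hmg (extz_vh (K := D.X) v))
        exact ⟨v', hv'⟩
      refine (finrank_mono' h2).trans ?_
      rw [LinearMap.finrank_range_of_inj (extz_inj _ _), Module.finrank_fintype_fun_eq_card]
    · have h2 : LinearMap.range (b • extz (S := R) D.X.deg 1) ≤ LinearMap.range f := by
        rintro _ ⟨v, rfl⟩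
        have h3 : Vh D.X 0 (h *ᵥ extz D.X.deg 1 v) :=
          Vh.mulVec hh.hmg (extz_vh (K := D.X) v)
        obtain ⟨v', hv'⟩ := exists_extz h3
        refine ⟨v', ?_⟩
        rw [hf, hv', h1]
        rfl
      have hg : Function.Injective (b • extz (S := R) D.X.deg 1) := by
        intro v v' hvv
        apply extz_inj D.X.deg 1
        have h3 : b • extz D.X.deg 1 v = b • extz D.X.deg 1 v' := hvv
        exact smul_right_injective _ hb h3
      refine le_trans ?_ (finrank_mono' h2)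
      rw [LinearMap.finrank_range_of_inj hg, Module.finrank_fintype_fun_eq_card]
  -- cocycles
  have hker : ∀ v, v ∈ LinearMap.ker f ↔ extz D.X.deg 0 v ∈ D.X.Z0 := by
    intro v
    rw [LinearMap.mem_ker, hf]
    exact ⟨fun h => ⟨extz_vh v, h⟩, fun h => h.2⟩
  let θ : LinearMap.ker f →ₗ[R] (Fin 56 → R) :=
    LinearMap.pi fun i => kfL (w i) ∘ₗ D.aa.mulVecLin ∘ₗ extz D.X.deg 0 ∘ₗ
      (LinearMap.ker f).subtype
  have hθ : ∀ v i, θ v i = kf (w i) (D.aa *ᵥ extz D.X.deg 0 v.1) := fun v i => rfl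
  have e3 := finrank_ker θ
    ((Submodule.rank_le (LinearMap.ker f)).trans_lt (Module.rank_lt_aleph0 _ _))
  have hwp : ∀ i, kf (w i) p = 0 := fun i => by rw [kf_comm]; exact hF.w_perp i
  have e4 : Module.finrank R (LinearMap.range θ) = 56 := by
    apply le_antisymm
    · have := (LinearMap.range θ).finrank_le
      rwa [Module.finrank_fintype_fun_eq_card, Fintype.card_fin] at this
    · have hy : ∀ v : Fin 56 → R, c • v ∈ LinearMap.range θ := by
        intro v
        choose z hz r hr using fun i => D.surj (x i) (hF.x_mem i)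
        choose t ht using fun i => exists_extz (K := D.X) (hz i).1
        have h2 : ∑ i, v i • t i ∈ LinearMap.ker f :=
          Submodule.sum_mem _ fun i _ => Submodule.smul_mem _ _ (by rw [hker, ht]; exact hz i)
        refine ⟨⟨_, h2⟩, ?_⟩
        funext j
        rw [hθ]
        have h3 : D.aa *ᵥ extz D.X.deg 0 (∑ i, v i • t i) =
            ∑ i, v i • (x i - r i • p) := by
          rw [map_sum, Matrix.mulVec_sum]
          refine Finset.sum_congr rfl fun i _ => ?_
          rw [map_smul, ht, Matrix.mulVec_smul, hr i, add_sub_cancel_right]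
        rw [h3, kf_sum_right]
        rw [Finset.sum_eq_single j]
        · rw [kf_smul_right, kf_sub_right, kf_smul_right, hwp, hF.pair, if_pos rfl, mul_zero,
            sub_zero, Pi.smul_apply, smul_eq_mul, mul_comm]
        · intro i _ hi
          rw [kf_smul_right, kf_sub_right, kf_smul_right, hwp, hF.pair, if_neg (Ne.symm hi),
            mul_zero, sub_zero, mul_zero]
        · simp
      have h2 : LinearMap.range (c • (LinearMap.id : (Fin 56 → R) →ₗ[R] (Fin 56 → R))) ≤
          LinearMap.range θ := by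
        rintro _ ⟨v, rfl⟩
        exact hy v
      have hg : Function.Injective (c • (LinearMap.id : (Fin 56 → R) →ₗ[R] (Fin 56 → R))) := by
        intro v v' hvv
        exact smul_right_injective _ hF.ne hvv
      refine le_trans ?_ (finrank_mono' h2)
      rw [LinearMap.finrank_range_of_inj hg, Module.finrank_fintype_fun_eq_card, Fintype.card_fin]
  -- boundaries
  have e5 : Module.finrank R (LinearMap.ker θ) = Fintype.card {j // D.X.deg j = -1} := by
    let ι : LinearMap.ker θ →ₗ[R] (J → R) :=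
      extz D.X.deg 0 ∘ₗ (LinearMap.ker f).subtype ∘ₗ (LinearMap.ker θ).subtype
    have hι : Function.Injective ι := by
      intro v v' hvv
      exact Subtype.ext (Subtype.ext (extz_inj D.X.deg 0 hvv))
    let g : ({j // D.X.deg j = -1} → R) →ₗ[R] (J → R) := D.X.d.mulVecLin ∘ₗ extz D.X.deg (-1)
    have hg : Function.Injective g := by
      rw [← LinearMap.ker_eq_bot, LinearMap.ker_eq_bot']
      intro v hv
      have h2 : D.X.d *ᵥ extz D.X.deg (-1) v = 0 := hv
      have h3 := hm v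
      rw [h2, Matrix.mulVec_zero] at h3
      apply extz_inj D.X.deg (-1)
      rw [map_zero]
      exact (smul_eq_zero.1 h3.symm).resolve_left hb
    have hr : LinearMap.range ι = LinearMap.range g := by
      apply le_antisymm
      · rintro _ ⟨⟨⟨v, hv⟩, hv'⟩, rfl⟩
        have h2 : extz D.X.deg 0 v ∈ D.X.Z0 := (hker v).1 hv
        have h3 : ∀ i, kf (w i) (D.aa *ᵥ extz D.X.deg 0 v) = 0 := fun i => congrFun hv' i
        obtain ⟨r, hr⟩ := hF.span _ (D.mem _ h2)
        have h4 : c • (D.aa *ᵥ extz D.X.deg 0 v) = r • p := by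
          rw [hr]
          simp [h3]
        obtain ⟨r', hr'⟩ := S.sat c hF.ne _ _ h4
        obtain ⟨w', hw', hw1⟩ := D.mem_B0_of_aa h2 hr'
        obtain ⟨v', hv''⟩ := exists_extz (K := D.X) (n := -1) hw'
        refine ⟨v', ?_⟩
        show D.X.d *ᵥ extz D.X.deg (-1) v' = _
        rw [hv'', hw1]
        rfl
      · rintro _ ⟨v, rfl⟩
        have h2 : Vh D.X 0 (D.X.d *ᵥ extz D.X.deg (-1) v) :=
          Vh.mulVec D.X.hmg (extz_vh (K := D.X) v)
        have h3 : D.X.d *ᵥ extz D.X.deg (-1) v ∈ D.X.Z0 :=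
          ⟨h2, by rw [Matrix.mulVec_mulVec, D.X.sq, Matrix.zero_mulVec]⟩
        obtain ⟨v', hv'⟩ := exists_extz (K := D.X) h2
        have h4 : v' ∈ LinearMap.ker f := by rw [hker, hv']; exact h3
        refine ⟨⟨⟨v', h4⟩, ?_⟩, ?_⟩
        · rw [LinearMap.mem_ker]
          funext i
          rw [hθ]
          show kf (w i) (D.aa *ᵥ extz D.X.deg 0 v') = 0
          rw [hv', D.aa_d_mulVec, kf_neg_right, kf_smul_right, hwp, mul_zero, neg_zero]
        · exact hv'
    rw [← LinearMap.finrank_range_of_inj hι, hr, LinearMap.finrank_range_of_inj hg,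
      Module.finrank_fintype_fun_eq_card]
  omega

/-- `#{deg 0} = 56 + 2 #{deg 1}` -/
theorem dim_of_unit (S : Setup R p a) (hu : IsUnit (D.omk S).det) :
    Fintype.card {j // D.X.deg j = 0} = 56 + 2 * Fintype.card {j // D.X.deg j = 1} := by
  have h1 := card_of_det (M := D.omk S) (deg := D.X.deg) (D.omk_deg S) hu.ne_zero 1
  have h2 := D.rank_count S
  omega

end CoreData

end LicciCore

end

section

/-!
# The data of the core from a minimal three term complex
-/

set_option autoImplicit false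
set_option linter.unusedSectionVars false

open Matrix Kronecker RingTheory.Sequence IsLocalRing

namespace LicciCore

open LicciCx Cx Pool.Agent.Licci

universe u v

section p

variable {R : Type u} [CommRing R] [IsDomain R] [IsLocalRing R] {p : Fin 248 → R}
  {a : Fin 6 → R}

/-- `[R → W]` -/
def LW (p : Fin 248 → R) : Cx R (Unit ⊕ Fin 248) where
  deg := Sum.elim (fun _ => -1) (fun _ => 0)
  d := Matrix.fromBlocks 0 0 (pcol p) 0
  hmg := by
    rintro (i | i) (j | j) h
    · rfl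
    · rfl
    · exact (h (by simp)).elim
    · rfl
  sq := by
    rw [Matrix.fromBlocks_multiply]
    simp

theorem kf_mulVec (x e : Fin 248 → R) :
    (Matrix.of (fun (_ : Unit) i => ∑ j, (kc i j : R) * e j) *ᵥ x) () = kf x e := by
  simp only [Matrix.mulVec, dotProduct, Matrix.of_apply, kf]
  refine Finset.sum_congr rfl fun i _ => ?_
  rw [Finset.sum_mul]
  exact Finset.sum_congr rfl fun j _ => by ring

theorem ue_LW (S : Setup R p a) (i : Fin 6) : UE (LW p) (a i) := by
  obtain ⟨n, e, he⟩ := S.pmem i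
  refine ⟨n, Matrix.fromBlocks 0 (Matrix.of (fun (_ : Unit) i => ∑ j, (kc i j : R) * e j)) 0 0,
    ?_, ?_⟩
  · rintro (i | i) (j | j) h
    · rfl
    · exact (h (by simp [LW])).elim
    · rfl
    · rfl
  · have h1 : (Matrix.of (fun (_ : Unit) i => ∑ j, (kc i j : R) * e j)) * pcol p =
        (a i ^ n) • (1 : Matrix Unit Unit R) := by
      ext x y
      have h2 := kf_mulVec p e
      rw [he] at h2
      rw [Matrix.mul_apply, Matrix.smul_apply, Matrix.one_apply_eq, smul_eq_mul, mul_one, ← h2]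
      rfl
    have h3 : (LW p).d = Matrix.fromBlocks 0 0 (pcol p) 0 := rfl
    rw [h3, Matrix.fromBlocks_multiply, Matrix.fromBlocks_multiply, Matrix.fromBlocks_add,
      ← Matrix.fromBlocks_one, Matrix.fromBlocks_smul]
    simp only [Matrix.zero_mul, Matrix.mul_zero, add_zero, zero_add, h1, smul_zero]
    rintro (i | i) (j | j) h
    · simp
    · simp
    · simp
    · exact (h ⟨rfl, rfl⟩).elim

/-- boundaries up to a scalar in `[R → W]` -/
theorem Setup.mem_BT (S : Setup R p a) {v : Unit ⊕ Fin 248 → R} (hv : v ∈ (LW p).BT) :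
    ∃ s : R, (fun i => v (Sum.inr i)) = s • p := by
  obtain ⟨c, hc, w, -, hw2⟩ := hv
  refine S.sat c hc _ (w (Sum.inl ())) ?_
  funext i
  have h1 := congrFun hw2 (Sum.inr i)
  rw [Pi.smul_apply] at h1 ⊢
  rw [← h1]
  simp [LW, Matrix.mulVec, dotProduct, Fintype.sum_sum_type, pcol, mul_comm]

theorem mem_BT_of {s : R} {v : Unit ⊕ Fin 248 → R} (h0 : v (Sum.inl ()) = 0)
    (h : (fun i => v (Sum.inr i)) = s • p) : v ∈ (LW p).BT := by
  refine ⟨1, one_ne_zero, Sum.elim (fun _ => s) 0, ?_, ?_⟩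
  · rintro (j | j) hj
    · exact (hj rfl).elim
    · rfl
  · rw [one_smul]
    funext i
    rcases i with i | i
    · simp [LW, Matrix.mulVec, dotProduct, Fintype.sum_sum_type, h0]
    · have h1 : v (Sum.inr i) = (s • p) i := congrFun h i
      rw [h1]
      simp [LW, Matrix.mulVec, dotProduct, Fintype.sum_sum_type, pcol, mul_comm]

end p

section mono

variable {R : Type u} [CommRing R] [IsDomain R] [IsLocalRing R] {p : Fin 248 → R}
  {a : Fin 6 → R} {A Z : Type v} [AddCommGroup A] [Module R A] [AddCommGroup Z] [Module R Z]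
  {D : A →ₗ[R] Z}

/-- the complex `E → B → C` in degrees `-1, 0, 1` -/
noncomputable def XM (M : XE.Mono D) : Cx R (Fin M.e ⊕ (Fin M.n ⊕ Fin M.b)) where
  deg := Sum.elim (fun _ => -1) (Sum.elim (fun _ => 0) (fun _ => 1))
  d := Matrix.fromBlocks 0 0 (Matrix.fromRows (LinearMap.toMatrix' M.dm) 0)
    (Matrix.fromBlocks 0 0 (LinearMap.toMatrix' M.d0) 0)
  hmg := by
    rintro (i | i | i) (j | j | j) h
    · rfl
    · rfl
    · rfl
    · exact (h (by simp)).elim
    · rfl
    · rfl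
    · rfl
    · exact (h (by simp)).elim
    · rfl
  sq := by
    have h1 : LinearMap.toMatrix' M.d0 * LinearMap.toMatrix' M.dm = 0 := by
      rw [← LinearMap.toMatrix'_comp]
      have h2 : M.d0 ∘ₗ M.dm = 0 := LinearMap.ext fun x => M.d0_dm x
      rw [h2, map_zero]
    rw [Matrix.fromBlocks_multiply, Matrix.fromBlocks_multiply]
    simp [Matrix.fromBlocks_mul_fromRows, h1]

theorem XM_mulVec (M : XE.Mono D) (v : Fin M.e ⊕ (Fin M.n ⊕ Fin M.b) → R) :
    (XM M).d *ᵥ v = Sum.elim (0 : Fin M.e → R) (Sum.elim (M.dm fun i => v (Sum.inl i))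
      (M.d0 fun i => v (Sum.inr (Sum.inl i)))) := by
  have h1 : ∀ x, M.dm x = LinearMap.toMatrix' M.dm *ᵥ x := fun x => by
    rw [LinearMap.toMatrix'_mulVec]
  have h2 : ∀ x, M.d0 x = LinearMap.toMatrix' M.d0 *ᵥ x := fun x => by
    rw [LinearMap.toMatrix'_mulVec]
  have h3 : (XM M).d = Matrix.fromBlocks 0 0 (Matrix.fromRows (LinearMap.toMatrix' M.dm) 0)
      (Matrix.fromBlocks 0 0 (LinearMap.toMatrix' M.d0) 0) := rfl
  rw [h1, h2, h3]
  generalize LinearMap.toMatrix' M.dm = Dm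
  generalize LinearMap.toMatrix' M.d0 = D0
  funext j
  rcases j with j | j | j <;>
    simp [Matrix.mulVec, dotProduct, Fintype.sum_sum_type]

theorem ue_XM (M : XE.Mono D) {y : R} (hy : y ∈ maximalIdeal R) : UE (XM M) y := by
  obtain ⟨k, s, r, hs, hr⟩ := M.split y hy
  have h1 : LinearMap.toMatrix' M.d0 * LinearMap.toMatrix' s = y ^ k • 1 := by
    rw [← LinearMap.toMatrix'_comp]
    have h2 : M.d0 ∘ₗ s = y ^ k • LinearMap.id := LinearMap.ext fun x => hs x
    rw [h2, map_smul, LinearMap.toMatrix'_id]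
  have h2 : LinearMap.toMatrix' r * LinearMap.toMatrix' M.dm = y ^ k • 1 := by
    rw [← LinearMap.toMatrix'_comp]
    have h2 : r ∘ₗ M.dm = y ^ k • LinearMap.id := LinearMap.ext fun x => hr x
    rw [h2, map_smul, LinearMap.toMatrix'_id]
  refine ⟨k, Matrix.fromBlocks 0 (Matrix.fromCols (LinearMap.toMatrix' r) 0) 0
    (Matrix.fromBlocks 0 (LinearMap.toMatrix' s) 0 0), ?_, ?_⟩
  · rintro (i | i | i) (j | j | j) h
    · rfl
    · exact (h (by simp [XM])).elim
    · rfl
    · rfl
    · rfl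
    · exact (h (by simp [XM])).elim
    · rfl
    · rfl
    · rfl
  · have h3 : (XM M).d = Matrix.fromBlocks 0 0 (Matrix.fromRows (LinearMap.toMatrix' M.dm) 0)
      (Matrix.fromBlocks 0 0 (LinearMap.toMatrix' M.d0) 0) := rfl
    rw [h3]
    simp only [Matrix.zero_mul, Matrix.mul_zero, add_zero, zero_add,
      Matrix.fromRows_mul_fromCols, Matrix.fromCols_mul_fromRows, Matrix.fromBlocks_multiply,
      Matrix.fromBlocks_mul_fromRows, Matrix.fromCols_mul_fromBlocks, h1, h2,
      Matrix.fromBlocks_add]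
    rintro (i | i | i) (j | j | j) h
    · simp [Matrix.one_apply]
    · simp
    · simp
    · simp
    · exact (h ⟨rfl, rfl⟩).elim
    · simp
    · simp
    · simp
    · simp [Matrix.one_apply]

/-- cocycles of degree zero -/
theorem mem_Z0_XM (M : XE.Mono D) {z : Fin M.e ⊕ (Fin M.n ⊕ Fin M.b) → R} :
    z ∈ (XM M).Z0 ↔ (∀ i, z (Sum.inl i) = 0) ∧ (∀ i, z (Sum.inr (Sum.inr i)) = 0) ∧
      M.d0 (fun i => z (Sum.inr (Sum.inl i))) = 0 := by
  constructor
  · rintro ⟨h1, h2⟩
    refine ⟨fun i => h1 _ (by simp [XM]), fun i => h1 _ (by simp [XM]), ?_⟩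
    rw [XM_mulVec] at h2
    funext i
    exact congrFun h2 (Sum.inr (Sum.inr i))
  · rintro ⟨h1, h2, h3⟩
    refine ⟨?_, ?_⟩
    · rintro (j | j | j) hj
      · exact h1 j
      · exact (hj rfl).elim
      · exact h2 j
    · rw [XM_mulVec, h3]
      have h4 : (fun i => z (Sum.inl i)) = 0 := funext h1
      rw [h4, map_zero]
      funext j
      rcases j with j | j | j <;> rfl

/-- the matrix in degree zero of a linear map `B → W` -/
noncomputable def PhM (M : XE.Mono D) (T : (Fin M.n → R) →ₗ[R] E8 R) :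
    Matrix (Unit ⊕ Fin 248) (Fin M.e ⊕ (Fin M.n ⊕ Fin M.b)) R :=
  Matrix.fromBlocks 0 0 0 (Matrix.fromCols (LinearMap.toMatrix' T) 0)

theorem PhM_mulVec (M : XE.Mono D) (T : (Fin M.n → R) →ₗ[R] E8 R)
    (z : Fin M.e ⊕ (Fin M.n ⊕ Fin M.b) → R) :
    PhM M T *ᵥ z = Sum.elim (0 : Unit → R) (T fun i => z (Sum.inr (Sum.inl i))) := by
  have h1 : ∀ x, T x = LinearMap.toMatrix' T *ᵥ x := fun x => by
    rw [LinearMap.toMatrix'_mulVec]
  rw [h1, PhM]
  generalize LinearMap.toMatrix' T = Dm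
  funext j
  rcases j with j | j <;>
    simp [Matrix.mulVec, dotProduct, Fintype.sum_sum_type]

/-- local lifts -/
theorem exists_T (M : XE.Mono D) (Φ : Submodule R (E8 R)) (th : Φ →ₗ[R] A)
    (hth2 : ∀ φ, D φ = 0 → ∃ x, th x = φ) {y : R} (hy : y ∈ maximalIdeal R) :
    ∃ (k : ℕ) (T : (Fin M.n → R) →ₗ[R] Φ), ∀ z, M.d0 z = 0 → th (T z) = y ^ k • M.bet z := by
  obtain ⟨k, s, r, hs, hr⟩ := M.split y hy
  have h1 : ∀ z, D (M.bet (y ^ k • z - s (M.d0 z))) = 0 := by
    intro z
    rw [M.bet_D, map_sub, map_smul, hs, sub_self, map_zero]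
  choose x hx using fun j : Fin M.n =>
    hth2 (M.bet (y ^ k • (Pi.single j 1 : Fin M.n → R) - s (M.d0 (Pi.single j 1)))) (h1 _)
  refine ⟨k, (Pi.basisFun R (Fin M.n)).constr R x, ?_⟩
  have h2 : th ∘ₗ ((Pi.basisFun R (Fin M.n)).constr R x : (Fin M.n → R) →ₗ[R] Φ) =
      M.bet ∘ₗ (y ^ k • LinearMap.id - s ∘ₗ M.d0) := by
    refine (Pi.basisFun R (Fin M.n)).ext fun j => ?_
    rw [LinearMap.comp_apply, Module.Basis.constr_basis, hx, Pi.basisFun_apply]
    rfl
  intro z hz
  have h3 := LinearMap.congr_fun h2 z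
  rw [LinearMap.comp_apply] at h3
  rw [h3]
  show M.bet (y ^ k • z - s (M.d0 z)) = _
  rw [hz, map_zero, sub_zero, map_smul]

/-- The data of the core. -/
theorem coreData_of_mono (S : Setup R p a) (hA : ∀ (c : R) (x : A), c ≠ 0 → c • x = 0 → x = 0)
    (M : XE.Mono D) (Φ : Submodule R (E8 R)) (hΦ : ∀ x, x ∈ Φ ↔ x ∈ F1 p) (th : Φ →ₗ[R] A)
    (hth1 : ∀ x, D (th x) = 0) (hth2 : ∀ φ, D φ = 0 → ∃ x, th x = φ)
    (hth3 : ∀ x, th x = 0 ↔ ∃ r : R, (x : E8 R) = r • p) :
    Nonempty (CoreData R p a (Fin M.e ⊕ (Fin M.n ⊕ Fin M.b))) := by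
  have := S.char0
  have hpF : p ∈ F1 p := p_mem S.cone
  choose N T hT using fun i => exists_T M Φ th hth2 (S.mem i)
  have hexd : ∀ x y : Φ, th x = th y → ∃ r : R, (x : E8 R) - y = r • p := by
    intro x y h
    have h1 : th (x - y) = 0 := by rw [map_sub, h, sub_self]
    obtain ⟨r, hr⟩ := (hth3 _).1 h1
    exact ⟨r, hr⟩
  obtain ⟨f, hf, hfΦ⟩ := lift1 a S.reg S.ne (K := XM M) (L := LW p)
    (fun i => ue_XM M (S.mem i)) (fun i => ue_LW S i)
    (by
      rintro (i | i) (j | j | j) <;> simp [LW, XM])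
    N (fun i => PhM M (Φ.subtype ∘ₗ T i))
    (by
      intro i z hz
      rw [PhM_mulVec]
      refine ⟨?_, ?_⟩
      · rintro (j | j) hj
        · rfl
        · exact (hj rfl).elim
      · funext j
        rcases j with j | j <;>
          simp [LW, Matrix.mulVec, dotProduct, Fintype.sum_sum_type])
    (by
      rintro i z ⟨w, hw, hwz⟩
      rw [PhM_mulVec]
      have h1 : (fun i => z (Sum.inr (Sum.inl i))) = M.dm fun i => w (Sum.inl i) := by
        rw [← hwz, XM_mulVec]
        rfl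
      rw [h1]
      have h2 : th (T i (M.dm fun i => w (Sum.inl i))) = 0 := by
        rw [hT i _ (M.d0_dm _), M.bet_dm, smul_zero]
      obtain ⟨r, hr⟩ := (hth3 _).1 h2
      exact mem_BT_of rfl hr)
    (by
      intro i j z hz
      rw [PhM_mulVec, PhM_mulVec]
      have hz0 := ((mem_Z0_XM M).1 hz).2.2
      have h2 : th (a j ^ N j • T i (fun i => z (Sum.inr (Sum.inl i)))) =
          th (a i ^ N i • T j (fun i => z (Sum.inr (Sum.inl i)))) := by
        rw [map_smul, map_smul, hT i _ hz0, hT j _ hz0, smul_smul, smul_smul, mul_comm]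
      obtain ⟨r, hr⟩ := hexd _ _ h2
      refine mem_BT_of (s := r) ?_ ?_
      · simp
      · rw [← hr]
        funext l
        rfl)
  -- the two parts of `f`
  let aa : Matrix (Fin 248) (Fin M.e ⊕ (Fin M.n ⊕ Fin M.b)) R := Matrix.of fun i j => f (Sum.inr i) j
  let ph : Matrix Unit (Fin M.e ⊕ (Fin M.n ⊕ Fin M.b)) R := Matrix.of fun i j => -f (Sum.inl i) j
  have haa : ∀ z, (fun i => (f *ᵥ z) (Sum.inr i)) = aa *ᵥ z := fun z => rfl
  have hph : ∀ z, (ph *ᵥ z) () = -(f *ᵥ z) (Sum.inl ()) := by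
    intro z
    simp only [Matrix.mulVec, dotProduct, ph, Matrix.of_apply, neg_mul, Finset.sum_neg_distrib]
  have hkey : ∀ i, ∀ z ∈ (XM M).Z0, ∃ r : R,
      a i ^ N i • (aa *ᵥ z) - (T i (fun i => z (Sum.inr (Sum.inl i))) : E8 R) = r • p := by
    intro i z hz
    obtain ⟨r, hr⟩ := S.mem_BT (hfΦ i z hz)
    refine ⟨r, ?_⟩
    rw [← hr]
    funext l
    have h1 : (PhM M (Φ.subtype ∘ₗ T i) *ᵥ z) (Sum.inr l) =
        (T i (fun i => z (Sum.inr (Sum.inl i))) : E8 R) l := by
      rw [PhM_mulVec]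
      rfl
    show _ = (a i ^ N i • f *ᵥ z - PhM M (Φ.subtype ∘ₗ T i) *ᵥ z) (Sum.inr l)
    rw [Pi.sub_apply, Pi.sub_apply, h1]
    rfl
  have haad : aa * (XM M).d = -(pcol p * ph) := by
    have h1 := hf.comm0
    ext i j
    have h2 := congrFun (congrFun h1 (Sum.inr i)) j
    rw [Matrix.mul_apply, Matrix.mul_apply] at h2
    rw [Matrix.mul_apply, Matrix.neg_apply, Matrix.mul_apply]
    simp only [aa, ph, Matrix.of_apply]
    rw [← h2]
    simp [LW, Fintype.sum_sum_type]
  refine ⟨{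
    X := XM M
    deg_le := by rintro (j | j | j) <;> simp [XM]
    le_deg := by rintro (j | j | j) <;> simp [XM]
    min := ?_
    ue := fun i => ue_XM M (S.mem i)
    aa := aa
    aa_deg := ?_
    ph := ph
    ph_deg := ?_
    aa_d := haad
    mem := ?_
    surj := ?_
    ker := ?_ }⟩
  · rintro (i | i | i) (j | j | j)
    · exact zero_mem _
    · exact zero_mem _
    · exact zero_mem _
    · show LinearMap.toMatrix' M.dm i j ∈ _
      rw [LinearMap.toMatrix'_apply]
      exact M.min_m _ _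
    · exact zero_mem _
    · exact zero_mem _
    · exact zero_mem _
    · show LinearMap.toMatrix' M.d0 i j ∈ _
      rw [LinearMap.toMatrix'_apply]
      exact M.min_0 _ _
    · exact zero_mem _
  · intro i j hj
    refine hf.hmg (Sum.inr i) j ?_
    intro h
    apply hj
    have h1 : (LW p).deg (Sum.inr i) = 0 := rfl
    rw [h1] at h
    linarith
  · intro i j hj
    show -f (Sum.inl i) j = 0
    rw [neg_eq_zero]
    refine hf.hmg (Sum.inl i) j ?_
    intro h
    apply hj
    have h1 : (LW p).deg (Sum.inl i) = -1 := rfl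
    rw [h1] at h
    linarith
  · intro z hz
    obtain ⟨r, hr⟩ := hkey 0 z hz
    have h1 : a 0 ^ N 0 • (aa *ᵥ z) ∈ F1 p := by
      rw [sub_eq_iff_eq_add.1 hr]
      exact F1_add (F1_smul r hpF) ((hΦ _).1 (T 0 _).2)
    exact F1_of_smul (pow_ne_zero _ (S.ne 0)) h1
  · intro x hx
    obtain ⟨b, hb1, hb2⟩ := M.surj (th ⟨x, (hΦ x).2 hx⟩) 0 (by rw [hth1, map_zero])
    have hz : (Sum.elim 0 (Sum.elim b 0) : Fin M.e ⊕ (Fin M.n ⊕ Fin M.b) → R) ∈ (XM M).Z0 :=
      (mem_Z0_XM M).2 ⟨fun _ => rfl, fun _ => rfl, hb2⟩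
    refine ⟨_, hz, ?_⟩
    obtain ⟨r, hr⟩ := hkey 0 _ hz
    have h1 : th (T 0 b) = th (a 0 ^ N 0 • ⟨x, (hΦ x).2 hx⟩) := by
      rw [hT 0 b hb2, hb1, map_smul]
    obtain ⟨r', hr'⟩ := hexd _ _ h1
    have h2 : a 0 ^ N 0 • (x - aa *ᵥ (Sum.elim 0 (Sum.elim b 0))) = (-(r + r')) • p := by
      have h3 : (T 0 b : E8 R) - a 0 ^ N 0 • x = r' • p := hr'
      have h4 : a 0 ^ N 0 • (aa *ᵥ (Sum.elim 0 (Sum.elim b 0))) - (T 0 b : E8 R) = r • p := hr
      rw [smul_sub, neg_smul, add_smul, ← h3, ← h4]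
      abel
    obtain ⟨s, hs⟩ := S.sat _ (pow_ne_zero _ (S.ne 0)) _ _ h2
    exact ⟨s, by rw [← hs]; abel⟩
  · intro z hz r h
    have hz' := (mem_Z0_XM M).1 hz
    obtain ⟨r', hr'⟩ := hkey 0 z hz
    have h1 : th (T 0 (fun i => z (Sum.inr (Sum.inl i)))) = 0 := by
      rw [hth3]
      refine ⟨-(a 0 ^ N 0 * r + r'), ?_⟩
      have h2 : aa *ᵥ z = -(r • p) := eq_neg_of_add_eq_zero_left h
      rw [h2] at hr'
      rw [neg_smul, add_smul, ← hr', smul_neg, smul_smul]
      abel
    rw [hT 0 _ hz'.2.2] at h1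
    have h2 := hA _ _ (pow_ne_zero _ (S.ne 0)) h1
    obtain ⟨w, hw⟩ := M.exact _ h2 hz'.2.2
    have h3 : z = (XM M).d *ᵥ (Sum.elim w 0) := by
      rw [XM_mulVec]
      funext j
      rcases j with j | j | j
      · exact hz'.1 j
      · exact (congrFun hw j).symm
      · show z (Sum.inr (Sum.inr j)) = M.d0 0 j
        rw [map_zero]
        exact hz'.2.1 j
    refine ⟨Sum.elim w 0, ?_, h3, ?_⟩
    · rintro (j | j | j) hj
      · exact (hj rfl).elim
      · rfl
      · rfl
    · rw [h3, Matrix.mulVec_mulVec, haad, Matrix.neg_mulVec, ← Matrix.mulVec_mulVec] at h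
      have h4 : pcol p *ᵥ (ph *ᵥ (Sum.elim w 0)) = (ph *ᵥ (Sum.elim w 0)) () • p := by
        funext l
        simp [pcol, Matrix.mulVec, dotProduct, mul_comm]
      rw [h4, neg_add_eq_sub, ← sub_smul] at h
      have h5 := (smul_eq_zero.1 h).resolve_right S.p_ne
      exact sub_eq_zero.1 h5

end mono

section reflexive

variable {R : Type u} [CommRing R] [IsDomain R] [IsLocalRing R] {p : Fin 248 → R}
  {a : Fin 6 → R}

theorem LW_mulVec (w : Unit ⊕ Fin 248 → R) :
    (LW p).d *ᵥ w = Sum.elim (0 : Unit → R) (w (Sum.inl ()) • p) := by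
  funext i
  rcases i with i | i
  · simp [LW, Matrix.mulVec, dotProduct, Fintype.sum_sum_type]
  · simp [LW, Matrix.mulVec, dotProduct, Fintype.sum_sum_type, pcol, mul_comm]

theorem mk_eq_zero_iff (x : XE.Phi p) :
    (Submodule.Quotient.mk x : XE.VR p) = 0 ↔ ∃ r : R, (x : E8 R) = r • p := by
  rw [Submodule.Quotient.mk_eq_zero, Submodule.mem_comap, Submodule.subtype_apply,
    Submodule.mem_span_singleton]
  exact ⟨fun ⟨r, h⟩ => ⟨r, h.symm⟩, fun ⟨r, h⟩ => ⟨r, h.symm⟩⟩

/-- `V` is torsionless. -/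
theorem torsionless (S : Setup R p a) (hUP : XE.UP R (XE.VR p)) (v : XE.VR p)
    (hv : ∀ l : Module.Dual R (XE.VR p), l v = 0) : v = 0 := by
  obtain ⟨n, s, α, β, hαβ⟩ := hUP (a 0) (S.mem 0)
  obtain ⟨x, rfl⟩ := Submodule.Quotient.mk_surjective _ v
  have h1 : α (Submodule.Quotient.mk x) = 0 := by
    funext j
    exact hv (LinearMap.proj j ∘ₗ α)
  have h2 := hαβ (Submodule.Quotient.mk x)
  rw [h1, map_zero, ← Submodule.Quotient.mk_smul, eq_comm, mk_eq_zero_iff] at h2
  obtain ⟨r, hr⟩ := h2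
  rw [mk_eq_zero_iff]
  exact S.sat _ (pow_ne_zero n (S.ne 0)) _ _ hr

/-- `V` is reflexive. -/
theorem reflexive (S : Setup R p a) (hΦ : ∀ x, x ∈ XE.Phi p ↔ x ∈ F1 p)
    (hUP : XE.UP R (XE.VR p)) (ψ : Module.Dual R (Module.Dual R (XE.VR p))) :
    ∃ v : XE.VR p, ∀ l : Module.Dual R (XE.VR p), ψ l = l v := by
  have := S.char0
  have hpF : p ∈ F1 p := p_mem S.cone
  choose N s α β hαβ using fun i => hUP (a i) (S.mem i)
  -- local solutions
  let v : Fin 6 → XE.VR p := fun i => β i (fun j => ψ (LinearMap.proj j ∘ₗ α i))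
  have hsing : ∀ {m : ℕ} (j : Fin m), (fun i => if j = i then (1 : R) else 0) =
      Pi.single j 1 := by
    intro m j
    funext i
    simp [Pi.single_apply, eq_comm]
  have hv : ∀ i (l : Module.Dual R (XE.VR p)), l (v i) = a i ^ N i * ψ l := by
    intro i l
    have h1 : l (v i) = ∑ j, ψ (LinearMap.proj j ∘ₗ α i) * l (β i (Pi.single j 1)) := by
      have := LinearMap.pi_apply_eq_sum_univ (l ∘ₗ β i) (fun j => ψ (LinearMap.proj j ∘ₗ α i))
      refine this.trans (Finset.sum_congr rfl fun j _ => ?_)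
      rw [smul_eq_mul, hsing]
      rfl
    have h2 : a i ^ N i • l = ∑ j, l (β i (Pi.single j 1)) • (LinearMap.proj j ∘ₗ α i) := by
      refine LinearMap.ext fun x => ?_
      have h3 := LinearMap.pi_apply_eq_sum_univ (l ∘ₗ β i) (α i x)
      rw [LinearMap.comp_apply, hαβ, map_smul] at h3
      rw [LinearMap.smul_apply, h3, LinearMap.sum_apply]
      refine Finset.sum_congr rfl fun j _ => ?_
      rw [LinearMap.smul_apply, smul_eq_mul, smul_eq_mul, mul_comm, hsing]
      rfl
    rw [h1, ← smul_eq_mul, ← map_smul, h2, map_sum]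
    refine Finset.sum_congr rfl fun j _ => ?_
    rw [map_smul, smul_eq_mul, mul_comm]
  choose x hx using fun i => Submodule.Quotient.mk_surjective
    ((Submodule.span R {p}).comap (XE.Phi p).subtype) (v i)
  have hk : ∀ i j, ∃ r : R, a j ^ N j • (x i : E8 R) - a i ^ N i • (x j : E8 R) = r • p := by
    intro i j
    have h1 : a j ^ N j • v i - a i ^ N i • v j = 0 := by
      refine torsionless S hUP _ fun l => ?_
      rw [map_sub, map_smul, map_smul, hv, hv, smul_eq_mul, smul_eq_mul]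
      ring
    rw [← hx, ← hx, ← Submodule.Quotient.mk_smul, ← Submodule.Quotient.mk_smul,
      ← Submodule.Quotient.mk_sub, mk_eq_zero_iff] at h1
    exact h1
  obtain ⟨t, ht, htw⟩ := depth_extend a S.reg (deg := (LW p).deg) (d := (LW p).d)
    (hmg_lic (LW p)) (LW p).sq (fun i => (UE.iff_licci _ _).1 (ue_LW S i)) 1
    (by rintro (j | j) <;> simp [LW]) (by norm_num) N
    (fun i => Sum.elim (0 : Unit → R) (x i : E8 R))
    (by
      rintro i (j | j) hj
      · exact (hj rfl).elim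
      · rfl)
    (by
      intro i j
      obtain ⟨r, hr⟩ := hk i j
      refine ⟨Sum.elim (fun _ => r) 0, ?_⟩
      rw [LW_mulVec]
      funext l
      rcases l with l | l
      · simp
      · exact congrFun hr l)
  let t' : E8 R := fun l => t (Sum.inr l)
  have ht' : ∀ i, ∃ r : R, a i ^ N i • t' - (x i : E8 R) = r • p := by
    intro i
    obtain ⟨w, -, hw⟩ := htw i
    rw [LW_mulVec] at hw
    exact ⟨w (Sum.inl ()), funext fun l => congrFun hw (Sum.inr l)⟩
  obtain ⟨r, hr⟩ := ht' 0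
  have hmem : t' ∈ XE.Phi p := by
    rw [hΦ]
    refine F1_of_smul (pow_ne_zero (N 0) (S.ne 0)) ?_
    rw [sub_eq_iff_eq_add.1 hr]
    exact F1_add (F1_smul r hpF) ((hΦ _).1 (x 0).2)
  refine ⟨Submodule.Quotient.mk ⟨t', hmem⟩, fun l => ?_⟩
  have h1 : a 0 ^ N 0 • (Submodule.Quotient.mk ⟨t', hmem⟩ : XE.VR p) = v 0 := by
    rw [← hx, ← Submodule.Quotient.mk_smul, ← sub_eq_zero, ← Submodule.Quotient.mk_sub,
      mk_eq_zero_iff]
    exact ⟨r, hr⟩
  have h2 := hv 0 l
  rw [← h1, map_smul, smul_eq_mul] at h2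
  exact (mul_left_cancel₀ (pow_ne_zero (N 0) (S.ne 0)) h2).symm

/-- The data of the core, from the vanishing of `Ext² (V*, R)` and `Ext³ (V*, R)`. -/
theorem exists_coreData [IsNoetherianRing R] (S : Setup R p a)
    (hgen : Ideal.span (Set.range a) = maximalIdeal R)
    (hΦ : ∀ x, x ∈ XE.Phi p ↔ x ∈ F1 p) [Module.Finite R (Module.Dual R (XE.VR p))]
    (h23 : XE.H23 R (Module.Dual R (XE.VR p))) (hUPN : XE.UP R (Module.Dual R (XE.VR p)))
    (hUPV : XE.UP R (XE.VR p)) :
    ∃ e n b : ℕ, Nonempty (CoreData R p a (Fin e ⊕ (Fin n ⊕ Fin b))) := by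
  obtain ⟨n, d, aug, haug, h0, hd⟩ := XE.exists_resolution (R := R) (Module.Dual R (XE.VR p))
  obtain ⟨ex2, ex3⟩ := (XE.H23.dual (hd 2) (hd 1) (hd 0) h0 haug).1 h23
  have hlist : List.ofFn a = [a 0, a 1, a 2, a 3, a 4, a 5] := by
    simp [List.ofFn_succ]
  have hreg : IsWeaklyRegular R [a 0, a 1, a 2, a 3, a 4, a 5] := by
    rw [← hlist]
    exact S.reg
  have hg : Ideal.ofList [a 0, a 1, a 2, a 3, a 4, a 5] = maximalIdeal R := by
    rw [← hlist, ← hgen, Ideal.ofList]
    congr 1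
    ext x
    simp only [List.mem_ofFn, Set.mem_ofPred_eq, Set.mem_range]
  obtain ⟨M⟩ := XE.exists_mono_of_res aug (d 0) (d 1) (d 2) (d 3) (a 0) (a 1) (a 2) (a 3) (a 4)
    (a 5) hg hreg haug h0 (hd 0) (hd 1) (hd 2) ex2 ex3 hUPN
  refine ⟨M.e, M.n, M.b, ?_⟩
  refine coreData_of_mono S ?_ M (XE.Phi p) hΦ
    (XE.pb aug ∘ₗ Module.Dual.eval R (XE.VR p) ∘ₗ
      ((Submodule.span R {p}).comap (XE.Phi p).subtype).mkQ) ?_ ?_ ?_
  · intro c x hc h
    refine LinearMap.ext fun y => ?_
    have h1 := LinearMap.congr_fun h y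
    rw [LinearMap.smul_apply, LinearMap.zero_apply, smul_eq_mul] at h1
    exact (mul_eq_zero.1 h1).resolve_left hc
  · intro x
    apply Subtype.ext
    refine LinearMap.ext fun y => ?_
    have h1 : aug (d 0 y) = 0 := h0.apply_apply_eq_zero y
    show (Module.Dual.eval R (XE.VR p) (Submodule.Quotient.mk x)) (aug (d 0 y)) = 0
    rw [h1, map_zero]
  · intro φ hφ
    have h1 : ∀ y, φ (d 0 y) = 0 := fun y => LinearMap.congr_fun (congrArg Subtype.val hφ) y
    -- `φ` factors through `aug`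
    have hk : LinearMap.ker aug ≤ LinearMap.ker φ := by
      intro y hy
      obtain ⟨z, rfl⟩ := (h0 y).1 hy
      exact h1 z
    let ψ : Module.Dual R (Module.Dual R (XE.VR p)) :=
      ((LinearMap.ker aug).liftQ φ hk) ∘ₗ
        (LinearMap.quotKerEquivOfSurjective aug haug).symm.toLinearMap
    have hψ : ∀ y, ψ (aug y) = φ y := by
      intro y
      have h2 : (LinearMap.quotKerEquivOfSurjective aug haug).symm (aug y) =
          Submodule.Quotient.mk y := by
        rw [LinearEquiv.symm_apply_eq]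
        rfl
      show ((LinearMap.ker aug).liftQ φ hk)
        ((LinearMap.quotKerEquivOfSurjective aug haug).symm (aug y)) = φ y
      rw [h2]
      rfl
    obtain ⟨v, hv⟩ := reflexive S hΦ hUPV ψ
    obtain ⟨x, rfl⟩ := Submodule.Quotient.mk_surjective _ v
    refine ⟨x, LinearMap.ext fun y => ?_⟩
    rw [← hψ, hv]
    rfl
  · intro x
    rw [← mk_eq_zero_iff]
    constructor
    · intro h
      refine torsionless S hUPV _ fun l => ?_
      obtain ⟨y, rfl⟩ := haug l
      exact LinearMap.congr_fun h y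
    · intro h
      refine LinearMap.ext fun y => ?_
      show (aug y) (Submodule.Quotient.mk x) = 0
      rw [h, map_zero]

end reflexive

end LicciCore

end
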