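import Pool.Agent.Work.MP_a98e4e_ag.Fu.Core.MapsEv
import Pool.Agent.Work.MP_a98e4e_ag.Fu.Cx.Cone
import Pool.Agent.Work.MP_a98e4e_ag.Fu.E.KForm
import Pool.Agent.Work.MP_a98e4e_ag.Fu.Core.KFacts

section

/-!
# The Casimir identity on the complex `G`: `(L + 12) (L + 28)` is null-homotopic
-/

set_option autoImplicit false
set_option linter.unusedSectionVars false

open Matrix Kronecker RingTheory.Sequence

namespace LicciCx

namespace Cx

universe u v

section cur

variable {R : Type u} [CommRing R] {J JG : Type*} [Fintype J] [Fintype JG] [DecidableEq J]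
  [DecidableEq JG]

theorem e_same (K : Cx R J) (j : J) : K.e j j = ((sg (K.deg j) : ℤ) : R) :=
  Matrix.diagonal_apply_eq _ _

theorem e_ne (K : Cx R J) {i j : J} (h : i ≠ j) : K.e i j = 0 :=
  Matrix.diagonal_apply_ne _ h

/-- currying -/
def cur (al : Matrix J (JG × J) R) : Matrix (J × J) JG R :=
  Matrix.of fun x g => al x.1 (g, x.2)

/-- the value of a bilinear map at the first argument -/
def mt (al : Matrix J (JG × J) R) (z : JG → R) : Matrix J J R :=
  Matrix.of fun m m' => ∑ g, al m (g, m') * z g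

theorem cur_mulVec (al : Matrix J (JG × J) R) (z : JG → R) : cur al *ᵥ z = vec (mt al z) := by
  ext ⟨m, m'⟩
  rfl

theorem mt_mulVec (al : Matrix J (JG × J) R) (z : JG → R) (v : J → R) :
    mt al z *ᵥ v = al *ᵥ vk z v := by
  ext m
  simp only [mt, Matrix.mulVec, dotProduct, Matrix.of_apply, vk, tv, Fintype.sum_prod_type]
  rw [Finset.sum_comm]
  refine Finset.sum_congr rfl fun m' _ => ?_
  rw [Finset.sum_mul]
  refine Finset.sum_congr rfl fun g _ => ?_
  ring

theorem cl_cur {X : Cx R J} {G : Cx R JG} {al : Matrix J (JG × J) R}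
    (hal : Cl (G.tensor X) X 0 al) : Cl G (Hom X X) 0 (cur al) := by
  refine Cl.mk0 ?_ ?_
  · rintro ⟨m, m'⟩ g h
    refine hal.hmg m (g, m') ?_
    rw [tensor_deg]
    intro h2
    apply h
    rw [Hom_deg]
    simp only at h2 ⊢
    omega
  · ext ⟨m, m'⟩ g
    have h1 := congrFun (congrFun hal.comm0 m) (g, m')
    simp only [Matrix.mul_apply, Fintype.sum_prod_type, tensor_d, Matrix.add_apply,
      Matrix.kroneckerMap_apply] at h1
    simp only [Matrix.mul_apply, Fintype.sum_prod_type, Hom, tensor_d, dual_d, Matrix.add_apply,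
      Matrix.kroneckerMap_apply, cur, Matrix.of_apply, Matrix.neg_apply, Matrix.transpose_apply]
    have e1 : ∀ x : J, ∑ y, (X.d m x * (1 : Matrix J J R) m' y +
        X.e m x * -(∑ j, X.e y j * X.d j m')) * al x (g, y) =
        X.d m x * al x (g, m') - X.e m x * ∑ y, (∑ j, X.e y j * X.d j m') * al x (g, y) := by
      intro x
      have e2 : ∀ y : J, (X.d m x * (1 : Matrix J J R) m' y +
          X.e m x * -(∑ j, X.e y j * X.d j m')) * al x (g, y) =
          X.d m x * ((1 : Matrix J J R) m' y * al x (g, y)) -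
            X.e m x * ((∑ j, X.e y j * X.d j m') * al x (g, y)) := by
        intro y; ring
      rw [Finset.sum_congr rfl fun y _ => e2 y, Finset.sum_sub_distrib, ← Finset.mul_sum,
        ← Finset.mul_sum]
      congr 2
      rw [Finset.sum_eq_single m']
      · rw [Matrix.one_apply_eq, one_mul]
      · intro y _ hy
        rw [Matrix.one_apply_ne hy.symm, zero_mul]
      · intro h; exact absurd (Finset.mem_univ _) h
    rw [Finset.sum_congr rfl fun x _ => e1 x, Finset.sum_sub_distrib, h1]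
    have e3 : ∀ x : JG, ∑ y, al m (x, y) * (G.d x g * (1 : Matrix J J R) y m' +
        G.e x g * X.d y m') = al m (x, m') * G.d x g + G.e x g * ∑ y, al m (x, y) * X.d y m' := by
      intro x
      have e2 : ∀ y : J, al m (x, y) * (G.d x g * (1 : Matrix J J R) y m' + G.e x g * X.d y m') =
          al m (x, y) * (1 : Matrix J J R) y m' * G.d x g +
            G.e x g * (al m (x, y) * X.d y m') := by
        intro y; ring
      rw [Finset.sum_congr rfl fun y _ => e2 y, Finset.sum_add_distrib, ← Finset.sum_mul,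
        ← Finset.mul_sum]
      congr 2
      rw [Finset.sum_eq_single m']
      · rw [Matrix.one_apply_eq, mul_one]
      · intro y _ hy
        rw [Matrix.one_apply_ne hy, mul_zero]
      · intro h; exact absurd (Finset.mem_univ _) h
    rw [Finset.sum_congr rfl fun x _ => e3 x, Finset.sum_add_distrib, add_sub_assoc]
    have e4 : ∑ x, G.e x g * ∑ y, al m (x, y) * X.d y m' =
        ((sg (G.deg g) : ℤ) : R) * ∑ y, al m (g, y) * X.d y m' := by
      rw [Finset.sum_eq_single g]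
      · rw [e_same]
      · intro x _ hx
        rw [e_ne _ hx, zero_mul]
      · intro h; exact absurd (Finset.mem_univ _) h
    have e5 : ∑ x, X.e m x * ∑ y, (∑ j, X.e y j * X.d j m') * al x (g, y) =
        ((sg (X.deg m) : ℤ) : R) * ∑ y, ((sg (X.deg y) : ℤ) : R) * X.d y m' * al m (g, y) := by
      rw [Finset.sum_eq_single m]
      · rw [e_same]
        congr 1
        refine Finset.sum_congr rfl fun y _ => ?_
        congr 1
        rw [Finset.sum_eq_single y]
        · rw [e_same]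
        · intro j _ hj
          rw [e_ne _ hj.symm, zero_mul]
        · intro h; exact absurd (Finset.mem_univ _) h
      · intro x _ hx
        rw [e_ne _ hx.symm, zero_mul]
      · intro h; exact absurd (Finset.mem_univ _) h
    rw [e4, e5]
    have e6 : ((sg (G.deg g) : ℤ) : R) * ∑ y, al m (g, y) * X.d y m' =
        ((sg (X.deg m) : ℤ) : R) * ∑ y, ((sg (X.deg y) : ℤ) : R) * X.d y m' * al m (g, y) := by
      rw [Finset.mul_sum, Finset.mul_sum]
      refine Finset.sum_congr rfl fun y _ => ?_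
      by_cases h : X.deg m = G.deg g + X.deg y
      · have h2 : ((sg (X.deg m) : ℤ) : R) * ((sg (X.deg y) : ℤ) : R) =
            ((sg (G.deg g) : ℤ) : R) := by
          rw [h, sg_add]
          push_cast
          rw [mul_assoc, ← Int.cast_mul (sg (X.deg y)), sg_mul_self, Int.cast_one, mul_one]
        rw [← h2]; ring
      · have h3 : al m (g, y) = 0 := hal.hmg m (g, y) (by
          rw [tensor_deg]; intro h4; apply h; simp only at h4; omega)
        rw [h3]; ring
    rw [e6, sub_self, add_zero]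

theorem Z0_map {X : Cx R J} {G : Cx R JG} {f : Matrix JG J R} (hf : Cl X G 0 f) {z : J → R}
    (hz : z ∈ X.Z0) : f *ᵥ z ∈ G.Z0 := by
  refine ⟨?_, ?_⟩
  · have h1 : Vh X 0 z := hz.1
    exact (Vh.mulVec hf.hmg h1)
  · rw [Matrix.mulVec_mulVec, hf.comm0, ← Matrix.mulVec_mulVec, hz.2, Matrix.mulVec_zero]

theorem B0_map {X : Cx R J} {G : Cx R JG} {f : Matrix JG J R} (hf : Cl X G 0 f) {z : J → R}
    (hz : z ∈ X.B0) : f *ᵥ z ∈ G.B0 := by
  obtain ⟨w, hw, rfl⟩ := hz
  refine ⟨f *ᵥ w, ?_, ?_⟩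
  · have h1 : Vh X (-1) w := hw
    exact (Vh.mulVec hf.hmg h1)
  · rw [Matrix.mulVec_mulVec, hf.comm0, ← Matrix.mulVec_mulVec]

theorem BT_map [IsDomain R] {X : Cx R J} {G : Cx R JG} {f : Matrix JG J R} (hf : Cl X G 0 f)
    {z : J → R} (hz : z ∈ X.BT) : f *ᵥ z ∈ G.BT := by
  obtain ⟨c, hc, h⟩ := hz
  refine ⟨c, hc, ?_⟩
  rw [← Matrix.mulVec_smul]
  exact B0_map hf h

end cur

end Cx

end LicciCx

namespace LicciCore

open LicciCx Cx Pool.Agent.Licci

universe u

theorem F1_sub' {R : Type*} [CommRing R] {p x y : E8 R} (hx : x ∈ F1 p) (hy : y ∈ F1 p) :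
    x - y ∈ F1 p := by
  intro w hw
  rw [kf_sub_left, hx w hw, hy w hw, sub_zero]

/-- eigenvalues and the form -/
theorem kf_h {R : Type*} [CommRing R] {p e v : E8 R} {χ : R} (hv : br v p = χ • p) :
    kf (br p e) v = χ * kf p e := by
  rw [Pool.Agent.Licci.kf_symm, ← Pool.Agent.Licci.kf_inv, hv, kf_smul_left]

namespace CoreData

variable {R : Type u} [CommRing R] [IsDomain R] [IsLocalRing R] {p : Fin 248 → R}
  {a : Fin 6 → R} {J : Type} [Fintype J] [DecidableEq J] (D : CoreData R p a J)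

/-- `L g = ∑ Dh (e_i^*, al (g, e_i))` -/
noncomputable def Lc (S : Setup R p a) : Matrix ((Fin 248 ⊕ (Unit ⊕ J)) ⊕ (Unit ⊕ J))
    ((Fin 248 ⊕ (Unit ⊕ J)) ⊕ (Unit ⊕ J)) R :=
  Matrix.of fun g' g => ∑ i, ∑ j,
    ((sg (D.X.deg i * D.X.deg j) : ℤ) : R) * D.Dh S g' (i, j) * D.al S j (g, i)

theorem Lc_eq (S : Setup R p a) : D.Lc S = D.Dh S * (sw D.X D.X.dual * cur (D.al S)) := by
  ext g' g
  rw [← Matrix.mul_assoc, Matrix.mul_apply]
  simp only [Lc, Matrix.of_apply, Fintype.sum_prod_type, mul_sw, cur, dual_deg]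
  rw [Finset.sum_comm]
  refine Finset.sum_congr rfl fun i _ => Finset.sum_congr rfl fun j _ => ?_
  have h : sg (D.X.deg i * -D.X.deg j) = sg (D.X.deg j * D.X.deg i) := by
    rw [mul_neg, sg_neg, mul_comm]
  rw [h]

theorem cl_cur_al (S : Setup R p a) : Cl (D.G S) (Hom D.X D.X) 0 (cur (D.al S)) :=
  cl_cur (D.exists_al S).choose_spec.1

theorem cl_Dh_sw (S : Setup R p a) :
    Cl (Hom D.X D.X) (D.G S) 0 (D.Dh S * sw D.X D.X.dual) :=
  ((D.exists_Dh S).choose_spec.1.mul (cl_sw D.X D.X.dual)).cast (by ring)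

theorem cl_Lc (S : Setup R p a) : Cl (D.G S) (D.G S) 0 (D.Lc S) := by
  rw [Lc_eq, ← Matrix.mul_assoc]
  exact ((D.cl_Dh_sw S).mul (D.cl_cur_al S)).cast (by ring)

/-- the linear form `z ↦ (w, aa z)` -/
def lw (w : Fin 248 → R) : J → R := fun j => kf w (fun i => D.aa i j)

theorem kf_aa (w : Fin 248 → R) (z : J → R) : kf w (D.aa *ᵥ z) = D.lw w ⬝ᵥ z := by
  have h : D.aa *ᵥ z = ∑ j, z j • (fun i => D.aa i j) := by
    ext i
    simp only [Matrix.mulVec, dotProduct, Finset.sum_apply, Pi.smul_apply, smul_eq_mul]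
    exact Finset.sum_congr rfl fun j _ => mul_comm _ _
  rw [h, kf_sum_right, dotProduct]
  refine Finset.sum_congr rfl fun j _ => ?_
  rw [kf_smul_right, lw, mul_comm]

theorem lw_d {w : Fin 248 → R} (hw : kf p w = 0) : D.lw w ᵥ* D.X.d = 0 := by
  ext j
  have h1 : (D.lw w ᵥ* D.X.d) j = kf w (D.aa *ᵥ (fun k => D.X.d k j)) := by
    rw [kf_aa]; rfl
  have h2 : D.aa *ᵥ (fun k => D.X.d k j) = (-(D.ph () j)) • p := by
    ext i
    have := congrFun (congrFun D.aa_d i) j
    rw [Matrix.mul_apply] at this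
    simp only [Matrix.mulVec, dotProduct, this, Matrix.neg_apply, Matrix.mul_apply,
      Finset.univ_unique, Finset.sum_singleton, pcol, Matrix.of_apply, Pi.smul_apply, smul_eq_mul]
    show -(p i * D.ph () j) = -D.ph () j * p i
    ring
  rw [h1, h2, kf_smul_right, Pool.Agent.Licci.kf_symm, hw, mul_zero]
  rfl

theorem lw_deg (w : Fin 248 → R) (j : J) (h : D.X.deg j ≠ 0) : D.lw w j = 0 := by
  have : (fun i => D.aa i j) = (0 : E8 R) := by
    ext i; exact D.aa_deg i j h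
  rw [lw, this]
  have := kf_smul_right (0 : R) w (0 : E8 R)
  simp only [smul_zero, zero_mul] at this
  exact this

theorem lw_mem {w : Fin 248 → R} (hw : kf p w = 0) : D.lw w ∈ D.X.dual.Z0 := by
  refine ⟨fun j hj => D.lw_deg w j (by intro h; apply hj; rw [dual_deg, h]; rfl), ?_⟩
  rw [dual_d]
  ext j
  have h1 : (-(D.X.e * D.X.d)ᵀ *ᵥ D.lw w) j = -((D.lw w ᵥ* (D.X.e * D.X.d)) j) := by
    rw [Matrix.neg_mulVec, Matrix.mulVec_transpose]; rfl
  have h2 : D.lw w ᵥ* D.X.e = D.lw w := by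
    ext k
    show (D.lw w ᵥ* Matrix.diagonal (fun j => ((sg (D.X.deg j) : ℤ) : R))) k = _
    rw [Matrix.vecMul_diagonal]
    by_cases hk : D.X.deg k = 0
    · rw [hk, sg_zero]; simp
    · rw [D.lw_deg w k hk, zero_mul]
  rw [h1, ← Matrix.vecMul_vecMul, h2, D.lw_d hw]
  simp

/-- the vector of a rank one matrix -/
theorem vec_vecMulVec (x y : J → R) : Cx.vec (Matrix.vecMulVec x y) = tv x y := rfl

theorem vmv_mulVec (x l y : J → R) : Matrix.vecMulVec x l *ᵥ y = (l ⬝ᵥ y) • x := by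
  ext j
  simp only [Matrix.mulVec, dotProduct, Matrix.vecMulVec_apply, Pi.smul_apply, smul_eq_mul,
    Finset.sum_mul]
  refine Finset.sum_congr rfl fun j' _ => ?_
  ring

/-- The Casimir expression of the class of `L z`. -/
theorem Lc_ev (S : Setup R p a) {z : (Fin 248 ⊕ (Unit ⊕ J)) ⊕ (Unit ⊕ J) → R}
    (hz : z ∈ (D.G S).Z0) {χ : R} (hχ : br (D.ev S *ᵥ z) p = χ • p) {v : E8 R} {χ' : R}
    (hv : br v p = χ' • p) :
    kf (D.ev S *ᵥ (D.Lc S *ᵥ z)) v = -(12 * kf (D.ev S *ᵥ z) v + 8 * χ * χ') := by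
  have := S.char0
  have hp0 : p ≠ 0 := by
    obtain ⟨q, hq⟩ := S.top
    intro h; apply hq; rw [h]; rfl
  obtain ⟨x, w, c, F⟩ := exists_dualFam S.cone S.top
  have hvF0 : v ∈ F0 p := mem_F0_of_eigen hv
  have hal := D.cl_cur_al S
  set u : E8 R := D.ev S *ᵥ z with hu
  set M : Matrix J J R := mt (D.al S) z with hM
  have hMv : cur (D.al S) *ᵥ z = Cx.vec M := cur_mulVec _ _
  have hMcl : Cl D.X D.X 0 M := by
    have h1 : cur (D.al S) *ᵥ z ∈ (Hom D.X D.X).Z0 := Z0_map hal hz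
    rw [hMv] at h1
    exact cl_iff.2 h1
  choose ζ hζ r hr using fun i => D.surj (x i) (F.x_mem i)
  set l : Fin 56 → J → R := fun i => D.lw (w i) with hl
  -- the rank decomposition
  set N : Matrix J J R := c • M - ∑ i, Matrix.vecMulVec (M *ᵥ ζ i) (l i) with hN
  have hrk : ∀ i, Cl D.X D.X 0 (Matrix.vecMulVec (M *ᵥ ζ i) (l i)) := by
    intro i
    have hz1 := Z0_map hMcl (hζ i)
    refine Cl.mk0 ?_ ?_
    · intro j j' h
      rw [Matrix.vecMulVec_apply]
      by_cases h1 : D.X.deg j = 0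
      · have h2 : D.X.deg j' ≠ 0 := by
          intro h2; apply h; rw [h1, h2]; rfl
        show _ * D.lw (w i) j' = 0
        rw [D.lw_deg _ _ h2, mul_zero]
      · rw [hz1.1 j h1, zero_mul]
    · rw [Matrix.mul_vecMulVec, hz1.2, Matrix.vecMulVec_mul, D.lw_d (F.w_perp i)]
      ext j j'
      simp [Matrix.vecMulVec_apply]
  have hNcl : Cl D.X D.X 0 N := by
    refine (hMcl.smul c).sub ?_
    refine Finset.sum_induction _ (fun f => Cl D.X D.X 0 f) (fun _ _ h1 h2 => h1.add h2) Cl.zero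
      (fun i _ => hrk i)
  have hNb : Bd D.X D.X 0 N := by
    refine uniq1 a S.reg S.ne D.ue D.ue ?_ hNcl ?_
    · intro i j
      have := D.le_deg i
      have := D.deg_le j
      omega
    · intro y hy
      have h1 : N *ᵥ y = M *ᵥ (c • y - ∑ i, (l i ⬝ᵥ y) • ζ i) := by
        rw [hN, Matrix.sub_mulVec, Matrix.smul_mulVec, Matrix.mulVec_sub, Matrix.mulVec_smul,
          Matrix.sum_mulVec, Matrix.mulVec_sum]
        congr 1
        refine Finset.sum_congr rfl fun i _ => ?_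
        rw [Matrix.mulVec_smul, vmv_mulVec]
      rw [h1]
      refine BT_map hMcl ?_
      have h2 : c • y - ∑ i, (l i ⬝ᵥ y) • ζ i ∈ D.X.Z0 :=
        sub_mem (D.X.Z0.smul_mem _ hy) (sum_mem fun i _ => D.X.Z0.smul_mem _ (hζ i))
      obtain ⟨s, hs⟩ := F.span _ (D.mem y hy)
      have h3 : D.aa *ᵥ (c • y - ∑ i, (l i ⬝ᵥ y) • ζ i) +
          (-(s + ∑ i, (l i ⬝ᵥ y) * r i)) • p = 0 := by
        have h4 : ∀ i, D.aa *ᵥ ζ i = x i - r i • p := by
          intro i
          rw [eq_sub_iff_add_eq]; exact (hr i).symm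
        rw [Matrix.mulVec_sub, Matrix.mulVec_smul, hs, Matrix.mulVec_sum]
        simp only [Matrix.mulVec_smul, h4, D.kf_aa, smul_sub, Finset.sum_sub_distrib, smul_smul,
          neg_smul, add_smul, Finset.sum_smul]
        abel
      obtain ⟨w', hw', hzw, -⟩ := D.ker _ h2 _ h3
      refine ⟨1, one_ne_zero, w', hw', ?_⟩
      rw [one_smul, hzw]
  -- the vector of `N` is a boundary
  have hvN : Cx.vec N ∈ (Hom D.X D.X).B0 := by
    obtain ⟨y, hy1, hy2⟩ := bd_iff.1 hNb
    exact ⟨y, hy1, hy2⟩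
  have hvec : Cx.vec N = c • (cur (D.al S) *ᵥ z) - ∑ i, tv (M *ᵥ ζ i) (l i) := by
    rw [hMv]
    ext ⟨j, j'⟩
    simp only [Cx.vec, hN, Matrix.sub_apply, Matrix.smul_apply, Matrix.sum_apply,
      Matrix.vecMulVec_apply, Pi.sub_apply, Pi.smul_apply, Finset.sum_apply, tv]
  have h5 := B0_map (D.cl_Dh_sw S) hvN
  have h6 : (D.Dh S * sw D.X D.X.dual) *ᵥ Cx.vec N =
      c • (D.Lc S *ᵥ z) - ∑ i, D.Dh S *ᵥ tv (l i) (M *ᵥ ζ i) := by
    rw [hvec, Matrix.mulVec_sub, Matrix.mulVec_smul, Matrix.mulVec_sum, Lc_eq,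
      ← Matrix.mul_assoc, Matrix.mulVec_mulVec]
    congr 1
    refine Finset.sum_congr rfl fun i _ => ?_
    rw [← Matrix.mulVec_mulVec]
    congr 1
    exact sw_vk D.X D.X.dual (Z0_map hMcl (hζ i)) (D.lw_mem (F.w_perp i))
  rw [h6] at h5
  have h7 : (D.ev S) *ᵥ (c • (D.Lc S *ᵥ z) - ∑ i, D.Dh S *ᵥ tv (l i) (M *ᵥ ζ i)) ∈ F1 p :=
    (D.exists_ev S).choose_spec.2.choose_spec.2.2 _ ⟨1, one_ne_zero, by rw [one_smul]; exact h5⟩
  have h8 := h7 v hvF0
  rw [Matrix.mulVec_sub, Matrix.mulVec_smul, Matrix.mulVec_sum, kf_sub_left, kf_smul_left,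
    kf_sum_left, sub_eq_zero] at h8
  -- the terms
  have h9 : ∀ i, kf (D.ev S *ᵥ (D.Dh S *ᵥ tv (l i) (M *ᵥ ζ i))) v =
      -kf (w i) (br v (br u (x i))) := by
    intro i
    have hz1 := Z0_map hMcl (hζ i)
    have g1 := (D.exists_Dh S).choose_spec.2 (l i) (D.lw_mem (F.w_perp i)) (M *ᵥ ζ i) hz1 (w i) 1
      (F.w_perp i) (fun z' _ => by rw [D.kf_aa, one_mul])
    have g2 := g1 v hvF0
    rw [one_smul, kf_sub_left, sub_eq_zero] at g2
    obtain ⟨s, hs⟩ := (D.exists_al S).choose_spec.2 z hz (ζ i) (hζ i)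
    have g3 : D.c0 S • D.aa *ᵥ (M *ᵥ ζ i) = br u (x i) + (s - r i * χ) • p := by
      have e1 : M *ᵥ ζ i = D.al S *ᵥ tv z (ζ i) := mt_mulVec _ _ _
      have e2 : D.c0 S • D.aa *ᵥ (D.al S *ᵥ tv z (ζ i)) = br u (D.aa *ᵥ ζ i) + s • p := hs
      have e3 : D.aa *ᵥ ζ i = x i - r i • p := by
        rw [eq_sub_iff_add_eq]; exact (hr i).symm
      rw [e1, e2, e3, br_sub_right, br_smul_right, hχ, smul_smul, sub_smul]
      abel
    have g4 : kf (D.ev S *ᵥ (D.Dh S *ᵥ tv (l i) (M *ᵥ ζ i))) v =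
        kf (br (w i) (D.c0 S • D.aa *ᵥ (M *ᵥ ζ i))) v := by
      rw [br_smul_right]; exact g2
    have g5 : kf (br (w i) p) v = 0 := by
      rw [br_skew, kf_neg_left, kf_h hv, F.w_perp i, mul_zero, neg_zero]
    rw [g4, g3, br_add_right, br_smul_right, kf_add_left, kf_smul_left, g5, mul_zero, add_zero,
      Pool.Agent.Licci.kf_inv, br_skew, kf_neg_right]
  rw [Finset.sum_congr rfl fun i _ => h9 i, Finset.sum_neg_distrib,
    trace_id S.cone S.top F hχ hv, ← mul_neg] at h8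
  exact mul_left_cancel₀ F.ne h8

theorem Lc_sq (S : Setup R p a) :
    Bd (D.G S) (D.G S) 0 ((D.Lc S + (12 : R) • 1) * (D.Lc S + (28 : R) • 1)) := by
  have hp0 : p ≠ 0 := by
    obtain ⟨q, hq⟩ := S.top
    intro h; apply hq; rw [h]; rfl
  have hcl1 : Cl (D.G S) (D.G S) 0 (D.Lc S + (12 : R) • 1) := (D.cl_Lc S).add (Cl.one.smul _)
  have hcl2 : Cl (D.G S) (D.G S) 0 (D.Lc S + (28 : R) • 1) := (D.cl_Lc S).add (Cl.one.smul _)
  refine uniq1 a S.reg S.ne (D.ue_G S) (D.ue_G S) ?_ ((hcl1.mul hcl2).cast (by ring)) ?_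
  · have hX2 : ∀ k : Unit ⊕ J, -1 ≤ D.X2.deg k ∧ D.X2.deg k ≤ 1 := by
      rintro (k | k)
      · have : D.X2.deg (Sum.inl k) = 0 := rfl
        rw [this]; norm_num
      · have : D.X2.deg (Sum.inr k) = D.X.deg k := rfl
        rw [this]; exact ⟨D.le_deg k, D.deg_le k⟩
    have hG : ∀ k, -2 ≤ (D.G S).deg k ∧ (D.G S).deg k ≤ 2 := by
      rintro ((k | k) | k)
      · have : (D.G S).deg (Sum.inl (Sum.inl k)) = 0 := rfl
        rw [this]; norm_num
      · have : (D.G S).deg (Sum.inl (Sum.inr k)) = D.X2.deg k + (-1) := rfl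
        rw [this]; have := hX2 k; omega
      · have : (D.G S).deg (Sum.inr k) = -D.X2.deg k + 1 := rfl
        rw [this]; have := hX2 k; omega
    intro i j
    have := hG i
    have := hG j
    omega
  · intro z hz
    have := S.char0
    have evF0 : ∀ y ∈ (D.G S).Z0, D.ev S *ᵥ y ∈ F0 p := (D.exists_ev S).choose_spec.2.choose_spec.1
    set z1 := (D.Lc S + (28 : R) • 1) *ᵥ z with hz1
    have hz1m : z1 ∈ (D.G S).Z0 := Z0_map hcl2 hz
    have hy : (D.Lc S + (12 : R) • 1) *ᵥ z1 ∈ (D.G S).Z0 := Z0_map hcl1 hz1m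
    rw [← Matrix.mulVec_mulVec]
    refine (D.exists_ev S).choose_spec.2.choose_spec.2.1 _ hy ?_
    obtain ⟨χ, hχ⟩ := F0_eigen S.sat hp0 (evF0 z hz)
    obtain ⟨χ1, hχ1⟩ := F0_eigen S.sat hp0 (evF0 z1 hz1m)
    have e1 : ∀ (v : E8 R) (χ' : R), br v p = χ' • p →
        kf (D.ev S *ᵥ z1) v = 16 * kf (D.ev S *ᵥ z) v - 8 * χ * χ' := by
      intro v χ' hv
      have := D.Lc_ev S hz hχ hv
      rw [hz1, Matrix.add_mulVec, Matrix.smul_mulVec, Matrix.one_mulVec, Matrix.mulVec_add,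
        Matrix.mulVec_smul, kf_add_left, kf_smul_left, this]
      ring
    -- `χ1 = 0`
    have e2 : χ1 = 0 := by
      obtain ⟨n, e, he⟩ := S.pmem 0
      have hg : kf p e ≠ 0 := by rw [he]; exact pow_ne_zero _ (S.ne 0)
      have hh : br (br p e) p = (2 * kf p e) • p := by
        rw [br_skew, S.cone e, neg_smul, neg_neg]
      have f1 := e1 _ _ hh
      rw [Pool.Agent.Licci.kf_symm, kf_h hχ1, Pool.Agent.Licci.kf_symm (D.ev S *ᵥ z), kf_h hχ] at f1
      have f2 : χ1 * kf p e = 0 := by rw [f1]; ring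
      rcases mul_eq_zero.1 f2 with h | h
      · exact h
      · exact absurd h hg
    intro v hv
    obtain ⟨χ', hχ'⟩ := F0_eigen S.sat hp0 hv
    have := D.Lc_ev S hz1m hχ1 hχ'
    show kf (D.ev S *ᵥ ((D.Lc S + (12 : R) • 1) *ᵥ z1)) v = 0
    rw [Matrix.add_mulVec, Matrix.smul_mulVec, Matrix.one_mulVec, Matrix.mulVec_add,
        Matrix.mulVec_smul, kf_add_left, kf_smul_left, this, e2]
    ring

end CoreData

end LicciCore

end

section

/-!
# Reading off the closed fibre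

Over the residue field `k`: `X = (E | B | C)` with zero differential, `phi` a functional on `E`,
`XD = X''^∨ = k ⊕ X^∨` with `d 1 = -phi`, `inc : XD → G` of degree one, injective on the degree `1`
part and onto in degrees `≥ 1`; `fl : X → X^∨` the (perfect) form; `Dh : X^∨ ⊗ X → G`,
`al : G ⊗ X → X`; the key relation `s Dh (phi, z) + inc (fl z) ∈ d G`;
`L : G → G` with `(L + 12) (L + 28) ≃ 0` and `L g = 0` if `al (g, ·) = 0`.

With `D' (x, y) z = al (Dh (fl x, y), z)` and `eps = fl ^ -1 phi` we get: `eps ≠ 0` if `C ≠ 0`;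
`D' (eps, z) = 0` implies `z ∈ k eps` for `z` of degree one; every `D' v`, `v` of positive degree,
is `D' (eps, z)`; if `C = 0` then `inc 1` is a boundary.
-/

set_option autoImplicit false
set_option linter.unusedSectionVars false

open Matrix Kronecker

namespace LicciCore

open LicciCx LicciCx.Cx

/-- the vector `(0, x)` -/
def jr {R : Type*} [CommRing R] {J : Type*} (x : J → R) : Unit ⊕ J → R := Sum.elim 0 x

/-- the first basis vector -/
def j1 (R : Type*) [CommRing R] (J : Type*) : Unit ⊕ J → R := Sum.elim 1 0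

theorem prX_jr {R : Type*} [CommRing R] {J : Type*} [DecidableEq J] [Fintype J] (z : J → R) :
    (Matrix.fromCols (0 : Matrix J Unit R) (1 : Matrix J J R)) *ᵥ jr z = z := by
  ext i
  simp [Matrix.fromCols, Matrix.mulVec, dotProduct, jr, Matrix.one_apply]

theorem vh_jr {R : Type*} [CommRing R] {J : Type*} [Fintype J] {K : Cx R (Unit ⊕ J)} {n : ℤ}
    {z : J → R} (h : ∀ j, K.deg (Sum.inr j) ≠ n → z j = 0) : Vh K n (jr z) := by
  rintro (j | j) hj
  · rfl
  · exact h j hj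

/-- The closed fibre data. -/
structure ReadData {k : Type*} [Field k] {J JG : Type*} [Fintype J] [DecidableEq J]
    [Fintype JG] [DecidableEq JG] (X : Cx k J) (XD : Cx k (Unit ⊕ J))
    (G : Cx k JG) (phi : J → k) (fl : Matrix J J k)
    (inc : Matrix JG (Unit ⊕ J) k) (Dh : Matrix JG (J × J) k) (al : Matrix J (JG × J) k)
    (L : Matrix JG JG k) (s : k) : Prop where
  X_d : X.d = 0
  XD_deg : ∀ j, XD.deg (Sum.inr j) = -X.deg j
  XD_deg' : ∀ j, XD.deg (Sum.inl j) = 0
  XD_d : ∀ w, XD.d *ᵥ w = -(w (Sum.inl ()) • jr phi)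
  phi_deg : ∀ j, X.deg j ≠ -1 → phi j = 0
  inc_cl : Cl XD G 1 inc
  inc_surj : ∀ n v, 1 ≤ n → Vh G n v → ∃ w, Vh XD (n - 1) w ∧ inc *ᵥ w = v
  inc_inj : ∀ w, Vh XD 1 w → inc *ᵥ w = 0 → w = 0
  fl_cl : Cl X X.dual 0 fl
  fl_inj : ∀ z, fl *ᵥ z = 0 → z = 0
  Dh_cl : Cl (X.dual.tensor X) G 0 Dh
  al_cl : Cl (G.tensor X) X 0 al
  L_ker : ∀ g, (∀ z, al *ᵥ tv g z = 0) → L *ᵥ g = 0
  c_ne : (12 * 28 : k) ≠ 0
  L_rel : Bd G G 0 ((L + (12 : k) • 1) * (L + (28 : k) • 1))
  s_ne : s ≠ 0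
  key : ∀ z, (∀ j, X.deg j < 0 → z j = 0) →
    ∃ g, s • (Dh *ᵥ tv phi z) + inc *ᵥ jr (fl *ᵥ z) = G.d *ᵥ g

namespace ReadData

variable {k : Type*} [Field k] {J JG : Type*} [Fintype J] [DecidableEq J]
    [Fintype JG] [DecidableEq JG] {X : Cx k J} {XD : Cx k (Unit ⊕ J)}
    {G : Cx k JG} {phi : J → k} {fl : Matrix J J k}
    {inc : Matrix JG (Unit ⊕ J) k} {Dh : Matrix JG (J × J) k} {al : Matrix J (JG × J) k}
    {L : Matrix JG JG k} {s : k}

/-- `al` kills boundaries of `G` -/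
theorem al_d (h : ReadData X XD G phi fl inc Dh al L s) (y : JG → k) (z : J → k) :
    al *ᵥ tv (G.d *ᵥ y) z = 0 := by
  have h1 : (G.tensor X).d *ᵥ tv y z = tv (G.d *ᵥ y) z := by
    rw [tensor_d, h.X_d, kron_zero, add_zero, kron_mulVec_tv, Matrix.one_mulVec]
  rw [← h1, Matrix.mulVec_mulVec, ← h.al_cl.comm0, h.X_d, Matrix.zero_mul, Matrix.zero_mulVec]

theorem G_d_inc (h : ReadData X XD G phi fl inc Dh al L s) (w : Unit ⊕ J → k) :
    G.d *ᵥ (inc *ᵥ w) = w (Sum.inl ()) • (inc *ᵥ jr phi) := by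
  rw [Matrix.mulVec_mulVec, h.inc_cl.comm1, Matrix.neg_mulVec, ← Matrix.mulVec_mulVec,
    h.XD_d, Matrix.mulVec_neg, Matrix.mulVec_smul, neg_neg]

/-- The key identity `al (inc (fl z), y) = -s al (Dh (φ, z), y)`. -/
theorem al_inc (h : ReadData X XD G phi fl inc Dh al L s) {z : J → k}
    (hz : ∀ j, X.deg j < 0 → z j = 0) (y : J → k) :
    al *ᵥ tv (inc *ᵥ jr (fl *ᵥ z)) y = -(s • (al *ᵥ tv (Dh *ᵥ tv phi z) y)) := by
  obtain ⟨g, hg⟩ := h.key z hz
  have h3 := congrArg (fun v => al *ᵥ tv v y) hg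
  simp only [add_tv, Matrix.mulVec_add, smul_tv, Matrix.mulVec_smul] at h3
  rw [h.al_d] at h3
  exact eq_neg_of_add_eq_zero_right h3

theorem vh_fl (h : ReadData X XD G phi fl inc Dh al L s) {n : ℤ} {z : J → k}
    (hz : Vh X n z) : Vh XD n (jr (fl *ᵥ z)) := by
  have h1 := Vh.mulVec h.fl_cl.hmg hz
  rw [add_zero] at h1
  refine vh_jr fun j hj => h1 j ?_
  rw [h.XD_deg] at hj
  exact hj

/-- `336 g` is a boundary if `al (g, ·) = 0` and `d g = 0` -/
theorem bd_of_al (h : ReadData X XD G phi fl inc Dh al L s) {n : ℤ} {g : JG → k}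
    (hg : Vh G n g) (hd : G.d *ᵥ g = 0) (h0 : ∀ z, al *ᵥ tv g z = 0) :
    ∃ y, Vh G (n - 1) y ∧ G.d *ᵥ y = (12 * 28 : k) • g := by
  obtain ⟨s, hs1, hs⟩ := h.L_rel
  have hL := h.L_ker g h0
  refine ⟨s *ᵥ g, ?_, ?_⟩
  · have := Vh.mulVec hs1 hg
    rwa [zero_sub, ← sub_eq_add_neg] at this
  · have h1 := congrArg (fun f => f *ᵥ g) hs
    simp only [sg_zero, Int.cast_one, one_smul, Matrix.add_mulVec] at h1
    rw [← Matrix.mulVec_mulVec, ← Matrix.mulVec_mulVec, ← Matrix.mulVec_mulVec, hd,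
      Matrix.mulVec_zero, add_zero] at h1
    rw [← h1]
    simp only [Matrix.add_mulVec, Matrix.smul_mulVec, Matrix.one_mulVec, hL,
      Matrix.mulVec_smul, zero_add, smul_smul, mul_comm]

theorem e1' (h : ReadData X XD G phi fl inc Dh al L s) {z : J → k} (hz : Vh X 1 z)
    (h0 : ∀ y, al *ᵥ tv (Dh *ᵥ tv phi z) y = 0) : ∃ t : k, fl *ᵥ z = t • phi := by
  have hz0 : ∀ j, X.deg j < 0 → z j = 0 := fun j hj => hz j (by omega)
  have h1 : ∀ y, al *ᵥ tv (inc *ᵥ jr (fl *ᵥ z)) y = 0 := by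
    intro y
    rw [h.al_inc hz0, h0, smul_zero, neg_zero]
  have hv2 : Vh G (1 + 1) (inc *ᵥ jr (fl *ᵥ z)) := Vh.mulVec h.inc_cl.hmg (h.vh_fl hz)
  have hd : G.d *ᵥ (inc *ᵥ jr (fl *ᵥ z)) = 0 := by
    rw [h.G_d_inc]; simp [jr]
  obtain ⟨y, hy1, hy⟩ := h.bd_of_al hv2 hd h1
  obtain ⟨w, hw1, hw⟩ := h.inc_surj 1 y le_rfl (by simpa using hy1)
  rw [← hw, h.G_d_inc] at hy
  have h3 : inc *ᵥ ((12 * 28 : k) • jr (fl *ᵥ z) - w (Sum.inl ()) • jr phi) = 0 := by
    rw [Matrix.mulVec_sub, Matrix.mulVec_smul, Matrix.mulVec_smul, hy, sub_self]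
  have h4 := h.inc_inj _ (by
    have h5 := h.vh_fl hz
    rintro (j | j) hj
    · simp [jr]
    · have h6 := h5 (Sum.inr j) hj
      have h7 : phi j = 0 := h.phi_deg j (by intro h8; apply hj; rw [h.XD_deg, h8]; rfl)
      simp only [Pi.sub_apply, Pi.smul_apply, h6, smul_zero, zero_sub, neg_eq_zero]
      simp [jr, h7]) h3
  refine ⟨(12 * 28 : k)⁻¹ * w (Sum.inl ()), ?_⟩
  ext j
  have h5 := congrFun h4 (Sum.inr j)
  simp only [jr, Pi.sub_apply, Pi.smul_apply, Sum.elim_inr, smul_eq_mul, Pi.zero_apply,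
    sub_eq_zero] at h5 ⊢
  rw [mul_assoc, ← h5, ← mul_assoc, inv_mul_cancel₀ h.c_ne, one_mul]

theorem phi_ne (h : ReadData X XD G phi fl inc Dh al L s) {j : J}
    (hj : X.deg j = 1) : phi ≠ 0 := by
  intro h0
  have hz : Vh X 1 (Pi.single j 1 : J → k) := by
    intro i hi
    rw [Pi.single_apply, if_neg]
    rintro rfl; exact hi hj
  obtain ⟨t, ht⟩ := h.e1' hz (by
    intro y
    rw [h0, zero_tv, Matrix.mulVec_zero, zero_tv, Matrix.mulVec_zero])
  rw [h0, smul_zero] at ht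
  have := congrFun (h.fl_inj _ ht) j
  simp at this

/-- `fl` is surjective in every degree -/
theorem fl_surj (h : ReadData X XD G phi fl inc Dh al L s) (v : J → k) :
    ∃ z, fl *ᵥ z = v := by
  have hinj : Function.Injective (Matrix.mulVecLin fl) := by
    rw [← LinearMap.ker_eq_bot, LinearMap.ker_eq_bot']
    intro z hz
    exact h.fl_inj z hz
  exact LinearMap.surjective_of_injective hinj v

theorem fl_surj' (h : ReadData X XD G phi fl inc Dh al L s) {n : ℤ} {v : J → k}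
    (hv : Vh X.dual n v) : ∃ z, Vh X n z ∧ fl *ᵥ z = v := by
  obtain ⟨z, hz⟩ := h.fl_surj v
  refine ⟨fun j => if X.deg j = n then z j else 0, fun j hj => by simp [hj], ?_⟩
  ext i
  by_cases hi : X.dual.deg i = n
  · rw [← hz]
    simp only [Matrix.mulVec, dotProduct]
    refine Finset.sum_congr rfl fun j _ => ?_
    by_cases hj : X.deg j = n
    · simp [hj]
    · have : fl i j = 0 := h.fl_cl.hmg i j (by rw [hi, add_zero]; exact fun h => hj h.symm)
      simp [this]
  · rw [hv i hi]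
    simp only [Matrix.mulVec, dotProduct]
    refine Finset.sum_eq_zero fun j _ => ?_
    by_cases hj : X.deg j = n
    · have : fl i j = 0 := h.fl_cl.hmg i j (by rw [hj, add_zero]; exact hi)
      simp [this]
    · simp [hj]

/-- Every value of `D'` in positive degrees is a value of `D' (eps, ·)`. -/
theorem e2' (h : ReadData X XD G phi fl inc Dh al L s) (he : phi ≠ 0) {n : ℤ}
    (hn : 1 ≤ n) {v : J × J → k} (hv : Vh (X.dual.tensor X) n v) :
    ∃ z, Vh X (n - 1) z ∧ ∀ y, al *ᵥ tv (Dh *ᵥ v) y = al *ᵥ tv (Dh *ᵥ tv phi z) y := by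
  obtain ⟨w, hw1, hw⟩ := h.inc_surj n (Dh *ᵥ v) hn (by
    have := Vh.mulVec h.Dh_cl.hmg hv
    rwa [add_zero] at this)
  have hXd : X.dual.d = 0 := by rw [dual_d, h.X_d]; simp
  have hd : G.d *ᵥ (Dh *ᵥ v) = 0 := by
    rw [Matrix.mulVec_mulVec, h.Dh_cl.comm0, tensor_d, h.X_d, hXd, zero_kron, kron_zero]
    simp
  have hr : w (Sum.inl ()) = 0 := by
    by_contra hne
    rw [← hw, h.G_d_inc] at hd
    have h1 : inc *ᵥ jr phi = 0 := by
      rcases smul_eq_zero.mp hd with h | h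
      · exact absurd h hne
      · exact h
    have h2 := h.inc_inj _ (vh_jr fun j hj =>
      h.phi_deg j (by intro h8; apply hj; rw [h.XD_deg, h8]; rfl)) h1
    apply he
    ext j
    exact congrFun h2 (Sum.inr j)
  let z' : J → k := fun j => w (Sum.inr j)
  have hwz : w = jr z' := by
    ext (j | j)
    · exact hr
    · rfl
  obtain ⟨z, hz1, hz⟩ := h.fl_surj' (n := n - 1) (v := z') (by
    intro j hj
    exact hw1 (Sum.inr j) (by rw [h.XD_deg]; exact hj))
  refine ⟨(-s) • z, ?_, fun y => ?_⟩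
  · intro j hj
    simp [hz1 j hj]
  · rw [tv_smul, Matrix.mulVec_smul, smul_tv, Matrix.mulVec_smul, neg_smul,
      ← h.al_inc (fun j hj => hz1 j (by omega)), hz, ← hwz, hw]

/-- the case `C = 0` -/
theorem inc_one (h : ReadData X XD G phi fl inc Dh al L s) (h0 : ∀ j, X.deg j = 0) :
    ∃ y, Vh G 0 y ∧ G.d *ᵥ y = inc *ᵥ j1 k J := by
  have hir : Vh XD 0 (j1 k J) := by
    rintro (j | j) hj
    · exact absurd (h.XD_deg' j) hj
    · rfl
  have hg : Vh G 1 (inc *ᵥ j1 k J) := by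
    have := Vh.mulVec h.inc_cl.hmg hir
    simpa using this
  have hphi : phi = 0 := by
    ext j
    exact h.phi_deg j (by rw [h0]; norm_num)
  have hd : G.d *ᵥ (inc *ᵥ j1 k J) = 0 := by
    rw [h.G_d_inc, hphi]
    have : jr (0 : J → k) = 0 := by
      ext (j | j) <;> rfl
    rw [this]; simp
  obtain ⟨y, hy1, hy⟩ := h.bd_of_al hg hd (by
    intro z
    have hz : Vh X 0 z := fun j hj => absurd (h0 j) hj
    have h1 := Vh.mulVec h.al_cl.hmg (Vh.tv hg hz)
    ext j
    exact h1 j (by rw [h0]; norm_num))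
  refine ⟨(12 * 28 : k)⁻¹ • y, ?_, ?_⟩
  · intro j hj
    simp [hy1 j (by simpa using hj)]
  · rw [Matrix.mulVec_smul, hy, smul_smul, inv_mul_cancel₀ h.c_ne, one_smul]

end ReadData

/-! ### the key relation from a homotopy of degree one -/

/-- `Dh * ins phi * prX + inc * tau` null-homotopic gives the field `key`. -/
theorem key_of_bd {k : Type*} [Field k] {J JG : Type*} [Fintype J] [DecidableEq J]
    [Fintype JG] [DecidableEq JG] {X : Cx k J} {X2 : Cx k (Unit ⊕ J)}
    {G : Cx k JG} {xi phi : J → k} {fl : Matrix J J k}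
    {inc : Matrix JG (Unit ⊕ J) k} {Dh : Matrix JG (J × J) k}
    {tau : Matrix (Unit ⊕ J) (Unit ⊕ J) k} {c s : k} (hc : c ≠ 0)
    (hb : Bd X2 G 1 (Dh * ins J xi * (Matrix.fromCols (0 : Matrix J Unit k) (1 : Matrix J J k)) +
      inc * tau))
    (hX2 : ∀ z, (∀ j, X.deg j < 0 → z j = 0) → X2.d *ᵥ jr z = 0)
    (htau : ∀ z, tau *ᵥ jr z = c • jr (fl *ᵥ z)) (hxi : xi = (c * s) • phi) :
    ∀ z, (∀ j, X.deg j < 0 → z j = 0) →
      ∃ g, s • (Dh *ᵥ tv phi z) + inc *ᵥ jr (fl *ᵥ z) = G.d *ᵥ g := by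
  intro z hz
  obtain ⟨t, -, ht⟩ := hb
  have h1 := congrArg (fun f => f *ᵥ jr z) ht
  simp only [sg_one, Int.cast_neg, Int.cast_one, neg_smul, one_smul, Matrix.add_mulVec,
    Matrix.neg_mulVec] at h1
  rw [← Matrix.mulVec_mulVec, ← Matrix.mulVec_mulVec, prX_jr, ins_mulVec,
    ← Matrix.mulVec_mulVec _ inc tau, htau, ← Matrix.mulVec_mulVec _ t X2.d, hX2 z hz,
    Matrix.mulVec_zero, neg_zero, add_zero, ← Matrix.mulVec_mulVec, hxi, smul_tv,
    Matrix.mulVec_smul, Matrix.mulVec_smul] at h1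
  refine ⟨c⁻¹ • (t *ᵥ jr z), ?_⟩
  rw [Matrix.mulVec_smul, ← h1, smul_add, smul_smul, smul_smul, inv_mul_cancel₀ hc, one_smul,
    ← mul_assoc, inv_mul_cancel₀ hc, one_mul]

/-- `De - Dh * (A ⊗ prX)` null-homotopic gives the field `key`. -/
theorem key_of_delta {k : Type*} [Field k] {J JG I : Type*} [Fintype J] [DecidableEq J]
    [Fintype JG] [DecidableEq JG] [Fintype I] [DecidableEq I] {X : Cx k J} {V : Cx k I}
    {X2 : Cx k (Unit ⊕ J)}
    {G : Cx k JG} {phi : J → k} {fl : Matrix J J k}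
    {inc : Matrix JG (Unit ⊕ J) k} {Dh : Matrix JG (J × J) k}
    {De : Matrix JG (I × (Unit ⊕ J)) k} {A : Matrix J I k} {v : I → k} {c s : k} (hc : c ≠ 0)
    (hb : Bd (V.tensor X2) G 0
      (De - Dh * (A ⊗ₖ (Matrix.fromCols (0 : Matrix J Unit k) (1 : Matrix J J k)))))
    (hX2 : ∀ z, (∀ j, X.deg j < 0 → z j = 0) → X2.d *ᵥ jr z = 0)
    (hV : V.d = 0) (hDe : ∀ z, De *ᵥ tv v (jr z) = c • (inc *ᵥ jr (fl *ᵥ z)))
    (hA : A *ᵥ v = -((c * s) • phi)) :
    ∀ z, (∀ j, X.deg j < 0 → z j = 0) →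
      ∃ g, s • (Dh *ᵥ tv phi z) + inc *ᵥ jr (fl *ᵥ z) = G.d *ᵥ g := by
  intro z hz
  obtain ⟨t, -, ht⟩ := hb
  have h1 := congrArg (fun f => f *ᵥ tv v (jr z)) ht
  simp only [sg_zero, Int.cast_one, one_smul, Matrix.add_mulVec, Matrix.sub_mulVec] at h1
  rw [← Matrix.mulVec_mulVec _ Dh, kron_mulVec_tv, prX_jr, hA, neg_tv, smul_tv,
    Matrix.mulVec_neg, Matrix.mulVec_smul, sub_neg_eq_add, hDe,
    ← Matrix.mulVec_mulVec _ t, tensor_d, Matrix.add_mulVec, kron_mulVec_tv, kron_mulVec_tv,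
    hV, Matrix.zero_mulVec, zero_tv, hX2 z hz, tv_zero, add_zero, Matrix.mulVec_zero, add_zero,
    ← Matrix.mulVec_mulVec] at h1
  refine ⟨c⁻¹ • (t *ᵥ tv v (jr z)), ?_⟩
  rw [Matrix.mulVec_smul, ← h1, smul_add, smul_smul, smul_smul, inv_mul_cancel₀ hc, one_smul,
    ← mul_assoc, inv_mul_cancel₀ hc, one_mul, add_comm]

/-! ### the output in index form -/

section index

variable {k : Type*} [Field k] {J JG : Type*} [Fintype J] [DecidableEq J]
    [Fintype JG] [DecidableEq JG]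

/-- `Dp i j l m` is the coefficient of `e_m` in `al (Dh (fl e_i, e_j), e_l)`. -/
def Dp (fl : Matrix J J k) (Dh : Matrix JG (J × J) k) (al : Matrix J (JG × J) k)
    (i j l m : J) : k :=
  (al *ᵥ tv (Dh *ᵥ tv (fl *ᵥ Pi.single i 1) (Pi.single j 1)) (Pi.single l 1)) m

theorem tv_sum_left {A B ι : Type*} [Fintype ι] (x : ι → A → k) (y : B → k) :
    tv (∑ i, x i) y = ∑ i, tv (x i) y := by
  ext a; simp [tv, Finset.sum_mul]

theorem tv_sum_right {A B ι : Type*} [Fintype ι] (x : A → k) (y : ι → B → k) :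
    tv x (∑ i, y i) = ∑ i, tv x (y i) := by
  ext a; simp [tv, Finset.mul_sum]

theorem app3_Dp (fl : Matrix J J k) (Dh : Matrix JG (J × J) k) (al : Matrix J (JG × J) k)
    (x y z : J → k) :
    app3 (Dp fl Dh al) x y z = al *ᵥ tv (Dh *ᵥ tv (fl *ᵥ x) y) z := by
  have hs : ∀ v : J → k, v = ∑ i, v i • Pi.single i (1 : k) := fun v => by
    ext j; simp [Finset.sum_apply, Pi.single_apply]
  conv_rhs => rw [hs x, hs y, hs z]
  simp only [Matrix.mulVec_sum, tv_sum_left, tv_sum_right, Matrix.mulVec_smul, smul_tv, tv_smul]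
  ext m
  simp only [app3, Dp, Finset.sum_apply, Pi.smul_apply, smul_eq_mul]
  simp only [Finset.mul_sum]
  conv_lhs => rw [Finset.sum_comm]
  conv_rhs => rw [Finset.sum_comm]
  refine Finset.sum_congr rfl fun j _ => ?_
  rw [Finset.sum_comm]
  refine Finset.sum_congr rfl fun l _ => Finset.sum_congr rfl fun i _ => ?_
  ring

/-- the `om` term vanishes in positive degrees -/
theorem app3_eq {X : Cx k J} {om : Matrix J J k} {D D' : J → J → J → J → k} {c c' : k}
    (hom : ∀ i j, X.deg i + X.deg j ≠ 0 → om i j = 0)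
    (hD : ∀ i j l m, D i j l m = c * D' i j l m + c' * om i j * (if l = m then 1 else 0))
    {n m : ℤ} (hnm : n + m ≠ 0) {x y : J → k} (hx : ∀ j, X.deg j ≠ n → x j = 0)
    (hy : ∀ j, X.deg j ≠ m → y j = 0) (z : J → k) :
    app3 D x y z = c • app3 D' x y z := by
  ext l
  simp only [app3, Pi.smul_apply, smul_eq_mul, Finset.mul_sum]
  refine Finset.sum_congr rfl fun i _ => Finset.sum_congr rfl fun j _ =>
    Finset.sum_congr rfl fun p _ => ?_
  rw [hD]
  by_cases hi : X.deg i = n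
  · by_cases hj : X.deg j = m
    · rw [hom i j (by rw [hi, hj]; exact hnm)]; ring
    · rw [hy j hj]; ring
  · rw [hx i hi]; ring

/-- The class `ε` on the closed fibre. -/
theorem ReadData.sEps {X : Cx k J} {XD : Cx k (Unit ⊕ J)}
    {G : Cx k JG} {phi : J → k} {fl : Matrix J J k}
    {inc : Matrix JG (Unit ⊕ J) k} {Dh : Matrix JG (J × J) k} {al : Matrix J (JG × J) k}
    {L : Matrix JG JG k} {s : k} (h : ReadData X XD G phi fl inc Dh al L s)
    {om : Matrix J J k} {D : J → J → J → J → k} {c c' : k} (hc : c ≠ 0)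
    (hom : ∀ i j, X.deg i + X.deg j ≠ 0 → om i j = 0)
    (hD : ∀ i j l m, D i j l m = c * Dp fl Dh al i j l m +
      c' * om i j * (if l = m then 1 else 0))
    {eps : J → k} (heps : fl *ᵥ eps = phi) (hex : ∃ j, X.deg j = 1) : SEps X.deg D eps := by
  obtain ⟨j₀, hj₀⟩ := hex
  have hphi := h.phi_ne hj₀
  have hdeg : ∀ j, X.deg j ≠ 1 → eps j = 0 := by
    obtain ⟨z, hz1, hz⟩ := h.fl_surj' (n := 1) (v := phi) (by
      intro j hj
      exact h.phi_deg j (by intro h1; apply hj; rw [dual_deg, h1]; rfl))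
    have h1 : fl *ᵥ (z - eps) = 0 := by rw [Matrix.mulVec_sub, hz, heps, sub_self]
    have h2 := h.fl_inj _ h1
    rw [sub_eq_zero] at h2
    rw [← h2]; exact hz1
  refine ⟨hdeg, ?_, ?_, ?_, ?_⟩
  · rintro rfl
    apply hphi
    rw [← heps, Matrix.mulVec_zero]
  · intro x hx h0
    obtain ⟨t, ht⟩ := h.e1' (z := x) hx (by
      intro y
      have h1 := h0 y
      rw [app3_eq hom hD (by norm_num : (1 : ℤ) + 1 ≠ 0) hdeg hx, app3_Dp, heps] at h1
      exact (smul_eq_zero.mp h1).resolve_left hc)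
    refine ⟨t, ?_⟩
    have h1 : fl *ᵥ (x - t • eps) = 0 := by
      rw [Matrix.mulVec_sub, ht, Matrix.mulVec_smul, heps, sub_self]
    exact sub_eq_zero.mp (h.fl_inj _ h1)
  · intro x y hx hy
    have h1 := Vh.mulVec h.fl_cl.hmg (show Vh X 1 x from hx)
    obtain ⟨w, hw1, hw⟩ := h.e2' hphi (n := 1 + 0 + 1) (by norm_num) (Vh.tv h1 (show Vh X 1 y from hy))
    refine ⟨w, fun j hj => hw1 j (by norm_num; exact hj), fun z => ?_⟩
    rw [app3_eq hom hD (by norm_num : (1 : ℤ) + 1 ≠ 0) hx hy, app3_Dp, hw z,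
      app3_eq hom hD (by norm_num : (1 : ℤ) + 1 ≠ 0) hdeg (fun j hj => hw1 j (by norm_num; exact hj)),
      app3_Dp, heps]
  · intro x u hx hu
    have h1 := Vh.mulVec h.fl_cl.hmg (show Vh X 1 x from hx)
    obtain ⟨w, hw1, hw⟩ := h.e2' hphi (n := 1 + 0 + 0) (by norm_num) (Vh.tv h1 (show Vh X 0 u from hu))
    refine ⟨w, fun j hj => hw1 j (by norm_num; exact hj), fun z => ?_⟩
    rw [app3_eq hom hD (by norm_num : (1 : ℤ) + 0 ≠ 0) hx hu, app3_Dp, hw z,
      app3_eq hom hD (by norm_num : (1 : ℤ) + 0 ≠ 0) hdeg (fun j hj => hw1 j (by norm_num; exact hj)),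
      app3_Dp, heps]

end index

end LicciCore

end

section

/-!
# The closed fibre of the core objects

`Om_psi`, `isUnit_omk`; the data of `ReadData` from the key homotopy and from
`(L + 12) (L + 28) ≃ 0`; `sEps`, `exists_isUnit`.
-/

set_option autoImplicit false
set_option linter.unusedSectionVars false

open Matrix Kronecker RingTheory.Sequence IsLocalRing

namespace LicciCore

open LicciCx Cx Pool.Agent.Licci

universe u

namespace CoreData

variable {R : Type u} [CommRing R] [IsDomain R] [IsLocalRing R] {p : Fin 248 → R}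
  {a : Fin 6 → R} {J : Type} [Fintype J] [DecidableEq J] (D : CoreData R p a J)

theorem cl_Dh' (S : Setup R p a) : Cl (D.X.dual.tensor D.X) (D.G S) 0 (D.Dh S) :=
  (D.exists_Dh S).choose_spec.1

theorem cl_al' (S : Setup R p a) : Cl ((D.G S).tensor D.X) D.X 0 (D.al S) :=
  (D.exists_al S).choose_spec.1

/-- a closed map of degree `0` maps cocycles to cocycles -/
theorem Z0_mulVec' {J₁ J₂ : Type*} [Fintype J₁] [Fintype J₂] [DecidableEq J₁] [DecidableEq J₂]
    {K : Cx R J₁} {L : Cx R J₂} {f : Matrix J₂ J₁ R} (hf : Cl K L 0 f) {z : J₁ → R}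
    (hz : z ∈ K.Z0) : f *ᵥ z ∈ L.Z0 := by
  refine ⟨?_, ?_⟩
  · have := Vh.mulVec hf.hmg (show Vh K 0 z from hz.1)
    rwa [add_zero] at this
  · rw [Matrix.mulVec_mulVec, hf.comm0, ← Matrix.mulVec_mulVec, hz.2, Matrix.mulVec_zero]

theorem Om_psi (S : Setup R p a) : Bd D.X.dual D.X.dual 0 (D.Om S * D.psi S - 1) := by
  have hcl : Cl D.X.dual D.X.dual 0 (D.Om S * D.psi S - 1) :=
    (((D.cl_Om S).mul (D.cl_psi S)).cast (by ring)).sub Cl.one
  refine uniq1 a S.reg S.ne (fun i => (D.ue i).dual) (fun i => (D.ue i).dual) ?_ hcl ?_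
  · intro i j
    have h1 := D.deg_le i
    have h2 := D.le_deg j
    rw [dual_deg, dual_deg]
    omega
  · intro l hl
    refine mem_BT_dual (S.ne 0) (D.ue 0) (Z0_mulVec' hcl hl) ?_
    intro z hz
    have h := (D.exists_psi S).choose_spec.2 l hl z hz
    rw [Matrix.sub_mulVec, Matrix.one_mulVec, sub_dotProduct, ← Matrix.mulVec_mulVec,
      sub_eq_zero, ← h, dotProduct_comm]
    rfl

theorem OmK_psi (S : Setup R p a) :
    (D.Om S).map (residue R) * (D.psi S).map (residue R) = 1 := by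
  have h := (D.Om_psi S).map_eq_zero (residue R) (dual_d_map_eq_zero _ D.X_d_map)
    (dual_d_map_eq_zero _ D.X_d_map)
  rw [Cx.map_sub', Matrix.map_mul, one_map, sub_eq_zero] at h
  exact h

theorem psi_OmK (S : Setup R p a) :
    (D.psi S).map (residue R) * (D.Om S).map (residue R) = 1 :=
  mul_eq_one_comm.1 (D.OmK_psi S)

theorem omk_tr (S : Setup R p a) : D.omk S = ((D.Om S).map (residue R))ᵀ := rfl

theorem isUnit_omk (S : Setup R p a) : IsUnit (D.omk S).det := by
  rw [omk_tr, Matrix.det_transpose]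
  refine IsUnit.of_mul_eq_one ((D.psi S).map (residue R)).det ?_
  rw [← Matrix.det_mul, D.OmK_psi, Matrix.det_one]

theorem OmK_inj (S : Setup R p a) {z : J → ResidueField R}
    (hz : (D.Om S).map (residue R) *ᵥ z = 0) : z = 0 := by
  have h := congrArg (fun v => (D.psi S).map (residue R) *ᵥ v) hz
  simp only [Matrix.mulVec_mulVec, D.psi_OmK, Matrix.one_mulVec, Matrix.mulVec_zero] at h
  exact h

theorem Dp_mulVec (S : Setup R p a) (x y z : J → R) :
    D.Dp S *ᵥ tv (tv x y) z = D.al S *ᵥ tv (D.Dh S *ᵥ tv (D.Om S *ᵥ x) y) z := by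
  rw [CoreData.Dp, ← Matrix.mulVec_mulVec, kron_mulVec_tv, ← Matrix.mulVec_mulVec, kron_mulVec_tv,
    Matrix.one_mulVec, Matrix.one_mulVec]

theorem tv_single {A B : Type*} [DecidableEq A] [DecidableEq B] {S : Type*} [CommRing S]
    (i : A) (j : B) : tv (Pi.single i (1 : S)) (Pi.single j (1 : S)) = Pi.single (i, j) 1 := by
  ext ⟨i', j'⟩
  by_cases h1 : i' = i
  · by_cases h2 : j' = j
    · subst h1; subst h2; simp [tv]
    · simp [tv, h2]
  · simp [tv, h1]

theorem map_mulVec_apply {A B : Type*} [Fintype B] {R' : Type*} [CommRing R']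
    (φ : R →+* R') (f : Matrix A B R) (v : B → R) :
    (f.map φ) *ᵥ (fun b => φ (v b)) = fun a => φ ((f *ᵥ v) a) := by
  ext a
  exact (RingHom.map_mulVec φ f v a).symm

theorem map_tv {A B : Type*} {R' : Type*} [CommRing R'] (φ : R →+* R') (x : A → R) (y : B → R) :
    (fun i => φ (tv x y i)) = tv (fun i => φ (x i)) (fun i => φ (y i)) := by
  ext i; simp [tv]

theorem Dp_map (S : Setup R p a) (i j l m : J) :
    residue R (D.Dp S m ((i, j), l)) =
      LicciCore.Dp ((D.Om S).map (residue R)) ((D.Dh S).map (residue R))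
        ((D.al S).map (residue R)) i j l m := by
  have hs : ∀ i : J, (Pi.single i (1 : ResidueField R) : J → ResidueField R) =
      fun b => residue R ((Pi.single i (1 : R) : J → R) b) := by
    intro i; ext b
    by_cases h : b = i
    · subst h; simp
    · simp [h]
  have h1 : D.Dp S m ((i, j), l) =
      (D.Dp S *ᵥ tv (tv (Pi.single i (1 : R)) (Pi.single j (1 : R))) (Pi.single l 1)) m := by
    rw [tv_single, tv_single, Matrix.mulVec_single_one]
    rfl
  rw [h1, D.Dp_mulVec, LicciCore.Dp, hs i, hs j, hs l, map_mulVec_apply, ← map_tv,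
    map_mulVec_apply, ← map_tv, map_mulVec_apply]

theorem Dk_eq (S : Setup R p a) (i j l m : J) : D.Dk S i j l m =
    -2 * LicciCore.Dp ((D.Om S).map (residue R)) ((D.Dh S).map (residue R))
      ((D.al S).map (residue R)) i j l m + (-1) * D.omk S i j * (if l = m then 1 else 0) := by
  rw [Dk, Dpk, D.Dp_map]; ring

/-! ### the data of `ReadData` -/

/-- `X''^∨ → G` -/
def inG (R : Type*) [CommRing R] (J : Type*) [DecidableEq J] :
    Matrix ((Fin 248 ⊕ (Unit ⊕ J)) ⊕ (Unit ⊕ J)) (Unit ⊕ J) R := Matrix.fromRows 0 1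

theorem inG_map : (inG R J).map (residue R) = inG (ResidueField R) J := by
  ext (i | i) j
  · simp [inG]
  · by_cases h : i = j
    · subst h; simp [inG]
    · simp [inG, h]

theorem inG_mulVec {k : Type*} [CommRing k] (w : Unit ⊕ J → k) :
    inG k J *ᵥ w = Sum.elim (0 : Fin 248 ⊕ (Unit ⊕ J) → k) w := by
  rw [inG, Matrix.fromRows_mulVec, Matrix.zero_mulVec, Matrix.one_mulVec]

theorem XD_d (w : Unit ⊕ J → ResidueField R) :
    (D.X2.dual.map (residue R)).d *ᵥ w =
      -(w (Sum.inl ()) • jr fun j => residue R (D.ph () j)) := by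
  have hd : D.X2.d = Matrix.fromBlocks 0 D.ph 0 D.X.d := rfl
  have h0 : D.X2.deg (Sum.inl ()) = 0 := rfl
  have hmin : ∀ i j, residue R (D.X.d i j) = 0 := fun i j => by
    rw [residue_eq_zero_iff]; exact D.min i j
  ext (i | i)
  · rw [Matrix.mulVec, dotProduct, Fintype.sum_sum_type]
    simp only [map_d, dual_d, ep, hd, Matrix.map_apply, Matrix.neg_apply, Matrix.transpose_apply,
      Matrix.diagonal_mul, Matrix.fromBlocks_apply₁₁, Matrix.fromBlocks_apply₂₁]
    simp [jr]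
  · rw [Matrix.mulVec, dotProduct, Fintype.sum_sum_type]
    simp only [map_d, dual_d, ep, hd, Matrix.map_apply, Matrix.neg_apply, Matrix.transpose_apply,
      Matrix.diagonal_mul, Matrix.fromBlocks_apply₁₂, Matrix.fromBlocks_apply₂₂]
    simp [jr, h0, sg_zero, hmin, mul_comm]

theorem X2_d_jr (z : J → ResidueField R) (hz : ∀ j, D.X.deg j < 0 → z j = 0) :
    (D.X2.map (residue R)).d *ᵥ jr z = 0 := by
  have hd : D.X2.d = Matrix.fromBlocks 0 D.ph 0 D.X.d := rfl
  have hmin : ∀ i j, residue R (D.X.d i j) = 0 := fun i j => by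
    rw [residue_eq_zero_iff]; exact D.min i j
  ext (i | i)
  · rw [Matrix.mulVec, dotProduct, Fintype.sum_sum_type]
    simp only [map_d, hd, Matrix.map_apply, Matrix.fromBlocks_apply₁₂, jr, Sum.elim_inl,
      Sum.elim_inr, Pi.zero_apply, mul_zero, Finset.sum_const_zero, zero_add]
    refine Finset.sum_eq_zero fun j _ => ?_
    by_cases hj : D.X.deg j = -1
    · rw [hz j (by omega), mul_zero]
    · rw [D.ph_deg i j hj, map_zero, zero_mul]
  · rw [Matrix.mulVec, dotProduct, Fintype.sum_sum_type]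
    simp [map_d, hd, jr, hmin]

theorem tau_jr (S : Setup R p a) (c : R) (z : J → ResidueField R) :
    (c • ((prX R J)ᵀ * D.Om S * prX R J)).map (residue R) *ᵥ jr z =
      residue R c • jr ((D.Om S).map (residue R) *ᵥ z) := by
  rw [Cx.map_smul', Matrix.map_mul, Matrix.map_mul, Matrix.smul_mulVec, ← Matrix.mulVec_mulVec,
    ← Matrix.mulVec_mulVec]
  have h1 : (prX R J).map (residue R) = prX (ResidueField R) J := by
    ext i (j | j)
    · simp [prX]
    · by_cases h : i = j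
      · subst h; simp [prX]
      · simp [prX, h]
  have h2 : ((prX R J)ᵀ).map (residue R) = (prX (ResidueField R) J)ᵀ := by
    rw [← h1]; rfl
  rw [h1, h2]
  have h3 : prX (ResidueField R) J *ᵥ jr z = z := prX_jr z
  rw [h3]
  congr 1
  ext (i | i)
  · simp [prX, Matrix.mulVec, dotProduct, jr]
  · simp [prX, Matrix.mulVec, dotProduct, jr, Matrix.one_apply]

/-- `Lc g = 0` if `al (g, ·) = 0` -/
theorem Lc_ker (S : Setup R p a) (g : (Fin 248 ⊕ (Unit ⊕ J)) ⊕ (Unit ⊕ J) → ResidueField R)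
    (h : ∀ z, (D.al S).map (residue R) *ᵥ tv g z = 0) : (D.Lc S).map (residue R) *ᵥ g = 0 := by
  have h1 : ∀ i j, ∑ x, residue R (D.al S j (x, i)) * g x = 0 := by
    intro i j
    have h2 := congrFun (h (Pi.single i 1)) j
    rw [Matrix.mulVec, dotProduct, Fintype.sum_prod_type] at h2
    rw [Pi.zero_apply] at h2
    rw [← h2]
    refine Finset.sum_congr rfl fun x _ => ?_
    rw [Finset.sum_eq_single i]
    · simp [tv]
    · intro b _ hb; simp [tv, hb]
    · intro h3; exact absurd (Finset.mem_univ _) h3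
  ext g'
  rw [Matrix.mulVec, dotProduct, Pi.zero_apply]
  simp only [Lc, Matrix.map_apply, Matrix.of_apply, map_sum, map_mul, Finset.sum_mul]
  rw [Finset.sum_comm]
  refine Finset.sum_eq_zero fun i _ => ?_
  rw [Finset.sum_comm]
  refine Finset.sum_eq_zero fun j _ => ?_
  have h2 := h1 i j
  have h3 : ∀ x, residue R ((sg (D.X.deg i * D.X.deg j) : ℤ) : R) * residue R (D.Dh S g' (i, j)) *
      residue R (D.al S j (x, i)) * g x =
      residue R ((sg (D.X.deg i * D.X.deg j) : ℤ) : R) * residue R (D.Dh S g' (i, j)) *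
      (residue R (D.al S j (x, i)) * g x) := fun x => by ring
  rw [Finset.sum_congr rfl fun x _ => h3 x, ← Finset.mul_sum, h2, mul_zero]

/-- The data of `ReadData` for the core objects. -/
theorem readData (S : Setup R p a)
    {c₁ c₂ : R} (hc₁ : IsUnit c₁) (hc₂ : IsUnit c₂)
    (hkey : Bd D.X2 (D.G S) 1 (D.Dh S * ins J (fun j => c₁ * D.ph () j) * prX R J +
      inG R J * (c₂ • ((prX R J)ᵀ * D.Om S * prX R J)))) :
    ReadData (D.X.map (residue R)) (D.X2.dual.map (residue R)) ((D.G S).map (residue R))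
      (fun j => residue R (D.ph () j)) ((D.Om S).map (residue R)) (inG (ResidueField R) J)
      ((D.Dh S).map (residue R)) ((D.al S).map (residue R)) ((D.Lc S).map (residue R))
      (residue R c₁ * (residue R c₂)⁻¹) where
  X_d := D.X_d_map
  XD_deg j := rfl
  XD_deg' j := by show -(0 : ℤ) = 0; simp
  XD_d w := D.XD_d w
  phi_deg j hj := by rw [D.ph_deg () j hj, map_zero]
  inc_cl := by
    rw [← inG_map]
    exact (fib_inr (D.cl_jj S)).map (residue R)
  inc_surj n v hn hv := by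
    refine ⟨fun i => v (Sum.inr i), ?_, ?_⟩
    · intro i hi
      refine hv (Sum.inr i) ?_
      intro h1
      apply hi
      have h2 : D.X2.dual.deg i + 1 = n := h1
      show D.X2.dual.deg i = n - 1
      omega
    · rw [inG_mulVec]
      ext (i | i)
      · symm
        refine hv (Sum.inl i) ?_
        intro h1
        rcases i with i | i
        · have h2 : (0 : ℤ) = n := h1
          omega
        · have h2 : D.X2.deg i + (-1) = n := h1
          rcases i with i | i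
          · have h3 : D.X2.deg (Sum.inl i) = 0 := rfl
            omega
          · have h3 : D.X2.deg (Sum.inr i) = D.X.deg i := rfl
            have := D.deg_le i
            omega
      · rfl
  inc_inj w _ hw := by
    rw [inG_mulVec] at hw
    ext i
    exact congrFun hw (Sum.inr i)
  fl_cl := by
    have h := (D.cl_Om S).map (residue R)
    rwa [map_dual] at h
  fl_inj z hz := D.OmK_inj S hz
  Dh_cl := by
    have h := (D.cl_Dh' S).map (residue R)
    rwa [map_tensor, map_dual] at h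
  al_cl := by
    have h := (D.cl_al' S).map (residue R)
    rwa [map_tensor] at h
  L_ker := D.Lc_ker S
  c_ne := by
    obtain ⟨hA⟩ := S.rat
    intro h0
    have h1 : residue R (12 * 28 : R) = 0 := by
      rw [map_mul, map_ofNat, map_ofNat]; exact h0
    rw [residue_eq_zero_iff] at h1
    have h2 : IsUnit (12 * 28 : R) := by
      have h3 : (12 * 28 : R) = algebraMap ℚ R (12 * 28) := by
        rw [map_mul, map_ofNat, map_ofNat]
      rw [h3]
      exact (IsUnit.mk0 (12 * 28 : ℚ) (by norm_num)).map _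
    exact (mem_maximalIdeal _).1 h1 h2
  L_rel := by
    have h := (D.Lc_sq S).map (residue R)
    rw [Matrix.map_mul, Cx.map_add', Cx.map_add', Cx.map_smul', Cx.map_smul', one_map, map_ofNat,
      map_ofNat] at h
    exact h
  s_ne := by
    refine mul_ne_zero ?_ (inv_ne_zero ?_)
    · exact (hc₁.map _).ne_zero
    · exact (hc₂.map _).ne_zero
  key := by
    have h := hkey.map (residue R)
    rw [Cx.map_add', Matrix.map_mul, Matrix.map_mul, Matrix.map_mul, inG_map] at h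
    have h1 : (prX R J).map (residue R) =
        Matrix.fromCols (0 : Matrix J Unit (ResidueField R)) (1 : Matrix J J (ResidueField R)) := by
      ext i (j | j)
      · simp [prX]
      · by_cases h : i = j
        · subst h; simp [prX]
        · simp [prX, h]
    have h2 : (ins J fun j => c₁ * D.ph () j).map (residue R) =
        ins J (fun j => residue R c₁ * residue R (D.ph () j)) := by
      ext ⟨i, j⟩ l
      by_cases h : j = l <;> simp [ins, h]
    rw [h1, h2] at h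
    refine key_of_bd (c := residue R c₂) (hc₂.map _).ne_zero h ?_ (D.tau_jr S c₂) ?_
    · intro z hz
      exact D.X2_d_jr z hz
    · ext j
      show residue R c₁ * residue R (D.ph () j) =
        residue R c₂ * (residue R c₁ * (residue R c₂)⁻¹) * residue R (D.ph () j)
      have h3 : residue R c₂ ≠ 0 := (hc₂.map _).ne_zero
      field_simp

/-- the class `ε` of the closed fibre -/
noncomputable def epsK (S : Setup R p a) : J → ResidueField R :=
  (D.psi S).map (residue R) *ᵥ fun j => residue R (D.ph () j)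

theorem sEps (S : Setup R p a)
    {c₁ c₂ : R} (hc₁ : IsUnit c₁) (hc₂ : IsUnit c₂)
    (hkey : Bd D.X2 (D.G S) 1 (D.Dh S * ins J (fun j => c₁ * D.ph () j) * prX R J +
      inG R J * (c₂ • ((prX R J)ᵀ * D.Om S * prX R J))))
    (hex : ∃ j, D.X.deg j = 1) : SEps D.X.deg (D.Dk S) (D.epsK S) := by
  have h := D.readData S hc₁ hc₂ hkey
  have h2 : (-2 : ResidueField R) ≠ 0 := by
    have h12 := h.c_ne
    intro h0
    apply h12
    have : (12 * 28 : ResidueField R) = (-2) * (-168) := by ring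
    rw [this, h0, zero_mul]
  refine h.sEps (om := D.omk S) h2 (fun i j hij => D.omk_deg S i j hij)
    (fun i j l m => D.Dk_eq S i j l m) ?_ hex
  rw [epsK, Matrix.mulVec_mulVec, D.OmK_psi, Matrix.one_mulVec]

theorem exists_isUnit (S : Setup R p a)
    {c₁ c₂ : R} (hc₁ : IsUnit c₁) (hc₂ : IsUnit c₂)
    (hkey : Bd D.X2 (D.G S) 1 (D.Dh S * ins J (fun j => c₁ * D.ph () j) * prX R J +
      inG R J * (c₂ • ((prX R J)ᵀ * D.Om S * prX R J))))
    (h0 : ∀ j, D.X.deg j = 0) : ∃ j, IsUnit (p j) := by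
  have h := D.readData S hc₁ hc₂ hkey
  obtain ⟨y, hy1, hy⟩ := h.inc_one h0
  by_contra hp
  push Not at hp
  have hpm : ∀ j, residue R (p j) = 0 := fun j => by
    rw [residue_eq_zero_iff]; exact hp j
  have h1 := congrFun hy (Sum.inr (Sum.inl ()))
  rw [inG_mulVec] at h1
  have hd : ((D.G S).map (residue R)).d =
      (Matrix.fromBlocks (D.JJ).d 0 (D.jj S) (-D.X2.dual.d)).map (residue R) := rfl
  have hjj : D.jj S = Matrix.fromCols (D.uᵀ * kM R) (D.kap S) := rfl
  rw [hd, Matrix.mulVec, dotProduct, Fintype.sum_sum_type, Fintype.sum_sum_type] at h1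
  have e1 : ∀ i, (Matrix.fromBlocks (D.JJ).d 0 (D.jj S) (-D.X2.dual.d)).map (residue R)
      (Sum.inr (Sum.inl ())) (Sum.inl (Sum.inl i)) = 0 := by
    intro i
    rw [Matrix.map_apply, Matrix.fromBlocks_apply₂₁, hjj, Matrix.fromCols_apply_inl,
      Matrix.mul_apply, map_sum]
    refine Finset.sum_eq_zero fun j _ => ?_
    rw [map_mul]
    have : D.uᵀ (Sum.inl ()) j = p j := rfl
    rw [this, hpm, zero_mul]
  have e2 : ∀ i, y (Sum.inl (Sum.inr i)) = 0 := by
    intro i
    refine hy1 _ ?_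
    rcases i with i | i
    · show (0 : ℤ) + (-1) ≠ 0; norm_num
    · show D.X.deg i + (-1) ≠ 0; rw [h0]; norm_num
  have e3 : ∀ i, y (Sum.inr i) = 0 := by
    intro i
    refine hy1 _ ?_
    rcases i with i | i
    · show -(0 : ℤ) + 1 ≠ 0; norm_num
    · show -D.X.deg i + 1 ≠ 0; rw [h0]; norm_num
  simp only [e1, e2, e3, zero_mul, mul_zero, Finset.sum_const_zero, add_zero] at h1
  simp [j1] at h1

end CoreData

end LicciCore

end
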