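import Pool.Agent.Work.MP_a98e4e_ag.Fu.Core.UFalg
import Pool.Agent.Work.MP_a98e4e_ag.Fu.Core.MapsEv
import Pool.Agent.Work.MP_a98e4e_ag.Fu.Cx.Cone

/-!
# The Casimir identity over the residue field
-/

set_option autoImplicit false
set_option linter.unusedSectionVars false

open Matrix Kronecker RingTheory.Sequence IsLocalRing

namespace LicciCx

namespace Cx

variable {R : Type*} [CommRing R] {J J' : Type*} [Fintype J] [Fintype J'] [DecidableEq J]
  [DecidableEq J']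

/-- `k ↦ k ⊗ ρ` -/
def uf_insr (J : Type*) [DecidableEq J] {J' : Type*} (ρ : J' → R) : Matrix (J × J') J R :=
  fun x j => if x.1 = j then ρ x.2 else 0

/-- `l ↦ k ⊗ l` -/
def uf_insl (J' : Type*) [DecidableEq J'] {J : Type*} (k : J → R) : Matrix (J × J') J' R :=
  fun x j => if x.2 = j then k x.1 else 0

theorem uf_insr_mulVec (ρ : J' → R) (k : J → R) : uf_insr J ρ *ᵥ k = vk k ρ := by
  ext ⟨i, i'⟩
  rw [Matrix.mulVec, dotProduct, Finset.sum_eq_single i]
  · simp [uf_insr, vk, tv, mul_comm]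
  · intro b _ hb
    have : ¬ (i = b) := fun h => hb h.symm
    simp [uf_insr, this]
  · simp

theorem uf_insl_mulVec (k : J → R) (l : J' → R) : uf_insl J' k *ᵥ l = vk k l := by
  ext ⟨i, i'⟩
  rw [Matrix.mulVec, dotProduct, Finset.sum_eq_single i']
  · simp [uf_insl, vk, tv]
  · intro b _ hb
    have : ¬ (i' = b) := fun h => hb h.symm
    simp [uf_insl, this]
  · simp

theorem uf_cl_insr (K : Cx R J) (L : Cx R J') {ρ : J' → R} (hρ : ρ ∈ L.Z0) :
    Cl K (K.tensor L) 0 (uf_insr J ρ) := by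
  refine Cl.mk0 ?_ ?_
  · rintro ⟨i, i'⟩ j h
    show (if i = j then ρ i' else 0) = 0
    by_cases h1 : i = j
    · subst h1
      rw [if_pos rfl]
      refine hρ.1 i' fun h2 => h ?_
      show K.deg i + L.deg i' = K.deg i + 0
      rw [h2]
    · rw [if_neg h1]
  · ext ⟨i, i'⟩ j
    have h1 : ((K.tensor L).d * uf_insr J ρ) (i, i') j =
        ((K.tensor L).d *ᵥ vk (Pi.single j 1) ρ) (i, i') := by
      rw [← uf_insr_mulVec, Matrix.mulVec_mulVec, Matrix.mulVec_single_one]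
      rfl
    rw [h1, tensor_d, Matrix.add_mulVec, kron_mulVec_tv, kron_mulVec_tv, hρ.2,
      Matrix.mulVec_single_one, Matrix.one_mulVec, Matrix.mul_apply, Finset.sum_eq_single i]
    · simp [uf_insr, tv, mul_comm]
    · intro b _ hb
      have : ¬ (i = b) := fun h => hb h.symm
      simp [uf_insr, this]
    · simp

theorem uf_cl_insl (K : Cx R J) (L : Cx R J') {k : J → R} (hk : k ∈ K.Z0) :
    Cl L (K.tensor L) 0 (uf_insl J' k) := by
  refine Cl.mk0 ?_ ?_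
  · rintro ⟨i, i'⟩ j h
    show (if i' = j then k i else 0) = 0
    by_cases h1 : i' = j
    · subst h1
      rw [if_pos rfl]
      refine hk.1 i fun h2 => h ?_
      show K.deg i + L.deg i' = L.deg i' + 0
      rw [h2, zero_add, add_zero]
    · rw [if_neg h1]
  · ext ⟨i, i'⟩ j
    have h1 : ((K.tensor L).d * uf_insl J' k) (i, i') j =
        ((K.tensor L).d *ᵥ vk k (Pi.single j 1)) (i, i') := by
      rw [← uf_insl_mulVec, Matrix.mulVec_mulVec, Matrix.mulVec_single_one]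
      rfl
    have h2 : K.e *ᵥ k = k := by
      ext i
      show (Matrix.diagonal (fun j => ((sg (K.deg j) : ℤ) : R)) *ᵥ k) i = k i
      rw [Matrix.mulVec_diagonal]
      by_cases h3 : K.deg i = 0
      · rw [h3, sg_zero, Int.cast_one, one_mul]
      · rw [hk.1 i h3, mul_zero]
    rw [h1, tensor_d, Matrix.add_mulVec, kron_mulVec_tv, kron_mulVec_tv, hk.2, h2,
      Matrix.mulVec_single_one, Matrix.mul_apply, Finset.sum_eq_single i']
    · simp [uf_insl, tv]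
    · intro b _ hb
      have : ¬ (i' = b) := fun h => hb h.symm
      simp [uf_insl, this]
    · simp

end Cx

end LicciCx

namespace LicciCore

open LicciCx Cx Pool.Agent.Licci UF

universe u

namespace CoreData

variable {R : Type u} [CommRing R] [IsDomain R] [IsLocalRing R] {p : Fin 248 → R}
  {a : Fin 6 → R} {J : Type} [Fintype J] [DecidableEq J] (D : CoreData R p a J)

/-! ### the form and its inverse -/

theorem uf_cl_Om (S : Setup R p a) : Cl D.X D.X.dual 0 (D.Om S) := (D.exists_Om S).choose_spec.1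

theorem uf_Om_spec (S : Setup R p a) {z z' : J → R} (hz : z ∈ D.X.Z0) (hz' : z' ∈ D.X.Z0) :
    br (D.aa *ᵥ z) (D.aa *ᵥ z') = (z' ⬝ᵥ (D.Om S *ᵥ z)) • p :=
  (D.exists_Om S).choose_spec.2 z hz z' hz'

theorem uf_cl_psi (S : Setup R p a) : Cl D.X.dual D.X 0 (D.psi S) := (D.exists_psi S).choose_spec.1

theorem uf_psi_spec (S : Setup R p a) {l z : J → R} (hl : l ∈ D.X.dual.Z0) (hz : z ∈ D.X.Z0) :
    z ⬝ᵥ (D.Om S *ᵥ (D.psi S *ᵥ l)) = l ⬝ᵥ z := (D.exists_psi S).choose_spec.2 l hl z hz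

theorem uf_ne_p (S : Setup R p a) : p ≠ 0 := by
  obtain ⟨q, hq⟩ := S.top
  intro h
  apply hq
  rw [h]
  rfl

theorem uf_cl_Z0 {A B : Type} [Fintype A] [Fintype B] [DecidableEq A] [DecidableEq B] {K : Cx R A}
    {L : Cx R B} {f : Matrix B A R} (hf : Cl K L 0 f) {v : A → R} (hv : v ∈ K.Z0) :
    f *ᵥ v ∈ L.Z0 := by
  refine ⟨fun j hj => ?_, ?_⟩
  · rw [Matrix.mulVec, dotProduct]
    refine Finset.sum_eq_zero fun k _ => ?_
    by_cases hk : K.deg k = 0
    · rw [hf.hmg j k (by rw [hk]; simpa using hj), zero_mul]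
    · rw [hv.1 k hk, mul_zero]
  · rw [Matrix.mulVec_mulVec, hf.comm0, ← Matrix.mulVec_mulVec, hv.2, Matrix.mulVec_zero]

theorem uf_bd_Om_psi (S : Setup R p a) : Bd D.X.dual D.X.dual 0 (D.Om S * D.psi S - 1) := by
  have hue : ∀ i, UE D.X.dual (a i) := fun i => (D.ue i).dual
  have hcl : Cl D.X.dual D.X.dual 0 (D.Om S * D.psi S - 1) :=
    (((D.uf_cl_Om S).mul (D.uf_cl_psi S)).cast (by ring)).sub Cl.one
  refine uniq1 a S.reg S.ne hue hue ?_ hcl ?_
  · intro i j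
    rw [dual_deg, dual_deg]
    have := D.deg_le i
    have := D.le_deg j
    omega
  · intro l hl
    refine mem_BT_dual (S.ne 0) (D.ue 0) (uf_cl_Z0 hcl hl) fun z hz => ?_
    rw [Matrix.sub_mulVec, Matrix.one_mulVec, ← Matrix.mulVec_mulVec, sub_dotProduct,
      dotProduct_comm, D.uf_psi_spec S hl hz, sub_self]

/-- the inverse of the form on the closed fibre -/
theorem omk_inv (S : Setup R p a) :
    (D.omk S)⁻¹ = Matrix.of fun x y => residue R (D.psi S y x) := by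
  refine Matrix.inv_eq_left_inv ?_
  ext x j
  have hmin : Min (maximalIdeal R) D.X.dual := Min.dual D.min
  have h1 := (D.uf_bd_Om_psi S).mem_ideal hmin hmin j x
  rw [← residue_eq_zero_iff, Matrix.sub_apply, map_sub, sub_eq_zero, Matrix.mul_apply,
    map_sum] at h1
  have h2 : residue R ((1 : Matrix J J R) j x) = (1 : Matrix J J (ResidueField R)) x j := by
    rw [Matrix.one_apply, Matrix.one_apply]
    by_cases h : j = x
    · rw [if_pos h, if_pos h.symm, map_one]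
    · rw [if_neg h, if_neg (Ne.symm h), map_zero]
  rw [Matrix.mul_apply, ← h2, ← h1]
  refine Finset.sum_congr rfl fun k _ => ?_
  rw [Matrix.of_apply, map_mul, mul_comm]
  rfl

/-! ### the trilinear map over `R` -/

/-- the pairing `X ⊗ X → R` -/
noncomputable def uf_omu (S : Setup R p a) : Matrix Unit (J × J) R :=
  Matrix.of fun _ x => D.Om S x.2 x.1

theorem uf_cl_omu (S : Setup R p a) : Cl (D.X.tensor D.X) (free R Unit 0) 0 (D.uf_omu S) := by
  have h0 := D.uf_cl_Om S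
  refine Cl.mk0 ?_ ?_
  · rintro ⟨⟩ ⟨i, j⟩ h
    refine h0.hmg j i fun h1 => h ?_
    rw [dual_deg] at h1
    show (0 : ℤ) = D.X.deg i + D.X.deg j + 0
    omega
  · rw [free_d, Matrix.zero_mul]
    ext ⟨⟩ ⟨i, j⟩
    rw [Matrix.zero_apply, Matrix.mul_apply, Fintype.sum_prod_type]
    have h1 := congrFun (congrFun h0.comm0 j) i
    rw [Matrix.mul_apply, Matrix.mul_apply] at h1
    have h2 : ∀ k l, D.uf_omu S () (k, l) * (D.X.tensor D.X).d (k, l) (i, j) =
        (if l = j then D.Om S l k * D.X.d k i else 0) +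
          (if k = i then D.Om S l k * (((sg (D.X.deg k) : ℤ) : R) * D.X.d l j) else 0) := by
      intro k l
      rw [tensor_d_apply]
      show D.Om S l k * _ = _
      by_cases hl : l = j <;> by_cases hk : k = i <;> (simp [hl, hk]; try ring)
    rw [Finset.sum_congr rfl fun k _ => Finset.sum_congr rfl fun l _ => h2 k l]
    simp only [Finset.sum_add_distrib]
    have h3 : ∑ k, ∑ l, (if l = j then D.Om S l k * D.X.d k i else 0) =
        ∑ k, D.Om S j k * D.X.d k i := by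
      refine Finset.sum_congr rfl fun k _ => ?_
      rw [Finset.sum_ite_eq' Finset.univ j]
      simp
    have h4 : ∑ k, ∑ l, (if k = i then D.Om S l k * (((sg (D.X.deg k) : ℤ) : R) * D.X.d l j)
        else 0) = ∑ l, D.Om S l i * (((sg (D.X.deg i) : ℤ) : R) * D.X.d l j) := by
      rw [Finset.sum_comm]
      refine Finset.sum_congr rfl fun l _ => ?_
      rw [Finset.sum_ite_eq' Finset.univ i]
      simp
    rw [h3, h4, ← h1, ← Finset.sum_add_distrib, eq_comm]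
    refine Finset.sum_eq_zero fun k _ => ?_
    have h5 : D.X.dual.d j k = -(((sg (D.X.deg k) : ℤ) : R) * D.X.d k j) := by
      rw [dual_d, Matrix.neg_apply, Matrix.transpose_apply]
      show -(Matrix.diagonal (fun j => ((sg (D.X.deg j) : ℤ) : R)) * D.X.d) k j = _
      rw [Matrix.diagonal_mul]
    rw [h5]
    by_cases h6 : D.X.deg k = -D.X.deg i
    · rw [h6, sg_neg]; ring
    · rw [h0.hmg k i (by rw [dual_deg]; intro h7; apply h6; omega)]
      ring

theorem uf_omu_vk (S : Setup R p a) (x y : J → R) :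
    (D.uf_omu S *ᵥ vk x y) () = y ⬝ᵥ (D.Om S *ᵥ x) := by
  rw [Matrix.mulVec, dotProduct, Fintype.sum_prod_type_right, dotProduct]
  refine Finset.sum_congr rfl fun j _ => ?_
  rw [Matrix.mulVec, dotProduct, Finset.mul_sum]
  refine Finset.sum_congr rfl fun i _ => ?_
  show D.Om S j i * (x i * y j) = _
  ring

/-- `-2 D' - ω` -/
noncomputable def uf_Du (S : Setup R p a) : Matrix J ((J × J) × J) R :=
  -((2 : R) • D.Dp S) - lun R J * (D.uf_omu S ⊗ₖ (1 : Matrix J J R))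

theorem uf_cl_Du (S : Setup R p a) : Cl ((D.X.tensor D.X).tensor D.X) D.X 0 (D.uf_Du S) :=
  ((D.cl_Dp S).smul 2).neg.sub (((cl_lun D.X).mul ((D.uf_cl_omu S).kron Cl.one)).cast (by ring))

theorem uf_residue_Du (S : Setup R p a) (i j l m : J) :
    residue R (D.uf_Du S m ((i, j), l)) = D.Dk S i j l m := by
  rw [uf_Du, Matrix.sub_apply, Matrix.neg_apply, Matrix.smul_apply, smul_eq_mul, lun_mul,
    Matrix.kroneckerMap_apply, Dk, map_sub, map_neg, map_mul, map_mul, map_ofNat,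
    Matrix.one_apply]
  show -(2 * residue R (D.Dp S m ((i, j), l))) - residue R (D.Om S j i) * _ =
    -(2 * residue R (D.Dp S m ((i, j), l))) - residue R (D.Om S j i) * _
  congr 2
  by_cases h : l = m
  · rw [if_pos h, if_pos h.symm, map_one]
  · rw [if_neg h, if_neg (Ne.symm h), map_zero]

theorem uf_Du_vk (S : Setup R p a) (x y z : J → R) : D.uf_Du S *ᵥ vk (vk x y) z =
    -((2 : R) • (D.Dp S *ᵥ vk (vk x y) z)) - (y ⬝ᵥ (D.Om S *ᵥ x)) • z := by
  rw [uf_Du, Matrix.sub_mulVec, Matrix.neg_mulVec, Matrix.smul_mulVec, ← Matrix.mulVec_mulVec,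
    kron_mulVec_tv, Matrix.one_mulVec]
  congr 1
  exact (lun_vk _ _).trans (by rw [uf_omu_vk])

theorem uf_Du_mem (S : Setup R p a) {x y z : J → R} (hx : x ∈ D.X.Z0) (hy : y ∈ D.X.Z0)
    (hz : z ∈ D.X.Z0) : D.uf_Du S *ᵥ vk (vk x y) z ∈ D.X.Z0 :=
  uf_cl_Z0 (D.uf_cl_Du S) (vk_mem _ _ (vk_mem _ _ hx hy) hz)

theorem uf_Du_spec (S : Setup R p a) {x y z : J → R} (hx : x ∈ D.X.Z0) (hy : y ∈ D.X.Z0)
    (hz : z ∈ D.X.Z0) (e : Fin 248 → R) :
    kf p e • (D.aa *ᵥ (D.uf_Du S *ᵥ vk (vk x y) z) : E8 R) +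
      (2 : R) • br (br (br e (D.aa *ᵥ x)) (D.aa *ᵥ y)) (D.aa *ᵥ z) +
      (kf p e * (y ⬝ᵥ (D.Om S *ᵥ x))) • (D.aa *ᵥ z : E8 R) ∈ Lp p := by
  obtain ⟨r, c, hc, h⟩ := (D.Dp_spec S hx hy hz e).2
  have h1 : (2 * c) • (br (br (br e (D.aa *ᵥ x)) (D.aa *ᵥ y)) (D.aa *ᵥ z) -
      kf p e • (D.aa *ᵥ (D.Dp S *ᵥ vk (vk x y) z) : E8 R)) ∈ Lp p := by
    refine mem_Lp.2 ⟨-(2 * r), ?_⟩
    have h2 : (c * kf p e) • (D.aa *ᵥ (D.Dp S *ᵥ vk (vk x y) z) : E8 R) =
      c • br (br (br e (D.aa *ᵥ x)) (D.aa *ᵥ y)) (D.aa *ᵥ z) + r • p := h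
    rw [smul_sub, smul_smul, mul_assoc, mul_smul 2 (c * kf p e), h2]
    module
  have hchar := S.char0
  have h3 := Lp_sat S.sat (mul_ne_zero two_ne_zero hc) h1
  rw [D.uf_Du_vk, Matrix.mulVec_sub, Matrix.mulVec_neg, Matrix.mulVec_smul, Matrix.mulVec_smul]
  convert (Lp p).smul_mem 2 h3 using 1
  module

/-! ### the copairing -/

/-- the copairing -/
noncomputable def uf_rho (S : Setup R p a) : J × J → R :=
  ((1 : Matrix J J R) ⊗ₖ D.psi S) *ᵥ Cx.vec (1 : Matrix J J R)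

theorem uf_rho_apply (S : Setup R p a) (i j : J) : D.uf_rho S (i, j) = D.psi S j i := by
  rw [uf_rho, Matrix.mulVec, dotProduct, Finset.sum_eq_single (i, i)]
  · simp [Cx.vec, Matrix.kroneckerMap_apply]
  · rintro ⟨b, b'⟩ _ hb
    by_cases h1 : i = b
    · subst h1
      have h2 : i ≠ b' := by rintro rfl; exact hb rfl
      simp [Cx.vec, Matrix.one_apply_ne h2]
    · simp [Matrix.kroneckerMap_apply, Matrix.one_apply_ne h1]
  · simp

theorem uf_vec_one_mem : Cx.vec (1 : Matrix J J R) ∈ (D.X.tensor D.X.dual).Z0 := by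
  have h := cl_iff.1 (Cl.one : Cl D.X D.X 0 1)
  exact ⟨h.1, h.2⟩

theorem uf_cl_one_psi (S : Setup R p a) :
    Cl (D.X.tensor D.X.dual) (D.X.tensor D.X) 0 ((1 : Matrix J J R) ⊗ₖ D.psi S) :=
  Cl.one.kron (D.uf_cl_psi S)

theorem uf_rho_mem (S : Setup R p a) : D.uf_rho S ∈ (D.X.tensor D.X).Z0 :=
  uf_cl_Z0 (D.uf_cl_one_psi S) D.uf_vec_one_mem

/-- the covector of an element `y` of `e_8` orthogonal to `p` -/
noncomputable def uf_lv (y : E8 R) : J → R := D.aaᵀ *ᵥ (kM R *ᵥ y)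

theorem uf_lv_dot (y : E8 R) (z : J → R) : D.uf_lv y ⬝ᵥ z = kf y (D.aa *ᵥ z) := by
  rw [uf_lv, Matrix.mulVec_transpose, ← Matrix.dotProduct_mulVec, dotProduct_comm, ← kf_eq,
    LicciCore.kf_comm]

theorem uf_lv_mem {y : E8 R} (hy : kf p y = 0) : D.uf_lv y ∈ D.X.dual.Z0 := by
  refine ⟨fun j hj => ?_, ?_⟩
  · rw [dual_deg, ne_eq, neg_eq_zero] at hj
    rw [uf_lv, Matrix.mulVec, dotProduct]
    refine Finset.sum_eq_zero fun k _ => ?_
    rw [Matrix.transpose_apply, D.aa_deg k j hj, zero_mul]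
  · have h1 : D.aa * D.X.e = D.aa := by
      ext i j
      show (D.aa * Matrix.diagonal fun j => ((sg (D.X.deg j) : ℤ) : R)) i j = _
      rw [Matrix.mul_diagonal]
      by_cases hj : D.X.deg j = 0
      · rw [hj, sg_zero, Int.cast_one, mul_one]
      · rw [D.aa_deg i j hj, zero_mul]
    rw [dual_d, uf_lv, Matrix.mulVec_mulVec, Matrix.neg_mul, ← Matrix.transpose_mul,
      ← Matrix.mul_assoc, h1, D.aa_d, Matrix.transpose_neg, neg_neg, Matrix.transpose_mul,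
      ← Matrix.mulVec_mulVec]
    have h2 : (pcol p)ᵀ *ᵥ (kM R *ᵥ y) = 0 := by
      ext i
      rw [Matrix.mulVec, Pi.zero_apply, ← hy, kf_eq]
      rfl
    rw [h2, Matrix.mulVec_zero]

/-! ### the Casimir map -/

/-- `x ⊗ y ↦ ∑ D(x, y) e_a ⊗ e^a` -/
noncomputable def uf_Eu (S : Setup R p a) : Matrix (J × J) (J × J) R :=
  (D.uf_Du S ⊗ₖ (1 : Matrix J J R)) * asi R (J × J) J J * uf_insr (J × J) (D.uf_rho S)

theorem uf_cl_Eu (S : Setup R p a) : Cl (D.X.tensor D.X) (D.X.tensor D.X) 0 (D.uf_Eu S) :=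
  ((((D.uf_cl_Du S).kron Cl.one).mul (cl_asi (D.X.tensor D.X) D.X D.X)).mul
    (uf_cl_insr (D.X.tensor D.X) (D.X.tensor D.X) (D.uf_rho_mem S))).cast (by ring)

theorem uf_Eu_apply (S : Setup R p a) (n b i j : J) : D.uf_Eu S (n, b) (i, j) =
    ∑ x, D.uf_Du S n ((i, j), x) * D.psi S b x := by
  have h1 : D.uf_Eu S (n, b) (i, j) = (((D.uf_Du S ⊗ₖ (1 : Matrix J J R)) * asi R (J × J) J J) *ᵥ
      vk (Pi.single (i, j) 1) (D.uf_rho S)) (n, b) := by
    rw [← uf_insr_mulVec, Matrix.mulVec_mulVec, ← uf_Eu, Matrix.mulVec_single_one]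
    rfl
  rw [h1, Matrix.mulVec, dotProduct, Fintype.sum_prod_type, Finset.sum_eq_single (i, j)]
  · rw [Fintype.sum_prod_type]
    refine Finset.sum_congr rfl fun x _ => ?_
    rw [Finset.sum_eq_single b]
    · rw [mul_asi, Matrix.kroneckerMap_apply, Matrix.one_apply_eq]
      simp [vk, tv, D.uf_rho_apply S]
    · intro b' _ hb
      rw [mul_asi, Matrix.kroneckerMap_apply, Matrix.one_apply_ne (Ne.symm hb)]
      ring
    · simp
  · intro b' _ hb
    refine Finset.sum_eq_zero fun x _ => ?_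
    simp [vk, tv, hb]
  · simp

/-- `∑ D(D(x, y) e_a, e^a) z - 24 D(x, y) z` -/
noncomputable def uf_Fu (S : Setup R p a) : Matrix J ((J × J) × J) R :=
  D.uf_Du S * (D.uf_Eu S ⊗ₖ (1 : Matrix J J R)) - (24 : R) • D.uf_Du S

theorem uf_cl_Fu (S : Setup R p a) : Cl ((D.X.tensor D.X).tensor D.X) D.X 0 (D.uf_Fu S) :=
  (((D.uf_cl_Du S).mul ((D.uf_cl_Eu S).kron Cl.one)).cast (by ring)).sub ((D.uf_cl_Du S).smul 24)

theorem uf_Fu_apply (S : Setup R p a) (m i j l : J) : D.uf_Fu S m ((i, j), l) =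
    ∑ x, ∑ y, ∑ n, D.psi S y x * D.uf_Du S n ((i, j), x) * D.uf_Du S m ((n, y), l) -
      24 * D.uf_Du S m ((i, j), l) := by
  rw [uf_Fu, Matrix.sub_apply, mul_kron_one, Matrix.smul_apply, smul_eq_mul,
    Fintype.sum_prod_type]
  congr 1
  have h1 : ∀ n y, D.uf_Du S m ((n, y), l) * D.uf_Eu S (n, y) (i, j) =
      ∑ x, D.psi S y x * D.uf_Du S n ((i, j), x) * D.uf_Du S m ((n, y), l) := by
    intro n y
    rw [uf_Eu_apply, Finset.mul_sum]
    refine Finset.sum_congr rfl fun x _ => ?_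
    ring
  rw [Finset.sum_congr rfl fun n _ => Finset.sum_congr rfl fun y _ => h1 n y]
  rw [Finset.sum_congr rfl fun n _ => Finset.sum_comm]
  rw [Finset.sum_comm]
  refine Finset.sum_congr rfl fun x _ => ?_
  rw [Finset.sum_comm]

/-- for fixed cocycles `x, y, z` the map `r ⊗ r' ↦ D(D(x, y) r, r') z` -/
noncomputable def uf_Tu (S : Setup R p a) (x y z : J → R) : Matrix J (J × J) R :=
  D.uf_Du S * uf_insr (J × J) z * (D.uf_Du S ⊗ₖ (1 : Matrix J J R)) * asi R (J × J) J J *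
    uf_insl (J × J) (vk x y)

theorem uf_cl_Tu (S : Setup R p a) {x y z : J → R} (hx : x ∈ D.X.Z0) (hy : y ∈ D.X.Z0)
    (hz : z ∈ D.X.Z0) : Cl (D.X.tensor D.X) D.X 0 (D.uf_Tu S x y z) :=
  (((((D.uf_cl_Du S).mul (uf_cl_insr (D.X.tensor D.X) D.X hz)).mul ((D.uf_cl_Du S).kron Cl.one)).mul
    (cl_asi (D.X.tensor D.X) D.X D.X)).mul
      (uf_cl_insl (D.X.tensor D.X) (D.X.tensor D.X) (vk_mem _ _ hx hy))).cast (by ring)

theorem uf_Tu_mulVec (S : Setup R p a) (x y z : J → R) (r : J × J → R) :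
    D.uf_Tu S x y z *ᵥ r = D.uf_Du S *ᵥ vk ((D.uf_Du S ⊗ₖ (1 : Matrix J J R)) *ᵥ
      (asi R (J × J) J J *ᵥ vk (vk x y) r)) z := by
  rw [uf_Tu, ← Matrix.mulVec_mulVec, uf_insl_mulVec, ← Matrix.mulVec_mulVec, ← Matrix.mulVec_mulVec,
    ← Matrix.mulVec_mulVec, uf_insr_mulVec]

theorem uf_Tu_vk (S : Setup R p a) (x y z r r' : J → R) :
    D.uf_Tu S x y z *ᵥ vk r r' = D.uf_Du S *ᵥ vk (vk (D.uf_Du S *ᵥ vk (vk x y) r) r') z := by
  rw [uf_Tu_mulVec, asi_vk, kron_vk, Matrix.one_mulVec]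

theorem uf_Fu_vk (S : Setup R p a) (x y z : J → R) : D.uf_Fu S *ᵥ vk (vk x y) z =
    D.uf_Tu S x y z *ᵥ D.uf_rho S - (24 : R) • (D.uf_Du S *ᵥ vk (vk x y) z) := by
  rw [uf_Fu, Matrix.sub_mulVec, Matrix.smul_mulVec, ← Matrix.mulVec_mulVec, kron_vk,
    Matrix.one_mulVec, uf_Tu_mulVec, uf_Eu, ← Matrix.mulVec_mulVec, ← Matrix.mulVec_mulVec,
    uf_insr_mulVec]

/-- elements mapped to the line of `p` are boundaries -/
theorem uf_mem_B0 {z : J → R} (hz : z ∈ D.X.Z0) (h : (D.aa *ᵥ z : E8 R) ∈ Lp p) : z ∈ D.X.B0 := by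
  obtain ⟨r, hr⟩ := mem_Lp.1 h
  obtain ⟨w, hw, hw2, -⟩ := D.ker z hz (-r) (by
    rw [neg_smul, ← sub_eq_add_neg, sub_eq_zero]; exact hr)
  exact ⟨w, hw, hw2.symm⟩

theorem uf_exists_pmem (S : Setup R p a) : ∃ e : E8 R, kf p e ≠ 0 := by
  obtain ⟨n, e, he⟩ := S.pmem 0
  exact ⟨e, by rw [he]; exact pow_ne_zero n (S.ne 0)⟩

/-- the vanishing of the Casimir map on cocycles -/
theorem uf_Fu_mem (S : Setup R p a) {x y z : J → R} (hx : x ∈ D.X.Z0) (hy : y ∈ D.X.Z0)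
    (hz : z ∈ D.X.Z0) : D.uf_Fu S *ᵥ vk (vk x y) z ∈ D.X.BT := by
  have := S.char0
  have hp0 : p ≠ 0 := uf_ne_p S
  obtain ⟨xs, w, c, hdf⟩ := exists_dualFam S.cone S.top
  obtain ⟨e, he⟩ := uf_exists_pmem S
  choose xh hxh rh hrh using fun i => D.surj (xs i) (hdf.x_mem i)
  -- the dual vectors
  set l : Fin 56 → J → R := fun i => D.uf_lv (w i) with hl
  have hl0 : ∀ i, l i ∈ D.X.dual.Z0 := fun i => D.uf_lv_mem (hdf.w_perp i)
  set v : Fin 56 → J → R := fun i => D.psi S *ᵥ l i with hv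
  have hv0 : ∀ i, v i ∈ D.X.Z0 := fun i => uf_cl_Z0 (D.uf_cl_psi S) (hl0 i)
  have hvbr : ∀ i, ∀ z' ∈ D.X.Z0, br (D.aa *ᵥ v i) (D.aa *ᵥ z') =
      kf (w i) (D.aa *ᵥ z') • p := by
    intro i z' hz'
    rw [D.uf_Om_spec S (hv0 i) hz', D.uf_psi_spec S (hl0 i) hz', D.uf_lv_dot]
  have hV : ∀ i, (D.aa *ᵥ v i : E8 R) - br p (w i) ∈ Lp p := by
    intro i
    refine eq_br_p S.cone S.sat hp0 hdf (D.mem _ (hv0 i)) (hdf.w_perp i) fun y' hy' => ?_
    obtain ⟨z', hz', r, rfl⟩ := D.surj y' hy'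
    rw [br_add_right, br_smul_right, hvbr i z' hz', br_skew _ p,
      br_p_F1 S.cone (D.mem _ (hv0 i)), neg_zero, smul_zero, add_zero, kf_add_right,
      kf_smul_right, LicciCore.kf_comm (w i) p, hdf.w_perp i, mul_zero, add_zero]
  -- the copairing
  have hM0 : (c • Cx.vec (1 : Matrix J J R) - ∑ i, vk (xh i) (l i)) ∈
      (D.X.tensor D.X.dual).BT := by
    have h1 : (c • Cx.vec (1 : Matrix J J R) - ∑ i, vk (xh i) (l i)) ∈
        (D.X.tensor D.X.dual).Z0 :=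
      Submodule.sub_mem _ (Submodule.smul_mem _ _ D.uf_vec_one_mem)
        (Submodule.sum_mem _ fun i _ => vk_mem _ _ (hxh i) (hl0 i))
    have h2 : c • Cx.vec (1 : Matrix J J R) - ∑ i, vk (xh i) (l i) =
        Cx.vec (c • (1 : Matrix J J R) - ∑ i, Matrix.vecMulVec (xh i) (l i)) := by
      ext ⟨i, j⟩
      simp only [Cx.vec, Pi.sub_apply, Pi.smul_apply, Finset.sum_apply, Matrix.sub_apply,
        Matrix.smul_apply, Matrix.sum_apply]
      rfl
    rw [h2] at h1 ⊢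
    have h3 : Cl D.X D.X 0 (c • (1 : Matrix J J R) - ∑ i, Matrix.vecMulVec (xh i) (l i)) :=
      cl_iff.2 ⟨h1.1, h1.2⟩
    have h4 : Bd D.X D.X 0 (c • (1 : Matrix J J R) - ∑ i, Matrix.vecMulVec (xh i) (l i)) := by
      refine uniq1 a S.reg S.ne D.ue D.ue ?_ h3 ?_
      · intro i j
        have := D.deg_le j
        have := D.le_deg i
        omega
      · intro z' hz'
        refine B0_le_BT _ (D.uf_mem_B0 (uf_cl_Z0 h3 hz') ?_)
        have h5 : (c • (1 : Matrix J J R) - ∑ i, Matrix.vecMulVec (xh i) (l i)) *ᵥ z' =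
            c • z' - ∑ i, kf (w i) (D.aa *ᵥ z') • xh i := by
          rw [Matrix.sub_mulVec, Matrix.smul_mulVec, Matrix.one_mulVec, Matrix.sum_mulVec]
          congr 1
          refine Finset.sum_congr rfl fun i _ => ?_
          rw [← D.uf_lv_dot]
          ext j
          rw [Matrix.mulVec, dotProduct, Pi.smul_apply, smul_eq_mul, dotProduct,
            Finset.sum_mul]
          refine Finset.sum_congr rfl fun k _ => ?_
          rw [Matrix.vecMulVec_apply]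
          ring
        obtain ⟨r, hr⟩ := hdf.span _ (D.mem _ hz')
        rw [h5, Matrix.mulVec_sub, Matrix.mulVec_smul, Matrix.mulVec_sum]
        have h6 : (c • (D.aa *ᵥ z' : E8 R) - ∑ i, D.aa *ᵥ (kf (w i) (D.aa *ᵥ z') • xh i) : E8 R) =
            (r + ∑ i, kf (w i) (D.aa *ᵥ z') * rh i) • p := by
          have h7 : ∑ i, kf (w i) (D.aa *ᵥ z') • xs i =
              ∑ i, (D.aa *ᵥ (kf (w i) (D.aa *ᵥ z') • xh i) : E8 R) +
                ∑ i, (kf (w i) (D.aa *ᵥ z') * rh i) • p := by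
            rw [← Finset.sum_add_distrib]
            refine Finset.sum_congr rfl fun i _ => ?_
            rw [Matrix.mulVec_smul, hrh i, smul_add, smul_smul]
          rw [hr, h7, add_smul, Finset.sum_smul]
          abel
        exact mem_Lp.2 ⟨_, h6⟩
    obtain ⟨s, hs, hs2⟩ := bd_iff.1 h4
    refine B0_le_BT _ ⟨s, fun j hj => hs j ?_, hs2⟩
    show (D.X.tensor D.X.dual).deg j ≠ 0 - 1
    simpa using hj
  have hrho : c • D.uf_rho S - ∑ i, vk (xh i) (v i) ∈ (D.X.tensor D.X).BT := by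
    have h1 := cl_mulVec_BT (D.uf_cl_one_psi S) hM0
    rw [Matrix.mulVec_sub, Matrix.mulVec_smul, ← uf_rho, Matrix.mulVec_sum] at h1
    have h2 : ∀ i, ((1 : Matrix J J R) ⊗ₖ D.psi S) *ᵥ vk (xh i) (l i) = vk (xh i) (v i) := by
      intro i
      rw [kron_vk, Matrix.one_mulVec]
    rwa [Finset.sum_congr rfl fun i _ => h2 i] at h1
  -- the first application
  set W : Fin 56 → J → R := fun i => D.uf_Du S *ᵥ vk (vk x y) (xh i) with hW
  have hW0 : ∀ i, W i ∈ D.X.Z0 := fun i => D.uf_Du_mem S hx hy (hxh i)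
  have hu0 : br (br e (D.aa *ᵥ x)) (D.aa *ᵥ y) ∈ F0 p :=
    br_perp_F1 S.cone hp0 (kf_p_br S.cone (D.mem x hx) e) (D.mem y hy)
  have hTu := cl_mulVec_BT (D.uf_cl_Tu S hx hy hz) hrho
  rw [Matrix.mulVec_sub, Matrix.mulVec_smul, Matrix.mulVec_sum,
    Finset.sum_congr rfl fun i _ => D.uf_Tu_vk S x y z (xh i) (v i)] at hTu
  set G : Fin 56 → J → R := fun i => D.uf_Du S *ᵥ vk (vk (W i) (v i)) z with hG
  have hG0 : ∀ i, G i ∈ D.X.Z0 := fun i => D.uf_Du_mem S (hW0 i) (hv0 i) hz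
  have hH0 : D.uf_Du S *ᵥ vk (vk x y) z ∈ D.X.Z0 := D.uf_Du_mem S hx hy hz
  have key : ∑ i, (D.aa *ᵥ G i : E8 R) - (24 * c) • (D.aa *ᵥ (D.uf_Du S *ᵥ vk (vk x y) z) : E8 R) ∈
      Lp p := by
    refine uf_alg (X := D.aa *ᵥ x) (Y := D.aa *ᵥ y) (Z := D.aa *ᵥ z) (e := e)
      (W := fun i => D.aa *ᵥ W i) (V := fun i => D.aa *ᵥ v i) (s := y ⬝ᵥ (D.Om S *ᵥ x))
      S.cone S.sat hp0 S.top hdf he (D.mem x hx) (D.mem y hy) (D.mem z hz)
      (D.uf_Om_spec S hx hy) (fun i => D.mem _ (hW0 i)) hV ?_ (D.uf_Du_spec S hx hy hz e) ?_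
    · intro i
      have h1 := D.uf_Du_spec S hx hy (hxh i) e
      have h2 : (D.aa *ᵥ xh i : E8 R) = xs i - rh i • p := by
        rw [hrh i, add_sub_cancel_right]
      rw [h2] at h1
      have h3 := br_Lp S.sat hp0 hu0 (smul_mem_Lp (rh i))
      have h4 := (Lp p).add_mem h1 ((Lp p).smul_mem 2 h3)
      have h5 := (Lp p).add_mem h4 (smul_mem_Lp (p := p) (kf p e * (y ⬝ᵥ (D.Om S *ᵥ x)) * rh i))
      convert h5 using 1
      rw [br_sub_right]
      module
    · intro i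
      have h1 := D.uf_Du_spec S (hW0 i) (hv0 i) hz e
      have h2 : (v i ⬝ᵥ (D.Om S *ᵥ W i)) = -kf (w i) (D.aa *ᵥ W i) := by
        have h3 := D.uf_Om_spec S (hW0 i) (hv0 i)
        rw [br_skew, hvbr i _ (hW0 i), ← neg_smul] at h3
        rcases smul_eq_zero.1 ((sub_smul _ _ p).trans (sub_eq_zero.2 h3)) with h4 | h4
        · exact (sub_eq_zero.1 h4).symm
        · exact absurd h4 hp0
      rw [h2] at h1
      convert h1 using 1
      module
  have key2 : ∑ i, G i - (24 * c) • (D.uf_Du S *ᵥ vk (vk x y) z) ∈ D.X.BT := by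
    refine B0_le_BT _ (D.uf_mem_B0 (Submodule.sub_mem _ (Submodule.sum_mem _ fun i _ => hG0 i)
      (Submodule.smul_mem _ _ hH0)) ?_)
    rw [Matrix.mulVec_sub, Matrix.mulVec_sum, Matrix.mulVec_smul]
    exact key
  refine BT_sat hdf.ne ?_
  have h1 := D.X.BT.add_mem hTu key2
  convert h1 using 1
  rw [D.uf_Fu_vk]
  module

theorem uf_bd_Fu (S : Setup R p a) : Bd ((D.X.tensor D.X).tensor D.X) D.X 0 (D.uf_Fu S) := by
  refine uniq3 a S.reg S.ne D.ue D.ue D.ue D.ue ?_ (D.uf_cl_Fu S) fun x hx y hy z hz =>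
    D.uf_Fu_mem S hx hy hz
  intro i j k l
  have := D.deg_le j
  have := D.deg_le k
  have := D.deg_le l
  have := D.le_deg i
  omega

theorem Dk_sq (S : Setup R p a) (i j l r : J) :
    ∑ x, ∑ y, ∑ m, (D.omk S)⁻¹ x y * D.Dk S i j x m * D.Dk S m y l r =
      24 * D.Dk S i j l r := by
  have hmin : Min (maximalIdeal R) D.X := D.min
  have h1 := (D.uf_bd_Fu S).mem_ideal ((hmin.tensor hmin).tensor hmin) hmin r ((i, j), l)
  rw [← residue_eq_zero_iff, uf_Fu_apply, map_sub, sub_eq_zero, map_mul, map_ofNat,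
    uf_residue_Du, map_sum] at h1
  rw [← h1, omk_inv]
  refine Finset.sum_congr rfl fun x _ => ?_
  rw [map_sum]
  refine Finset.sum_congr rfl fun y _ => ?_
  rw [map_sum]
  refine Finset.sum_congr rfl fun m _ => ?_
  rw [map_mul, map_mul, uf_residue_Du, uf_residue_Du]
  rfl

end CoreData

end LicciCore
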