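import Pool.Agent.Work.MP_a98e4e_ag.Fu.Core.MapsEv
import Pool.Agent.Work.MP_a98e4e_ag.Fu.CF.Dvr
import Pool.Agent.Work.MP_a98e4e_ag.Fu.Core.UF
import Pool.Agent.Work.MP_a98e4e_ag.Fu.Core.FromMono
import Pool.Agent.Work.MP_a98e4e_ag.Fu.Core.Read
import Pool.Agent.Work.MP_a98e4e_ag.Fu.Core.KeyApp
import Pool.Agent.Work.MP_a98e4e_ag.Fu.CF.Four.C
import Pool.Agent.Work.MP_a98e4e_ag.Fu.E.Theta
import Pool.Agent.Work.MP_a98e4e_ag.Fu.DLink
import Pool.Agent.Work.MP_a98e4e_ag.Fu.XE.Ext
import Pool.Agent.Work.MP_a98e4e_ag.Fu.E.Dim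
import Pool.Agent.Work.MP_a98e4e_ag.Fu.CF.Defs
import Pool.Agent.Work.MP_a98e4e_ag.Fu.D.Vol
import Pool.Agent.Work.MP_a98e4e_ag.Fu.L.Rank14
import Pool.Agent.Work.MP_a98e4e_ag.Fu.XE.VeS3

section

/-!
# The pairing on the closed fibre is nondegenerate
-/

set_option autoImplicit false
set_option linter.unusedSectionVars false

open Matrix IsLocalRing

namespace LicciCore

open LicciCx Cx Pool.Agent.Licci

universe u

namespace CoreData

variable {R : Type u} [CommRing R] [IsDomain R] [IsLocalRing R] {p : Fin 248 → R}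
  {a : Fin 6 → R} {J : Type} [Fintype J] [DecidableEq J] (D : CoreData R p a J)

theorem omk_unit (S : Setup R p a) : IsUnit (D.omk S).det := by
  have h : D.omk S = ((D.Om S).map (residue R))ᵀ := rfl
  rw [h, Matrix.det_transpose]
  exact D.Om_unit S

end CoreData

end LicciCore

end

section

/-!
# The core theorem
-/

set_option autoImplicit false
set_option linter.unusedSectionVars false

open Matrix Kronecker RingTheory.Sequence IsLocalRing

namespace LicciCore

open LicciCx Cx Pool.Agent.Licci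

universe u

namespace CoreData

variable {R : Type u} [CommRing R] [IsDomain R] [IsLocalRing R] {p : Fin 248 → R}
  {a : Fin 6 → R} {J : Type} [Fintype J] [DecidableEq J] (D : CoreData R p a J)

/-- the closed fibre is super Freudenthal data -/
theorem sfts (S : Setup R p a) : Sfts D.X.deg (D.omk S) (D.Dk S) where
  deg_le := D.deg_le
  le_deg := D.le_deg
  om_deg := D.omk_deg S
  om_symm := D.omk_symm S
  om_unit := D.omk_unit S
  dim := D.dim_of_unit S (D.omk_unit S)
  D_deg := D.Dk_deg S
  D_symm := D.Dk_symm S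
  cross := D.Dk_cross S
  sp := D.Dk_sp S
  sq := D.Dk_sq S

/-- the key homotopy in the form used for the closed fibre -/
theorem key_bd' (S : Setup R p a) : Bd D.X2 (D.G S) 1
    (D.Dh S * ins J (fun j => (1 : R) * D.ph () j) * prX R J +
      inG R J * ((-1 : R) • ((prX R J)ᵀ * D.Om S * prX R J))) := by
  have h := D.key_bd S
  have e1 : (fun j => (1 : R) * D.ph () j) = D.phv := by
    ext j
    rw [one_mul]
    rfl
  have e2 : (-1 : R) • ((prX R J)ᵀ * D.Om S * prX R J) = D.tau S := by
    rw [neg_smul, one_smul]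
    rfl
  rw [e1, e2]
  exact h

theorem exists_seps (S : Setup R p a) (h : ∃ j, D.X.deg j = 1) :
    ∃ ε, SEps D.X.deg (D.Dk S) ε :=
  ⟨D.epsK S, D.sEps S isUnit_one isUnit_one.neg (D.key_bd' S) h⟩

theorem unit_of_deg (S : Setup R p a) (h : ∀ j, D.X.deg j = 0) : ∃ j, IsUnit (p j) :=
  D.exists_isUnit S isUnit_one isUnit_one.neg (D.key_bd' S) h

end CoreData

/-- **The core theorem.** -/
theorem core {R : Type u} [CommRing R] [IsDomain R] [IsRegularLocalRing R]
    {p : Fin 248 → R} {a : Fin 6 → R} {J : Type} [Fintype J] [DecidableEq J]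
    (S : Setup R p a) (D : CoreData R p a J) (ha : Ideal.span (Set.range a) = maximalIdeal R) :
    ∃ j, IsUnit (p j) := by
  have : CharZero (ResidueField R) := charZero_residue S.rat
  exact core_of S D ha (D.sfts S) (D.exists_seps S) (D.unit_of_deg S)
    (fun ε de he hd _ _ => sfts_false (D.sfts S) he hd)

end LicciCore

end

section

/-!
# The setup of the core from a point of the cone over a regular local ring of dimension six
-/

set_option autoImplicit false
set_option linter.unusedSectionVars false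

open Matrix RingTheory.Sequence IsLocalRing

namespace LicciCore

open LicciCx Cx Pool.Agent.Licci LicciCodimFour

universe u

section algebra

variable {R : Type u} [CommRing R]

theorem natCast_isUnit' [IsLocalRing R] [CharZero (ResidueField R)] {n : ℕ} (hn : n ≠ 0) :
    IsUnit (n : R) := by
  by_contra h
  have h1 : residue R (n : R) = 0 := (residue_eq_zero_iff _).2 ((mem_maximalIdeal _).2 h)
  rw [map_natCast] at h1
  exact hn (Nat.cast_eq_zero.1 h1)

/-- A local ring with residue field of characteristic zero is a `ℚ`-algebra. -/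
theorem exists_algebra_rat' (R : Type u) [CommRing R] [IsLocalRing R]
    [CharZero (ResidueField R)] : Nonempty (Algebra ℚ R) := by
  have hu : ∀ x : nonZeroDivisors ℤ, IsUnit (algebraMap ℤ R (x : ℤ)) := by
    intro x
    have hx : (x : ℤ) ≠ 0 := nonZeroDivisors.coe_ne_zero x
    rw [algebraMap_int_eq, eq_intCast]
    rcases Int.natAbs_eq (x : ℤ) with h | h
    · rw [h, Int.cast_natCast]
      exact natCast_isUnit' (Int.natAbs_ne_zero.2 hx)
    · rw [h, Int.cast_neg, Int.cast_natCast]
      exact (natCast_isUnit' (Int.natAbs_ne_zero.2 hx)).neg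
  exact ⟨(IsLocalization.lift (M := nonZeroDivisors ℤ) (g := algebraMap ℤ R) hu :
    ℚ →+* R).toAlgebra⟩

/-- powers of the first two elements of a regular sequence -/
theorem two_pow [IsDomain R] {x y : R} (hx : x ≠ 0)
    (h : ∀ s, y * s ∈ Ideal.span {x} → s ∈ Ideal.span {x}) (n m : ℕ) :
    ∀ s, y ^ m * s ∈ Ideal.span {x ^ n} → s ∈ Ideal.span {x ^ n} := by
  have h1 : ∀ s, y ^ m * s ∈ Ideal.span {x} → s ∈ Ideal.span {x} := by
    induction m with
    | zero => intro s hs; rwa [pow_zero, one_mul] at hs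
    | succ m ih =>
      intro s hs
      apply ih
      apply h
      rwa [← mul_assoc, ← pow_succ']
  induction n with
  | zero => intro s _; rw [pow_zero, Ideal.span_singleton_one]; trivial
  | succ n ih =>
    intro s hs
    obtain ⟨t, ht⟩ := Ideal.mem_span_singleton'.1 hs
    obtain ⟨s', rfl⟩ := Ideal.mem_span_singleton'.1 (h1 s (Ideal.mem_span_singleton'.2
      ⟨t * x ^ n, by rw [← ht, pow_succ, mul_assoc]⟩))
    have h2 : y ^ m * s' = t * x ^ n := by
      apply mul_right_cancel₀ hx
      rw [mul_assoc, ← ht, pow_succ, mul_assoc]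
    obtain ⟨t', rfl⟩ := Ideal.mem_span_singleton'.1 (ih s' (Ideal.mem_span_singleton'.2
      ⟨t, h2.symm⟩))
    exact Ideal.mem_span_singleton'.2 ⟨t', by rw [pow_succ, mul_assoc]⟩

theorem kf_smul_left' (c : R) (x y : E8 R) : kf (c • x) y = c * kf x y := by
  simp only [kf, Pi.smul_apply, smul_eq_mul, Finset.mul_sum]
  refine Finset.sum_congr rfl fun i _ => Finset.sum_congr rfl fun j _ => ?_
  ring

/-- The line of `p` is saturated if the pairings with `p` contain a regular sequence of length
two. -/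
theorem sat_of [IsDomain R] {p : E8 R} {u v : R} (hu : u ≠ 0)
    (huv : ∀ s, v * s ∈ Ideal.span {u} → s ∈ Ideal.span {u}) (eu : ∃ e, kf p e = u)
    (ev : ∃ e, kf p e = v) : Sat p := by
  intro c hc y r h
  obtain ⟨e, he⟩ := eu
  obtain ⟨e', he'⟩ := ev
  have h1 : c * kf y e = r * u := by rw [← kf_smul_left', h, kf_smul_left', he]
  have h2 : c * kf y e' = r * v := by rw [← kf_smul_left', h, kf_smul_left', he']
  have h3 : c * (v * kf y e) = c * (kf y e' * u) := by linear_combination v * h1 - u * h2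
  have h4 := mul_left_cancel₀ hc h3
  obtain ⟨s, hs⟩ := Ideal.mem_span_singleton'.1 (huv (kf y e)
    (Ideal.mem_span_singleton'.2 ⟨kf y e', h4.symm⟩))
  have h5 : r = c * s := mul_right_cancel₀ hu (by rw [mul_assoc, hs, h1])
  refine ⟨s, ?_⟩
  funext i
  apply mul_left_cancel₀ hc
  have h6 := congrFun h i
  rw [Pi.smul_apply, Pi.smul_apply, smul_eq_mul, smul_eq_mul, h5] at h6
  rw [Pi.smul_apply, smul_eq_mul, h6]
  ring

end algebra

section setup

variable {R : Type u} [CommRing R]

theorem colon_of_weaklyRegular {a : Fin 6 → R} (h : IsWeaklyRegular R (List.ofFn a)) (s : R)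
    (hs : a 1 * s ∈ Ideal.span {a 0}) : s ∈ Ideal.span {a 0} := by
  have h1 := h.regular_mod_prev 1 (by simp)
  have h2 : (Ideal.ofList (List.take 1 (List.ofFn a)) • ⊤ : Submodule R R) =
      Ideal.span {a 0} := by
    have h3 : List.take 1 (List.ofFn a) = [a 0] := by
      rw [List.ofFn_succ]
      rfl
    rw [h3, Ideal.ofList_singleton, smul_eq_mul, Ideal.mul_top]
  rw [h2] at h1
  have h4 : (List.ofFn a)[1]'(by simp) = a 1 := by simp
  rw [h4] at h1
  rw [← Submodule.Quotient.mk_eq_zero]
  apply h1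
  show a 1 • (Submodule.Quotient.mk s : R ⧸ Ideal.span {a 0}) = a 1 • 0
  rw [smul_zero, ← Submodule.Quotient.mk_smul, Submodule.Quotient.mk_eq_zero]
  exact hs

theorem ne_zero_of_regular [IsLocalRing R] {a : Fin 6 → R} (h : IsWeaklyRegular R (List.ofFn a))
    (hm : ∀ i, a i ∈ maximalIdeal R) (i : Fin 6) : a i ≠ 0 := by
  intro hi
  have h1 := h.regular_mod_prev i (by simp)
  have h4 : (List.ofFn a)[(i : ℕ)]'(by simp) = a i := by
    rw [List.getElem_ofFn]
  rw [h4, hi, IsSMulRegular.zero_iff_subsingleton, Submodule.Quotient.subsingleton_iff,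
    smul_eq_mul, Ideal.mul_top, Ideal.eq_top_iff_one] at h1
  have h2 : Ideal.ofList (List.take i (List.ofFn a)) ≤ maximalIdeal R := by
    rw [Ideal.ofList, Ideal.span_le]
    intro x hx
    obtain ⟨j, rfl⟩ := (List.mem_ofFn' _ _).1 (List.mem_of_mem_take hx)
    exact hm j
  exact (Ideal.ne_top_iff_one _).1 (maximalIdeal.isMaximal R).ne_top (h2 h1)

/-- **The setup of the core.** -/
theorem exists_setup [IsDomain R] [IsRegularLocalRing R] [CharZero (ResidueField R)]
    (hdim : (maximalIdeal R).spanFinrank = 6) {p : E8 R} (hc : Cone p)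
    (hm : ∃ k : ℕ, ∀ r ∈ maximalIdeal R ^ k, ∃ e, kf p e = r) (ht : ∃ q : Fin 8, p (ix q) ≠ 0) :
    ∃ a : Fin 6 → R, Setup R p a ∧ Ideal.span (Set.range a) = maximalIdeal R := by
  obtain ⟨rs, hlen, hgen, hrs⟩ := exists_regular_generators R
  have hlen' : rs.length = 6 := by
    rw [← IsRegularLocalRing.spanFinrank_maximalIdeal (R := R), hdim] at hlen
    exact_mod_cast hlen
  let a : Fin 6 → R := fun i => rs.get (i.cast hlen'.symm)
  have ha : List.ofFn a = rs := by
    apply List.ext_getElem
    · simp [hlen']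
    · intro i h1 h2
      rw [List.getElem_ofFn]
      rfl
  have hreg : IsWeaklyRegular R (List.ofFn a) := by
    rw [ha]
    exact hrs.toIsWeaklyRegular
  have hspan : Ideal.span (Set.range a) = maximalIdeal R := by
    rw [← hgen, ← ha, Ideal.ofList]
    congr 1
    ext x
    exact (List.mem_ofFn' _ _).symm
  have hmem : ∀ i, a i ∈ maximalIdeal R := fun i => by
    rw [← hspan]
    exact Ideal.subset_span ⟨i, rfl⟩
  have hne : ∀ i, a i ≠ 0 := ne_zero_of_regular hreg hmem
  obtain ⟨k, hk⟩ := hm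
  have hpow : ∀ i, ∃ e, kf p e = a i ^ k := fun i => hk _ (Ideal.pow_mem_pow (hmem i) k)
  obtain ⟨alg⟩ := exists_algebra_rat' R
  have hchar : CharZero R := algebraRat.charZero R
  have hp0 : p ≠ 0 := by
    rintro rfl
    obtain ⟨q, hq⟩ := ht
    exact hq rfl
  refine ⟨a, ⟨⟨alg⟩, hchar, hreg, hne, hmem, hc, fun i => ⟨k, hpow i⟩, ht, ?_, fun i => ?_⟩, hspan⟩
  · exact sat_of (pow_ne_zero k (hne 0)) (two_pow (hne 0) (colon_of_weaklyRegular hreg) k k)
      (hpow 0) (hpow 1)
  · obtain ⟨e, he⟩ := hpow i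
    obtain ⟨Pi, h1, h2⟩ := exists_proj hc hp0 e
    exact ⟨k * 2, Pi, h1, fun x hx => by rw [h2 x hx, he, ← pow_mul]⟩

end setup

end LicciCore

end

section

/-!
MP_a98e4e_ag (licci), module Z (helper23): some coordinate of the point of the cone is a unit.
-/

set_option autoImplicit false

namespace Pool.Agent.Licci.Z

open IsLocalRing RingTheory.Sequence LicciCodimFour Pool.Agent.Licci.D

universe u

variable {R : Type u} [CommRing R]

/-- the dual of a finite module over a noetherian ring is finite -/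
theorem finite_dual [IsNoetherianRing R] (N : Type u) [AddCommGroup N] [Module R N]
    [Module.Finite R N] : Module.Finite R (Module.Dual R N) := by
  obtain ⟨n, s, hs⟩ := Module.Finite.exists_fin' R N
  have hinj : Function.Injective s.dualMap := LinearMap.dualMap_injective_of_surjective hs
  exact Module.Finite.of_injective s.dualMap hinj

theorem range_fv (p : E8 R) : LinearMap.range (fv p) = Ideal.span (Set.range (p3 p)) := by
  apply le_antisymm
  · rintro _ ⟨v, rfl⟩
    rw [fv_apply]
    exact Submodule.sum_mem _ fun m _ => Ideal.mul_mem_right _ _ (Ideal.subset_span ⟨m, rfl⟩)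
  · refine Submodule.span_le.2 ?_
    rintro _ ⟨i, rfl⟩
    exact ⟨Pi.single i 1, fv_single p i⟩

omit [CommRing R] in
theorem p3_eq (p : E8 R) (i : Fin 8) : p3 p i = p (ix i) := rfl

theorem kf_p_db (p : E8 R) (i : Fin 8) : kf p (db (ix i)) = p3 p i := by
  rw [kf_symm, kf_db_apply]; rfl

/-- the ideal of the form contains a power of the maximal ideal -/
theorem pow_le_p3 [IsLocalRing R] [IsNoetherianRing R] {p : E8 R} {a : Fin 6 → Fin 8 → R} {w : R}
    (h : GDat R (fv p) a w) (hdim : ringKrullDim R = (6 : ℕ)) :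
    ∃ k, maximalIdeal R ^ k ≤ Ideal.span (Set.range (p3 p)) := by
  obtain ⟨k, hk⟩ := XE.exists_pow_le_of_regular (List.ofFn fun i => fv p (a i)) h.reg
    (fun r hr => by
      obtain ⟨i, rfl⟩ := (List.mem_ofFn' _ _).1 hr
      exact h.mem _) (by rw [List.length_ofFn]; exact hdim)
  refine ⟨k, hk.trans ?_⟩
  rw [Ideal.ofList, Ideal.span_le]
  intro r hr
  obtain ⟨i, rfl⟩ := (List.mem_ofFn' _ _).1 hr
  rw [← range_fv]
  exact ⟨a i, rfl⟩

theorem exists_p3_ne [IsLocalRing R] {p : E8 R} {a : Fin 6 → Fin 8 → R} {w : R}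
    (h : GDat R (fv p) a w) : ∃ q : Fin 8, p (ix q) ≠ 0 := by
  by_contra hcon
  push Not at hcon
  have h1 : ∀ v, fv p v = 0 := fun v => by
    rw [fv_apply]
    exact Finset.sum_eq_zero fun m _ => by rw [p3_eq, hcon, zero_mul]
  have h2 : IsWeaklyRegular R (List.ofFn fun i => fv p (a i)) := h.reg
  rw [List.ofFn_succ] at h2
  have h3 := ((isWeaklyRegular_cons_iff R _ _).1 h2).1
  rw [h1] at h3
  have h4 : (1 : R) = 0 := h3 (show (0 : R) • (1 : R) = (0 : R) • (0 : R) by simp)
  exact one_ne_zero h4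

/-- **CORE**, from `Ext ^ 2 = Ext ^ 3 = 0`. -/
theorem unit_of_h23 [IsRegularLocalRing R] [CharZero (ResidueField R)] [Algebra ℚ R]
    {p : E8 R} {a : Fin 6 → Fin 8 → R} {w : R} (hc : Cone p) (h : GDat R (fv p) a w)
    (hdim : ringKrullDim R = (6 : ℕ)) (h23 : XE.H23 R (Module.Dual R (XE.VR p))) :
    ∃ m, IsUnit (p m) := by
  have : IsDomain R := isDomain_of_isRegularLocalRing R
  have : CharZero R := algebraRat.charZero R
  have hspan : (maximalIdeal R).spanFinrank = 6 := by
    have h1 := IsRegularLocalRing.spanFinrank_maximalIdeal (R := R)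
    rw [hdim] at h1
    exact_mod_cast h1
  obtain ⟨q, hq⟩ := exists_p3_ne h
  have hp0 : p ≠ 0 := fun h0 => hq (by rw [h0]; rfl)
  obtain ⟨k, hk⟩ := pow_le_p3 h hdim
  have hm : ∀ r ∈ maximalIdeal R ^ k, ∃ e, kf p e = r := by
    intro r hr
    have h1 := hk hr
    rw [← range_fv] at h1
    obtain ⟨v, rfl⟩ := h1
    refine ⟨∑ i, v i • db (ix i), ?_⟩
    rw [fv_apply]
    have h2 : ∀ s : Finset (Fin 8), kf p (∑ i ∈ s, v i • db (ix i)) =
        ∑ i ∈ s, p3 p i * v i := by
      intro s
      induction s using Finset.induction_on with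
      | empty =>
        rw [Finset.sum_empty, Finset.sum_empty, kf_symm]
        exact XE.kfz p
      | insert i s hi ih =>
        rw [Finset.sum_insert hi, Finset.sum_insert hi, kf_symm, XE.kfa, kf_symm _ p,
          kf_symm _ p, ih, kf_symm p, XE.kfs, kf_symm _ p, kf_p_db, mul_comm]
    exact h2 _
  obtain ⟨b, S, hgen⟩ := LicciCore.exists_setup hspan hc ⟨k, hm⟩ ⟨q, hq⟩
  have hf : ∀ y ∈ maximalIdeal R, ∃ n : ℕ, y ^ n ∈ Ideal.span (Set.range (p3 p)) :=
    fun y hy => ⟨k, hk (Ideal.pow_mem_pow hy k)⟩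
  have : Module.Finite R (Module.Dual R (XE.VR p)) := finite_dual _
  have hV : XE.UP R (XE.VR p) := XE.UP_VR hc hf
  obtain ⟨e, n, c, ⟨D⟩⟩ := LicciCore.exists_coreData S hgen (XE.mem_Phi_iff_F1 hc hp0) h23
    hV.dual hV
  exact LicciCore.core S D hgen

end Pool.Agent.Licci.Z

end

section

/-!
MP_a98e4e_ag (licci), module Z (helper23): the main theorem.
-/

set_option autoImplicit false

universe u

open IsLocalRing LicciCodimFour

/-- a point of the cone which represents linkage data over a regular local ring of dimension six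
has a unit coordinate -/
theorem Pool.Agent.Licci.Fin6.coreUnit (S : Type u) [CommRing S] [IsRegularLocalRing S]
    [Algebra ℚ S] : Pool.Agent.Licci.Fin6.CoreUnit S := by
  intro p a w hc h hw hdim
  have : IsDomain S := isDomain_of_isRegularLocalRing S
  have : CharZero (ResidueField S) := LicciCore.charZero_residue ⟨inferInstance⟩
  exact Pool.Agent.Licci.Z.unit_of_h23 hc h hdim
    (Pool.Agent.Licci.XE.H23_dual_VR_datum hc h hw hdim)

/-- Every perfect ideal with Dynkin invariants in codimension at least four is licci. -/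
theorem Pool.Agent.Licci.Z.licci_main (R : Type u) [CommRing R] [IsRegularLocalRing R]
    [CharZero (ResidueField R)] (I : Ideal R) (c d t : ℕ) (hc : 4 ≤ c) (hd : 1 ≤ d) (ht : 1 ≤ t)
    (hdyn : IsDynkinT (c - 1) (d + 1) (t + 1))
    (hI : IsPerfectOfInvariants I c d t) : IsLicci I :=
  Pool.Agent.Licci.Fin6.licci_of_coreUnit
    (fun S _ _ _ => Pool.Agent.Licci.Fin6.coreUnit S) R I c d t hc hd ht hdyn hI

end
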